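import Mathlib

/-!
# Triangular systems of forms killed by initial functionals
-/

set_option autoImplicit false

namespace Pool.Agent.R847.SG

/-- For functionals `φ_0, φ_1, …` on `E^ι` and a set `A` of columns there is an ordering of `A` and
vectors `c_0, c_1, …` such that `c_i` is killed by the first `i` functionals, is supported on the
first `i + 1` columns and does not vanish at the last of these. -/
lemma exists_flag {E ι : Type} [Field E] [Fintype ι] [DecidableEq ι] (φ : ℕ → ι → E) (l : ℕ) :
    ∀ A : Finset ι, A.card = l → ∃ (e : Fin l → ι) (c : Fin l → ι → E),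
      Function.Injective e ∧ (∀ i, e i ∈ A) ∧
      (∀ i j, c i j ≠ 0 → ∃ r ≤ i, e r = j) ∧ (∀ i, c i (e i) ≠ 0) ∧
      ∀ i : Fin l, ∀ t < (i : ℕ), ∑ j, c i j * φ t j = 0 := by
  induction l with
  | zero =>
    intro A _
    exact ⟨fun i => i.elim0, fun i => i.elim0, fun i => i.elim0, fun i => i.elim0,
      fun i => i.elim0, fun i => i.elim0, fun i => i.elim0⟩
  | succ l ih =>
    intro A hA
    -- a kernel vector
    obtain ⟨v, hv0, hvA, hv⟩ : ∃ v : ι → E, v ≠ 0 ∧ (∀ j, j ∉ A → v j = 0) ∧
        ∀ t < l, ∑ j, v j * φ t j = 0 := by
      let Φ : (A → E) →ₗ[E] (Fin l → E) :=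
        { toFun := fun w t => ∑ j, w j * φ t j
          map_add' := by
            intro w w'
            funext t
            simp [add_mul, Finset.sum_add_distrib]
          map_smul' := by
            intro a w
            funext t
            simp [Finset.mul_sum, mul_assoc] }
      have hker : LinearMap.ker Φ ≠ ⊥ := by
        apply LinearMap.ker_ne_bot_of_finrank_lt
        rw [Module.finrank_fintype_fun_eq_card, Module.finrank_fintype_fun_eq_card,
          Fintype.card_coe, hA, Fintype.card_fin]
        omega
      obtain ⟨w, hw, hw0⟩ := (Submodule.ne_bot_iff _).1 hker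
      refine ⟨fun j => if h : j ∈ A then w ⟨j, h⟩ else 0, ?_, ?_, ?_⟩
      · intro h0
        apply hw0
        funext j
        have := congrFun h0 j.1
        simpa using this
      · intro j hj
        simp [hj]
      · intro t ht
        have h1 := congrFun (LinearMap.mem_ker.1 hw) ⟨t, ht⟩
        have h2 : ∑ j : A, w j * φ t j = 0 := h1
        calc ∑ j, (if h : j ∈ A then w ⟨j, h⟩ else 0) * φ t j
            = ∑ j ∈ A, (if h : j ∈ A then w ⟨j, h⟩ else 0) * φ t j := by
              symm
              apply Finset.sum_subset (Finset.subset_univ A)
              intro j _ hj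
              simp [hj]
          _ = ∑ j : A, w j * φ t j := by
              rw [← Finset.sum_coe_sort A]
              refine Finset.sum_congr rfl fun j _ => ?_
              simp
          _ = 0 := h2
    obtain ⟨a, ha⟩ := Function.ne_iff.1 hv0
    have haA : a ∈ A := by
      by_contra h
      exact ha (hvA a h)
    obtain ⟨e, c, he, heA, hsupp, hdiag, hφ⟩ := ih (A.erase a) (by
      rw [Finset.card_erase_of_mem haA, hA]
      rfl)
    have hne : ∀ i, e i ≠ a := fun i h => by
      have := heA i
      rw [h] at this
      simp at this
    have hmem : ∀ j ∈ A, j ≠ a → ∃ r, e r = j := by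
      intro j hj hja
      have h1 : (Finset.univ.image e) = A.erase a := by
        apply Finset.eq_of_subset_of_card_le
        · intro x hx
          rw [Finset.mem_image] at hx
          obtain ⟨r, _, rfl⟩ := hx
          exact heA r
        · rw [Finset.card_erase_of_mem haA, hA, Finset.card_image_of_injective _ he,
            Finset.card_univ, Fintype.card_fin]
          simp
      have h2 : j ∈ A.erase a := Finset.mem_erase.2 ⟨hja, hj⟩
      rw [← h1, Finset.mem_image] at h2
      obtain ⟨r, _, hr⟩ := h2
      exact ⟨r, hr⟩
    refine ⟨Fin.snoc e a, Fin.snoc c v, ?_, ?_, ?_, ?_, ?_⟩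
    · intro i i' hii
      induction i using Fin.lastCases with
      | last =>
        induction i' using Fin.lastCases with
        | last => rfl
        | cast i' =>
          rw [Fin.snoc_last, Fin.snoc_castSucc] at hii
          exact absurd hii.symm (hne i')
      | cast i =>
        induction i' using Fin.lastCases with
        | last =>
          rw [Fin.snoc_last, Fin.snoc_castSucc] at hii
          exact absurd hii (hne i)
        | cast i' =>
          rw [Fin.snoc_castSucc, Fin.snoc_castSucc] at hii
          rw [he hii]
    · intro i
      induction i using Fin.lastCases with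
      | last => rw [Fin.snoc_last]; exact haA
      | cast i =>
        rw [Fin.snoc_castSucc]
        exact Finset.mem_of_mem_erase (heA i)
    · intro i j hj
      induction i using Fin.lastCases with
      | last =>
        rw [Fin.snoc_last] at hj
        by_cases hja : j = a
        · exact ⟨Fin.last l, le_rfl, by rw [Fin.snoc_last, hja]⟩
        · have hjA : j ∈ A := by
            by_contra h
            exact hj (hvA j h)
          obtain ⟨r, hr⟩ := hmem j hjA hja
          exact ⟨r.castSucc, Fin.le_last _, by rw [Fin.snoc_castSucc, hr]⟩
      | cast i =>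
        rw [Fin.snoc_castSucc] at hj
        obtain ⟨r, hri, hr⟩ := hsupp i j hj
        exact ⟨r.castSucc, Fin.castSucc_le_castSucc_iff.2 hri, by rw [Fin.snoc_castSucc, hr]⟩
    · intro i
      induction i using Fin.lastCases with
      | last => rw [Fin.snoc_last, Fin.snoc_last]; exact ha
      | cast i => rw [Fin.snoc_castSucc, Fin.snoc_castSucc]; exact hdiag i
    · intro i t ht
      induction i using Fin.lastCases with
      | last =>
        rw [Fin.snoc_last]
        exact hv t (by simpa using ht)
      | cast i =>
        rw [Fin.snoc_castSucc]
        exact hφ i t (by simpa using ht)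

end Pool.Agent.R847.SG
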