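import Mathlib

/-!
# Homogenised evaluation of polynomials and divided differences
-/

set_option autoImplicit false

open MvPolynomial Filter Topology

namespace Pool.Agent.R847.SG

variable {ι : Type} [Fintype ι] [DecidableEq ι]

/-- homogenised evaluation -/
noncomputable def H {A : Type} [CommRing A] (m : ℕ) (g : MvPolynomial ι ℤ) (ε : A) (z : ι → A) :
    A :=
  ∑ j ∈ Finset.range (m + 1), ε ^ (m - j) * aeval z (homogeneousComponent j g)

omit [Fintype ι] [DecidableEq ι] in
lemma H_zero {A : Type} [CommRing A] (m : ℕ) (g : MvPolynomial ι ℤ) (z : ι → A) :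
    H m g 0 z = aeval z (homogeneousComponent m g) := by
  unfold H
  rw [Finset.sum_range_succ, Finset.sum_eq_zero, zero_add, Nat.sub_self, pow_zero, one_mul]
  intro j hj
  rw [Finset.mem_range] at hj
  rw [zero_pow (by omega), zero_mul]

omit [DecidableEq ι] in
lemma aeval_scale {A : Type} [CommRing A] (g : MvPolynomial ι ℤ) (e : ℕ) (hg : g.IsHomogeneous e)
    (c : A) (x : ι → A) : aeval (fun i => c * x i) g = c ^ e * aeval x g := by
  classical
  rw [aeval_def, aeval_def, eval₂_eq', eval₂_eq', Finset.mul_sum]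
  refine Finset.sum_congr rfl fun κ hκ => ?_
  have h1 : ∑ i, κ i = e := by
    have := hg (mem_support_iff.1 hκ)
    rw [Finsupp.weight_apply, Finsupp.sum_fintype _ _ (by simp)] at this
    simpa using this
  have h2 : ∏ i, (c * x i) ^ κ i = c ^ e * ∏ i, x i ^ κ i := by
    simp only [mul_pow, Finset.prod_mul_distrib]
    congr 1
    rw [Finset.prod_pow_eq_pow_sum, ← h1]
  rw [h2]
  ring

omit [Fintype ι] [DecidableEq ι] in
lemma H_map {A B : Type} [CommRing A] [CommRing B] (φ : A →+* B) (m : ℕ) (g : MvPolynomial ι ℤ)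
    (ε : A) (z : ι → A) : φ (H m g ε z) = H m g (φ ε) (fun i => φ (z i)) := by
  unfold H
  rw [map_sum]
  refine Finset.sum_congr rfl fun j _ => ?_
  rw [map_mul, map_pow]
  congr 1
  have := MvPolynomial.map_aeval z φ (homogeneousComponent j g)
  rw [this]
  rw [aeval_def, coe_eval₂Hom]
  congr 1
  exact RingHom.ext_int _ _

omit [DecidableEq ι] in
lemma H_scale {A : Type} [CommRing A] (m : ℕ) (g : MvPolynomial ι ℤ) (ε c : A) (z : ι → A) :
    H m g (c * ε) (fun i => c * z i) = c ^ m * H m g ε z := by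
  unfold H
  rw [Finset.mul_sum]
  refine Finset.sum_congr rfl fun j hj => ?_
  rw [Finset.mem_range] at hj
  rw [aeval_scale _ j (homogeneousComponent_isHomogeneous j g)]
  have h1 : c ^ m = c ^ (m - j) * c ^ j := by
    rw [← pow_add]
    congr 1
    omega
  rw [h1, mul_pow]
  ring

omit [DecidableEq ι] in
lemma H_eval {A : Type} [CommRing A] (m : ℕ) (g : MvPolynomial ι ℤ) (hg : g.totalDegree ≤ m)
    (ε s : A) (hs : s * ε = 1) (z : ι → A) :
    s ^ m * H m g ε z = aeval (fun i => s * z i) g := by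
  rw [← H_scale, hs]
  unfold H
  have h1 : aeval (fun i => s * z i) g = ∑ j ∈ Finset.range (m + 1),
      aeval (fun i => s * z i) (homogeneousComponent j g) := by
    conv_lhs => rw [← sum_homogeneousComponent g]
    rw [map_sum]
    apply Finset.sum_subset
    · intro j hj
      rw [Finset.mem_range] at hj ⊢
      omega
    · intro j _ hj
      rw [Finset.mem_range] at hj
      rw [homogeneousComponent_eq_zero _ _ (by omega), map_zero]
  rw [h1]
  refine Finset.sum_congr rfl fun j _ => ?_
  rw [one_pow, one_mul]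

/-- divided differences -/
lemma exists_dd (g : MvPolynomial ι ℤ) : ∃ M : ι → MvPolynomial (ι ⊕ ι) ℤ,
    ∀ (A : Type) [CommRing A],
      (∀ z w : ι → A, aeval z g - aeval w g = ∑ i, aeval (Sum.elim z w) (M i) * (z i - w i)) ∧
      ∀ (z : ι → A) (i : ι), aeval (Sum.elim z z) (M i) = aeval z (pderiv i g) := by
  induction g using MvPolynomial.induction_on with
  | C a =>
    refine ⟨0, fun A _ => ⟨fun z w => ?_, fun z i => ?_⟩⟩
    · simp
    · simp
  | add p q hp hq =>
    obtain ⟨M, hM⟩ := hp
    obtain ⟨M', hM'⟩ := hq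
    refine ⟨M + M', fun A _ => ⟨fun z w => ?_, fun z i => ?_⟩⟩
    · have h1 := (hM A).1 z w
      have h2 := (hM' A).1 z w
      simp only [map_add, Pi.add_apply, add_mul, Finset.sum_add_distrib]
      rw [← h1, ← h2]
      ring
    · rw [Pi.add_apply, map_add, (hM A).2, (hM' A).2, map_add, map_add]
  | mul_X p j hp =>
    obtain ⟨M, hM⟩ := hp
    refine ⟨fun i => M i * X (Sum.inl j) + if i = j then rename Sum.inr p else 0,
      fun A _ => ⟨fun z w => ?_, fun z i => ?_⟩⟩
    · have h1 := (hM A).1 z w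
      simp only [map_mul, map_add, aeval_X, Sum.elim_inl, add_mul, Finset.sum_add_distrib]
      have h2 : ∑ i, aeval (Sum.elim z w) (M i) * z j * (z i - w i) =
          z j * ∑ i, aeval (Sum.elim z w) (M i) * (z i - w i) := by
        rw [Finset.mul_sum]
        refine Finset.sum_congr rfl fun i _ => ?_
        ring
      have h3 : ∑ i, (aeval (Sum.elim z w)) (if i = j then rename Sum.inr p else 0) *
          (z i - w i) = aeval w p * (z j - w j) := by
        rw [Finset.sum_eq_single j]
        · rw [if_pos rfl, aeval_rename, Sum.elim_comp_inr]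
        · intro i _ hij
          rw [if_neg hij, map_zero, zero_mul]
        · intro h
          exact absurd (Finset.mem_univ j) h
      rw [h2, h3, ← h1]
      ring
    · rw [map_add, map_mul, (hM A).2, aeval_X, Sum.elim_inl]
      rw [Derivation.leibniz, pderiv_X]
      by_cases hij : i = j
      · subst hij
        rw [if_pos rfl, aeval_rename, Sum.elim_comp_inr]
        simp
        ring
      · rw [if_neg hij, Pi.single_eq_of_ne' (fun h => hij h)]
        simp
        ring

/-- the divided difference of the homogenised evaluation -/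
noncomputable def W {A : Type} [CommRing A] (m : ℕ) (g : MvPolynomial ι ℤ) (ε : A) (z w : ι → A)
    (i : ι) : A :=
  ∑ j ∈ Finset.range (m + 1), ε ^ (m - j) *
    aeval (Sum.elim z w) ((exists_dd (homogeneousComponent j g)).choose i)

lemma W_spec {A : Type} [CommRing A] (m : ℕ) (g : MvPolynomial ι ℤ) (ε : A) (z w : ι → A) :
    H m g ε z - H m g ε w = ∑ i, W m g ε z w i * (z i - w i) := by
  unfold H W
  rw [← Finset.sum_sub_distrib]
  simp_rw [Finset.sum_mul]
  rw [Finset.sum_comm]
  refine Finset.sum_congr rfl fun j _ => ?_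
  rw [← mul_sub, ((exists_dd (homogeneousComponent j g)).choose_spec A).1, Finset.mul_sum]
  refine Finset.sum_congr rfl fun i _ => ?_
  ring

lemma W_zero {A : Type} [CommRing A] (m : ℕ) (g : MvPolynomial ι ℤ) (z : ι → A) (i : ι) :
    W m g 0 z z i = aeval z (pderiv i (homogeneousComponent m g)) := by
  unfold W
  rw [Finset.sum_range_succ, Finset.sum_eq_zero, zero_add, Nat.sub_self, pow_zero, one_mul,
    ((exists_dd (homogeneousComponent m g)).choose_spec A).2]
  intro j hj
  rw [Finset.mem_range] at hj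
  rw [zero_pow (by omega), zero_mul]

lemma W_map {A B : Type} [CommRing A] [CommRing B] (φ : A →+* B) (m : ℕ) (g : MvPolynomial ι ℤ)
    (ε : A) (z w : ι → A) (i : ι) :
    φ (W m g ε z w i) = W m g (φ ε) (fun i => φ (z i)) (fun i => φ (w i)) i := by
  unfold W
  rw [map_sum]
  refine Finset.sum_congr rfl fun j _ => ?_
  rw [map_mul, map_pow]
  congr 1
  rw [MvPolynomial.map_aeval, aeval_def, coe_eval₂Hom]
  have h1 : (fun i => φ (Sum.elim z w i)) =
      Sum.elim (fun i => φ (z i)) (fun i => φ (w i)) := by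
    funext i
    cases i <;> rfl
  rw [h1]
  congr 1
  exact RingHom.ext_int _ _

lemma W_tendsto {X : Type} {l : Filter X} (m : ℕ) (g : MvPolynomial ι ℤ) (ε : X → ℝ)
    (z w : X → ι → ℝ) (ε0 : ℝ) (z0 w0 : ι → ℝ) (hε : Tendsto ε l (𝓝 ε0))
    (hz : ∀ i, Tendsto (fun n => z n i) l (𝓝 (z0 i)))
    (hw : ∀ i, Tendsto (fun n => w n i) l (𝓝 (w0 i))) (i : ι) :
    Tendsto (fun n => W m g (ε n) (z n) (w n) i) l (𝓝 (W m g ε0 z0 w0 i)) := by
  unfold W
  apply tendsto_finsetSum
  intro j _
  apply (hε.pow _).mul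
  generalize (exists_dd (homogeneousComponent j g)).choose i = p
  have h1 : Continuous fun y : (ι ⊕ ι) → ℝ => aeval y p := by
    simp_rw [aeval_def, eval₂_eq_eval_map]
    exact MvPolynomial.continuous_eval _
  have h2 : Tendsto (fun n => (Sum.elim (z n) (w n) : ι ⊕ ι → ℝ)) l
      (𝓝 (Sum.elim z0 w0)) := by
    rw [tendsto_pi_nhds]
    intro k
    cases k with
    | inl k => exact hz k
    | inr k => exact hw k
  exact (h1.tendsto _).comp h2

/-- the matrix of divided differences -/
noncomputable def Wm {A : Type} [CommRing A] (d : ℕ) (f : ι → MvPolynomial ι ℤ) (ε : A)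
    (z w : ι → A) : Matrix ι ι A := Matrix.of fun i j => W d (f i) ε z w j

/-- the Jacobian matrix of the top degree part -/
noncomputable def Dm {A : Type} [CommRing A] (d : ℕ) (f : ι → MvPolynomial ι ℤ) (z : ι → A) :
    Matrix ι ι A := Matrix.of fun i j => aeval z (pderiv j (homogeneousComponent d (f i)))

lemma Wm_zero {A : Type} [CommRing A] (d : ℕ) (f : ι → MvPolynomial ι ℤ) (z : ι → A) :
    Wm d f 0 z z = Dm d f z := by
  ext i j
  exact W_zero d (f i) z j

lemma Wm_spec {A : Type} [CommRing A] (d : ℕ) (f : ι → MvPolynomial ι ℤ) (ε : A)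
    (z w : ι → A) :
    (fun i => H d (f i) ε z - H d (f i) ε w) = (Wm d f ε z w).mulVec (z - w) := by
  funext i
  rw [W_spec]
  rfl

lemma Wm_map {A B : Type} [CommRing A] [CommRing B] (φ : A →+* B) (d : ℕ)
    (f : ι → MvPolynomial ι ℤ) (ε : A) (z w : ι → A) :
    (Wm d f ε z w).map φ = Wm d f (φ ε) (fun i => φ (z i)) (fun i => φ (w i)) := by
  ext i j
  exact W_map φ d (f i) ε z w j

lemma Dm_map {A B : Type} [CommRing A] [CommRing B] (φ : A →+* B) (d : ℕ)
    (f : ι → MvPolynomial ι ℤ) (z : ι → A) :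
    (Dm d f z).map φ = Dm d f (fun i => φ (z i)) := by
  rw [← Wm_zero, Wm_map, map_zero, Wm_zero]

/-- Congruence lifting from order `J` to order `J + 1`. -/
lemma newton_step {E : Type} [Field E] (d : ℕ) (f : ι → MvPolynomial ι ℤ) (c0 : ι → E)
    (hdet : (Dm d f c0).det ≠ 0) (b : ι → Polynomial E) (J : ℕ) (hJ : 1 ≤ J)
    (c : ι → Polynomial E) (hc : ∀ i, (c i).coeff 0 = c0 i)
    (h : ∀ i, Polynomial.X ^ J ∣ H d (f i) Polynomial.X c - b i) :
    ∃ c' : ι → Polynomial E, (∀ i, (c' i).coeff 0 = c0 i) ∧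
      ∀ i, Polynomial.X ^ (J + 1) ∣ H d (f i) Polynomial.X c' - b i := by
  choose r hr using h
  set v : ι → E := -((Dm d f c0)⁻¹.mulVec fun i => (r i).coeff 0) with hv
  have hDv : (Dm d f c0).mulVec v = -fun i => (r i).coeff 0 := by
    rw [hv, Matrix.mulVec_neg, Matrix.mulVec_mulVec,
      Matrix.mul_nonsing_inv _ (isUnit_iff_ne_zero.2 hdet), Matrix.one_mulVec]
  set c' : ι → Polynomial E := fun i => c i + Polynomial.X ^ J * Polynomial.C (v i) with hc'
  have hc'0 : ∀ i, (c' i).coeff 0 = c0 i := by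
    intro i
    rw [hc', Polynomial.coeff_add, hc i, Polynomial.coeff_zero_eq_eval_zero (Polynomial.X ^ J * _)]
    simp [zero_pow (by omega : J ≠ 0)]
  refine ⟨c', hc'0, fun i => ?_⟩
  have h1 := congrFun (Wm_spec d f (Polynomial.X : Polynomial E) c' c) i
  have h2 : c' - c = fun i => Polynomial.X ^ J * Polynomial.C (v i) := by
    funext k
    simp [hc']
  rw [h2] at h1
  have h3 : H d (f i) Polynomial.X c' - b i = Polynomial.X ^ J *
      (r i + (Wm d f Polynomial.X c' c).mulVec (fun k => Polynomial.C (v k)) i) := by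
    have h4 : (Wm d f Polynomial.X c' c).mulVec
        (fun i => Polynomial.X ^ J * Polynomial.C (v i)) i =
        Polynomial.X ^ J * (Wm d f Polynomial.X c' c).mulVec (fun k => Polynomial.C (v k)) i := by
      rw [Matrix.mulVec, dotProduct, Matrix.mulVec, dotProduct, Finset.mul_sum]
      refine Finset.sum_congr rfl fun k _ => ?_
      ring
    rw [h4] at h1
    linear_combination h1 + hr i
  rw [h3, pow_succ]
  apply mul_dvd_mul_left
  rw [Polynomial.X_dvd_iff, Polynomial.coeff_add]
  have h5 : ((Wm d f Polynomial.X c' c).mulVec (fun k => Polynomial.C (v k)) i).coeff 0 =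
      (Dm d f c0).mulVec v i := by
    have h6 := Wm_map (Polynomial.evalRingHom (0 : E)) d f Polynomial.X c' c
    rw [Polynomial.coeff_zero_eq_eval_zero, ← Polynomial.coe_evalRingHom, RingHom.map_mulVec, h6]
    have h7 : (fun i => Polynomial.evalRingHom (0 : E) (c' i)) = c0 := by
      funext k
      rw [Polynomial.coe_evalRingHom, ← Polynomial.coeff_zero_eq_eval_zero, hc'0]
    have h8 : (fun i => Polynomial.evalRingHom (0 : E) (c i)) = c0 := by
      funext k
      rw [Polynomial.coe_evalRingHom, ← Polynomial.coeff_zero_eq_eval_zero, hc]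
    rw [h7, h8, Polynomial.coe_evalRingHom, Polynomial.eval_X, Wm_zero]
    have h9 : (⇑(Polynomial.evalRingHom (0 : E)) ∘ fun k => Polynomial.C (v k)) = v := by
      funext k
      simp
    rw [← Polynomial.coe_evalRingHom, h9]
  rw [h5, hDv]
  simp

lemma newton {E : Type} [Field E] (d : ℕ) (hd : d ≠ 0) (f : ι → MvPolynomial ι ℤ) (c0 : ι → E)
    (hdet : (Dm d f c0).det ≠ 0) (b : ι → Polynomial E)
    (hb : ∀ i, aeval c0 (homogeneousComponent d (f i)) = (b i).coeff 0) (J : ℕ) :
    ∃ c : ι → Polynomial E, (∀ i, (c i).coeff 0 = c0 i) ∧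
      ∀ i, Polynomial.X ^ J ∣ H d (f i) Polynomial.X c - (b i).comp (Polynomial.X ^ d) := by
  have key : ∀ J, 1 ≤ J → ∃ c : ι → Polynomial E, (∀ i, (c i).coeff 0 = c0 i) ∧
      ∀ i, Polynomial.X ^ J ∣ H d (f i) Polynomial.X c - (b i).comp (Polynomial.X ^ d) := by
    intro J hJ
    induction J, hJ using Nat.le_induction with
    | base =>
      refine ⟨fun i => Polynomial.C (c0 i), fun i => by simp, fun i => ?_⟩
      rw [pow_one, Polynomial.X_dvd_iff, Polynomial.coeff_zero_eq_eval_zero,
        Polynomial.eval_sub, Polynomial.eval_comp]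
      have h1 := H_map (Polynomial.evalRingHom (0 : E)) d (f i) Polynomial.X
        (fun i => Polynomial.C (c0 i))
      rw [Polynomial.coe_evalRingHom] at h1
      rw [h1]
      simp only [Polynomial.eval_X, Polynomial.eval_C]
      rw [H_zero, hb i, Polynomial.coeff_zero_eq_eval_zero]
      simp [hd]
    | succ J hJ ih =>
      obtain ⟨c, hc, h⟩ := ih
      exact newton_step d f c0 hdet _ J hJ c hc h
  rcases Nat.eq_zero_or_pos J with rfl | hJ
  · obtain ⟨c, hc, _⟩ := key 1 le_rfl
    exact ⟨c, hc, fun i => by simp⟩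
  · exact key J hJ

/-- Uniqueness of the lift. -/
lemma newton_unique {E : Type} [Field E] (d : ℕ) (f : ι → MvPolynomial ι ℤ) (c0 : ι → E)
    (hdet : (Dm d f c0).det ≠ 0) (J : ℕ)
    (c c' : ι → Polynomial E) (hc : ∀ i, (c i).coeff 0 = c0 i) (hc' : ∀ i, (c' i).coeff 0 = c0 i)
    (h : ∀ i, Polynomial.X ^ J ∣ H d (f i) Polynomial.X c - H d (f i) Polynomial.X c') :
    ∀ i, Polynomial.X ^ J ∣ c i - c' i := by
  set M := Wm d f Polynomial.X c c' with hM
  have h1 : ∀ i, Polynomial.X ^ J ∣ M.mulVec (c - c') i := by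
    intro i
    rw [hM, ← Wm_spec]
    exact h i
  have h2 : ∀ i, Polynomial.X ^ J ∣ M.det * (c i - c' i) := by
    intro i
    have h3 : M.adjugate.mulVec (M.mulVec (c - c')) i = M.det * (c i - c' i) := by
      rw [Matrix.mulVec_mulVec, Matrix.adjugate_mul, Matrix.smul_mulVec, Matrix.one_mulVec]
      rfl
    rw [← h3, Matrix.mulVec, dotProduct]
    exact Finset.dvd_sum fun k _ => Dvd.dvd.mul_left (h1 k) _
  have h3 : ¬ Polynomial.X ∣ M.det := by
    rw [Polynomial.X_dvd_iff, Polynomial.coeff_zero_eq_eval_zero, ← Polynomial.coe_evalRingHom,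
      RingHom.map_det]
    have h6 := Wm_map (Polynomial.evalRingHom (0 : E)) d f Polynomial.X c c'
    have h7 : (fun i => Polynomial.evalRingHom (0 : E) (c' i)) = c0 := by
      funext k
      rw [Polynomial.coe_evalRingHom, ← Polynomial.coeff_zero_eq_eval_zero, hc']
    have h8 : (fun i => Polynomial.evalRingHom (0 : E) (c i)) = c0 := by
      funext k
      rw [Polynomial.coe_evalRingHom, ← Polynomial.coeff_zero_eq_eval_zero, hc]
    rw [h7, h8] at h6
    rw [hM, RingHom.mapMatrix_apply, h6, Polynomial.coe_evalRingHom, Polynomial.eval_X, Wm_zero]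
    exact hdet
  intro i
  exact (Polynomial.prime_X.pow_dvd_of_dvd_mul_left J h3 (h2 i))

end Pool.Agent.R847.SG
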