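import Mathlib
import Pool.Agent.R847.SG.Hom

/-!
# Limits and rates along an ultrafilter
-/

set_option autoImplicit false

open MvPolynomial Filter Topology Asymptotics

namespace Pool.Agent.R847.SG

section gen

variable {X : Type}

lemma uf_choice (U : Ultrafilter X) {κ : Type} [Finite κ] (p : κ → X → Prop)
    (h : ∀ᶠ n in U, ∃ k, p k n) : ∃ k, ∀ᶠ n in U, p k n := by
  by_contra hno
  push Not at hno
  have h1 : ∀ k, ∀ᶠ n in U, ¬ p k n := hno
  have h2 : ∀ᶠ n in U, ∀ k, ¬ p k n := eventually_all.2 h1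
  obtain ⟨n, hn1, hn2⟩ := (h.and h2).exists
  obtain ⟨k, hk⟩ := hn1
  exact hn2 k hk

lemma uf_lim {ι : Type} [Fintype ι] (U : Ultrafilter X) (z : X → ι → ℝ) (C : ℝ)
    (h : ∀ᶠ n in U, ‖z n‖ ≤ C) : ∃ y : ι → ℝ, Tendsto z U (𝓝 y) := by
  have h1 : IsCompact (Metric.closedBall (0 : ι → ℝ) C) := isCompact_closedBall _ _
  have h2 : Metric.closedBall (0 : ι → ℝ) C ∈ U.map z := by
    rw [Ultrafilter.mem_map]
    filter_upwards [h] with n hn
    simpa using hn
  obtain ⟨y, _, hy⟩ := h1.ultrafilter_le_nhds' (U.map z) h2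
  exact ⟨y, hy⟩

/-- A root of a nonzero polynomial which is a limit is approached at a power rate. -/
lemma root_rate (U : Ultrafilter X) (s : X → ℝ) (hs : Tendsto s U atTop) (T : Polynomial ℝ)
    (hT : T ≠ 0) (z : X → ℝ) (c : ℝ) (hz : Tendsto z U (𝓝 c)) (ρ : ℝ) (hρ : 0 < ρ)
    (h : (fun n => T.eval (z n)) =O[(U : Filter X)] fun n => (s n) ^ (-ρ)) :
    ∃ ρ' : ℝ, 0 < ρ' ∧ (fun n => z n - c) =O[(U : Filter X)] fun n => (s n) ^ (-ρ') := by
  set μ := T.rootMultiplicity c with hμ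
  obtain ⟨Q, hQ, hQ2⟩ := Polynomial.exists_eq_pow_rootMultiplicity_mul_and_not_dvd T hT c
  rw [← hμ] at hQ
  have hQc : Q.eval c ≠ 0 := fun h0 => hQ2 (Polynomial.dvd_iff_isRoot.2 h0)
  have hQt : Tendsto (fun n => Q.eval (z n)) U (𝓝 (Q.eval c)) :=
    (Q.continuous.tendsto c).comp hz
  have h1 : ∀ᶠ n in U, |Q.eval c| / 2 ≤ |Q.eval (z n)| := by
    have h2 : Tendsto (fun n => |Q.eval (z n)|) U (𝓝 |Q.eval c|) := hQt.abs
    have h3 : |Q.eval c| / 2 < |Q.eval c| := half_lt_self (abs_pos.2 hQc)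
    filter_upwards [h2.eventually (lt_mem_nhds h3)] with n hn
    exact hn.le
  obtain ⟨C, hC⟩ := h.bound
  have hspos : ∀ᶠ n in U, 1 ≤ s n := hs.eventually_ge_atTop 1
  have hκ : 0 < |Q.eval c| / 2 := half_pos (abs_pos.2 hQc)
  have h2 : ∀ᶠ n in U, |z n - c| ^ μ ≤ (C / (|Q.eval c| / 2)) * (s n) ^ (-ρ) := by
    filter_upwards [h1, hC, hspos] with n hn hCn hsn
    have h3 : T.eval (z n) = (z n - c) ^ μ * Q.eval (z n) := by
      rw [hQ, Polynomial.eval_mul, Polynomial.eval_pow]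
      simp
    rw [h3, norm_mul, norm_pow, Real.norm_eq_abs, Real.norm_eq_abs,
      Real.norm_of_nonneg (Real.rpow_nonneg (by linarith) _)] at hCn
    rw [div_mul_eq_mul_div, le_div_iff₀ hκ]
    calc |z n - c| ^ μ * (|Q.eval c| / 2) ≤ |z n - c| ^ μ * |Q.eval (z n)| := by
          apply mul_le_mul_of_nonneg_left hn (by positivity)
      _ ≤ _ := hCn
  by_cases hμ0 : μ = 0
  · exfalso
    have h3 : Tendsto (fun n => (C / (|Q.eval c| / 2)) * (s n) ^ (-ρ)) U (𝓝 0) := by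
      have := ((tendsto_rpow_neg_atTop hρ).comp hs).const_mul (C / (|Q.eval c| / 2))
      simpa using this
    have h4 := h3.eventually (gt_mem_nhds (zero_lt_one))
    obtain ⟨n, hn1, hn2⟩ := (h2.and h4).exists
    rw [hμ0, pow_zero] at hn1
    linarith
  · refine ⟨ρ / μ, by positivity, ?_⟩
    rw [isBigO_iff]
    set K := C / (|Q.eval c| / 2) with hK
    refine ⟨(max K 1) ^ ((μ : ℝ)⁻¹), ?_⟩
    filter_upwards [h2, hspos] with n hn hsn
    have hs0 : 0 < s n := by linarith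
    rw [Real.norm_eq_abs, Real.norm_of_nonneg (Real.rpow_nonneg hs0.le _)]
    have h5 : |z n - c| ^ μ ≤ max K 1 * (s n) ^ (-ρ) := by
      refine hn.trans ?_
      apply mul_le_mul_of_nonneg_right (le_max_left _ _) (Real.rpow_nonneg hs0.le _)
    have h6 : |z n - c| = (|z n - c| ^ μ) ^ ((μ : ℝ)⁻¹) :=
      (Real.pow_rpow_inv_natCast (abs_nonneg _) hμ0).symm
    rw [h6]
    calc (|z n - c| ^ μ) ^ ((μ : ℝ)⁻¹) ≤ (max K 1 * (s n) ^ (-ρ)) ^ ((μ : ℝ)⁻¹) := by
          apply Real.rpow_le_rpow (by positivity) h5 (by positivity)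
      _ = (max K 1) ^ ((μ : ℝ)⁻¹) * ((s n) ^ (-ρ)) ^ ((μ : ℝ)⁻¹) := by
          rw [Real.mul_rpow (by positivity) (Real.rpow_nonneg hs0.le _)]
      _ = _ := by
          rw [← Real.rpow_mul hs0.le]
          congr 2
          field_simp

end gen

variable {X : Type} {ι : Type} [Fintype ι] [DecidableEq ι]

lemma lip {l : Filter X} (m : ℕ) (g : MvPolynomial ι ℤ) (ε : X → ℝ) (z w : X → ι → ℝ) (ε0 : ℝ)
    (c c' : ι → ℝ) (hε : Tendsto ε l (𝓝 ε0)) (hz : Tendsto z l (𝓝 c)) (hw : Tendsto w l (𝓝 c'))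
    (φ : X → ℝ) (h : ∀ i, (fun n => z n i - w n i) =O[l] φ) :
    (fun n => H m g (ε n) (z n) - H m g (ε n) (w n)) =O[l] φ := by
  have h1 : (fun n => H m g (ε n) (z n) - H m g (ε n) (w n)) =
      fun n => ∑ i, W m g (ε n) (z n) (w n) i * (z n i - w n i) := by
    funext n
    exact W_spec _ _ _ _ _
  rw [h1]
  apply IsBigO.fun_sum
  intro i _
  have h2 := (W_tendsto m g ε z w ε0 c c' hε (fun i => (tendsto_pi_nhds.1 hz) i)
    (fun i => (tendsto_pi_nhds.1 hw) i) i).isBigO_one ℝ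
  simpa using h2.mul (h i)

lemma expand {l : Filter X} (d : ℕ) (f : ι → MvPolynomial ι ℤ) (ε : X → ℝ) (z w : X → ι → ℝ)
    (c : ι → ℝ) (hdet : (Dm d f c).det ≠ 0) (hε : Tendsto ε l (𝓝 0)) (hz : Tendsto z l (𝓝 c))
    (hw : Tendsto w l (𝓝 c)) (φ : X → ℝ)
    (h : ∀ i, (fun n => H d (f i) (ε n) (z n) - H d (f i) (ε n) (w n)) =O[l] φ) (i : ι) :
    (fun n => z n i - w n i) =O[l] φ := by
  set M : X → Matrix ι ι ℝ := fun n => Wm d f (ε n) (z n) (w n) with hM
  have hMt : Tendsto M l (𝓝 (Dm d f c)) := by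
    rw [← Wm_zero]
    apply tendsto_pi_nhds.2
    intro i
    apply tendsto_pi_nhds.2
    intro j
    exact W_tendsto d (f i) ε z w 0 c c hε (fun i => (tendsto_pi_nhds.1 hz) i)
      (fun i => (tendsto_pi_nhds.1 hw) i) j
  have hdt : Tendsto (fun n => (M n).det) l (𝓝 (Dm d f c).det) :=
    ((continuous_id.matrix_det).tendsto _).comp hMt
  have hadj : ∀ j, (fun n => (M n).adjugate i j) =O[l] (fun _ => (1 : ℝ)) := by
    intro j
    have h1 : Continuous fun A : Matrix ι ι ℝ => A.adjugate i j :=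
      (continuous_id.matrix_adjugate).matrix_elem i j
    exact ((h1.tendsto _).comp hMt).isBigO_one ℝ
  have h2 : ∀ n, (M n).det * (z n i - w n i) =
      ∑ j, (M n).adjugate i j * (H d (f j) (ε n) (z n) - H d (f j) (ε n) (w n)) := by
    intro n
    have h3 : (M n).adjugate.mulVec ((M n).mulVec (z n - w n)) i =
        (M n).det * (z n i - w n i) := by
      rw [Matrix.mulVec_mulVec, Matrix.adjugate_mul, Matrix.smul_mulVec, Matrix.one_mulVec]
      rfl
    rw [← h3, hM, ← Wm_spec]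
    rfl
  have h3 : (fun n => (M n).det * (z n i - w n i)) =O[l] φ := by
    simp_rw [h2]
    apply IsBigO.fun_sum
    intro j _
    simpa using (hadj j).mul (h j)
  have h4 : (fun n => ((M n).det)⁻¹) =O[l] (fun _ => (1 : ℝ)) :=
    (hdt.inv₀ hdet).isBigO_one ℝ
  have h5 := h4.mul h3
  simp only [one_mul] at h5
  refine h5.congr' ?_ EventuallyEq.rfl
  have h6 : ∀ᶠ n in l, (M n).det ≠ 0 := hdt.eventually_ne hdet
  filter_upwards [h6] with n hn
  rw [← mul_assoc, inv_mul_cancel₀ hn, one_mul]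

omit [Fintype ι] [DecidableEq ι] in
lemma H_tendsto {l : Filter X} (m : ℕ) (g : MvPolynomial ι ℤ) (ε : X → ℝ) (z : X → ι → ℝ)
    (ε0 : ℝ) (c : ι → ℝ) (hε : Tendsto ε l (𝓝 ε0)) (hz : Tendsto z l (𝓝 c)) :
    Tendsto (fun n => H m g (ε n) (z n)) l (𝓝 (H m g ε0 c)) := by
  unfold H
  apply tendsto_finsetSum
  intro j _
  apply (hε.pow _).mul
  have h1 : Continuous fun y : ι → ℝ => aeval y (homogeneousComponent j g) := by
    simp_rw [aeval_def, eval₂_eq_eval_map]
    exact MvPolynomial.continuous_eval _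
  exact (h1.tendsto _).comp hz

omit [DecidableEq ι] in
/-- Preimages of convergent sequences under a regular system converge. -/
lemma lim_step (U : Ultrafilter X) (d : ℕ) (hd : d ≠ 0) (f : ι → MvPolynomial ι ℤ)
    (hreg : ∀ z : ι → ℝ, (∀ i, aeval z (homogeneousComponent d (f i)) = 0) → z = 0)
    (ε : X → ℝ) (hε : Tendsto ε U (𝓝 0)) (z : X → ι → ℝ) (b : ι → ℝ)
    (h : ∀ i, Tendsto (fun n => H d (f i) (ε n) (z n)) U (𝓝 (b i))) :
    ∃ y : ι → ℝ, Tendsto z U (𝓝 y) ∧ ∀ i, aeval y (homogeneousComponent d (f i)) = b i := by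
  have hb : ∃ C : ℝ, ∀ᶠ n in U, ‖z n‖ ≤ C := by
    by_contra hno
    push Not at hno
    have h1 : ∀ C : ℝ, ∀ᶠ n in U, C < ‖z n‖ := hno
    have h2 : Tendsto (fun n => ‖z n‖) U atTop := by
      rw [tendsto_atTop]
      intro C
      filter_upwards [h1 C] with n hn
      exact hn.le
    set u : X → ι → ℝ := fun n i => ‖z n‖⁻¹ * z n i with hu
    have hun : ∀ᶠ n in U, ‖u n‖ = 1 := by
      filter_upwards [h1 0] with n hn
      have h3 : u n = ‖z n‖⁻¹ • z n := rfl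
      rw [h3, norm_smul, norm_inv, norm_norm, inv_mul_cancel₀ hn.ne']
    obtain ⟨y, hy⟩ := uf_lim U u 1 (hun.mono fun n hn => hn.le)
    have hy1 : ‖y‖ = 1 := by
      have h3 := hy.norm
      have h4 : Tendsto (fun n => ‖u n‖) U (𝓝 1) := by
        apply Tendsto.congr' _ tendsto_const_nhds
        filter_upwards [hun] with n hn
        exact hn.symm
      exact tendsto_nhds_unique h3 h4
    have hinv : Tendsto (fun n => ‖z n‖⁻¹) U (𝓝 0) := tendsto_inv_atTop_zero.comp h2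
    have hy0 : y = 0 := by
      apply hreg
      intro i
      have h3 := H_tendsto d (f i) (fun n => ‖z n‖⁻¹ * ε n) u 0 y (by simpa using hinv.mul hε) hy
      rw [H_zero] at h3
      have h4 : (fun n => H d (f i) (‖z n‖⁻¹ * ε n) (u n)) =
          fun n => ‖z n‖⁻¹ ^ d * H d (f i) (ε n) (z n) := by
        funext n
        exact H_scale _ _ _ _ _
      rw [h4] at h3
      have h5 : Tendsto (fun n => ‖z n‖⁻¹ ^ d * H d (f i) (ε n) (z n)) U (𝓝 0) := by
        have := (hinv.pow d).mul (h i)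
        rwa [zero_pow hd, zero_mul] at this
      exact tendsto_nhds_unique h3 h5
    rw [hy0, norm_zero] at hy1
    exact zero_ne_one hy1
  obtain ⟨C, hC⟩ := hb
  obtain ⟨y, hy⟩ := uf_lim U z C hC
  refine ⟨y, hy, fun i => ?_⟩
  have h3 := H_tendsto d (f i) ε z 0 y hε hy
  rw [H_zero] at h3
  exact tendsto_nhds_unique h3 (h i)

end Pool.Agent.R847.SG
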