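import Mathlib
import Pool.Agent.R847.SG.Rate
import Pool.Agent.R847.HG.Ht

/-!
# Integrality over the leading forms
-/

set_option autoImplicit false

open MvPolynomial Filter Topology Asymptotics

namespace Pool.Agent.R847.SG

variable {N : ℕ}

/-- the leading forms with rational coefficients -/
noncomputable def FQ (d : ℕ) (f : Fin (N + 1) → MvPolynomial (Fin (N + 1)) ℤ) :
    Fin (N + 1) → MvPolynomial (Fin (N + 1)) ℚ :=
  fun i => map (Int.castRingHom ℚ) (homogeneousComponent d (f i))

lemma aeval_FQ {A : Type} [CommRing A] [Algebra ℚ A] (d : ℕ)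
    (f : Fin (N + 1) → MvPolynomial (Fin (N + 1)) ℤ) (z : Fin (N + 1) → A) (i : Fin (N + 1)) :
    aeval z (FQ d f i) = aeval z (homogeneousComponent d (f i)) := by
  unfold FQ
  rw [aeval_def, eval₂_map, aeval_def]
  congr 1
  exact RingHom.ext_int _ _

lemma mon_mem (d M : ℕ) (hd : d ≠ 0) (F : Fin (N + 1) → MvPolynomial (Fin (N + 1)) ℚ)
    (q : Fin (N + 1) × Fin (N + 1) → MvPolynomial (Fin (N + 1)) ℚ)
    (hq : ∀ a, (q a).IsHomogeneous M) (h : ∀ k, ∑ j, q (k, j) * F j = X k ^ (M + d))
    (n : ℕ) : ∀ m : Fin (N + 1) →₀ ℕ, ∑ i, m i = n →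
    monomial m (1 : ℚ) ∈ Submodule.span (aeval F : _ →ₐ[ℚ] MvPolynomial (Fin (N + 1)) ℚ).range
      ((fun m => monomial m (1 : ℚ)) '' {m : Fin (N + 1) →₀ ℕ | ∀ i, m i < M + d}) := by
  classical
  set B := (aeval F : _ →ₐ[ℚ] MvPolynomial (Fin (N + 1)) ℚ).range with hB
  set S := Submodule.span B
    ((fun m => monomial m (1 : ℚ)) '' {m : Fin (N + 1) →₀ ℕ | ∀ i, m i < M + d}) with hS
  have hsm : ∀ (a : ℚ) (g : MvPolynomial (Fin (N + 1)) ℚ), g ∈ S → a • g ∈ S := by
    intro a g hg
    have : a • g = (algebraMap ℚ B a) • g := by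
      rw [algebraMap_smul]
    rw [this]
    exact S.smul_mem _ hg
  induction n using Nat.strong_induction_on with
  | _ n ih =>
    intro m hm
    by_cases hbox : ∀ i, m i < M + d
    · exact Submodule.subset_span ⟨m, hbox, rfl⟩
    · push Not at hbox
      obtain ⟨k, hk⟩ := hbox
      set m' : Fin (N + 1) →₀ ℕ := m - Finsupp.single k (M + d) with hm'
      have hmm : m = Finsupp.single k (M + d) + m' := by
        rw [hm', add_tsub_cancel_of_le]
        exact Finsupp.single_le_iff.2 hk
      have hsum : ∑ i, m i = (M + d) + ∑ i, m' i := by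
        conv_lhs => rw [hmm]
        simp [Finset.sum_add_distrib, Finsupp.single_apply]
      have h1 : monomial m (1 : ℚ) = ∑ j, F j * (q (k, j) * monomial m' 1) := by
        have h2 : monomial m (1 : ℚ) = X k ^ (M + d) * monomial m' 1 := by
          rw [X_pow_eq_monomial, monomial_mul, one_mul, ← hmm]
        rw [h2, ← h k, Finset.sum_mul]
        refine Finset.sum_congr rfl fun j _ => ?_
        ring
      rw [h1]
      apply S.sum_mem
      intro j _
      have hFj : F j ∈ B := ⟨X j, by simp⟩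
      have h2 : F j * (q (k, j) * monomial m' 1) =
          (⟨F j, hFj⟩ : B) • (q (k, j) * monomial m' (1 : ℚ)) := rfl
      rw [h2]
      apply S.smul_mem
      set g := q (k, j) * monomial m' (1 : ℚ) with hg
      have hgh : g.IsHomogeneous (M + ∑ i, m' i) := by
        apply (hq (k, j)).mul
        apply isHomogeneous_monomial
        rw [Finsupp.degree_eq_sum]
      rw [← support_sum_monomial_coeff g]
      apply S.sum_mem
      intro e he
      have h3 : monomial e (coeff e g) = coeff e g • monomial e (1 : ℚ) := by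
        rw [smul_monomial, smul_eq_mul, mul_one]
      rw [h3]
      apply hsm
      have h4 : ∑ i, e i = M + ∑ i, m' i := by
        have := hgh (mem_support_iff.1 he)
        rw [Finsupp.weight_apply, Finsupp.sum_fintype _ _ (by simp)] at this
        simpa using this
      apply ih (M + ∑ i, m' i) (by omega) e h4

/-- Every coordinate is integral over the leading forms. -/
lemma exists_int (d : ℕ) (hd : d ≠ 0) (f : Fin (N + 1) → MvPolynomial (Fin (N + 1)) ℤ)
    (hreg : ∀ z : Fin (N + 1) → ℂ, (∀ i, aeval z (homogeneousComponent d (f i)) = 0) → z = 0)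
    (j : Fin (N + 1)) :
    ∃ (n : ℕ) (q : ℕ → MvPolynomial (Fin (N + 1)) ℚ), ∀ z : Fin (N + 1) → ℝ,
      (z j) ^ n + ∑ i ∈ Finset.range n,
        aeval (fun k => aeval z (homogeneousComponent d (f k))) (q i) * (z j) ^ i = 0 := by
  classical
  have hF : ∀ i, (FQ d f i).IsHomogeneous d := fun i =>
    (homogeneousComponent_isHomogeneous d (f i)).map _
  obtain ⟨M, q, hq, h⟩ := Pool.Agent.R847.HG.exists_cert (K := ℚ) (FQ d f) hF (by
    intro x hx
    have hσ : Nonempty (AlgebraicClosure ℚ →+* ℂ) := by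
      have h1 := AlgebraicClosure.isAlgebraic ℚ
      have : Algebra.IsAlgebraic ℚ (AlgebraicClosure ℚ) := by
        have e : (AlgebraicClosure.instAlgebra ℚ : Algebra ℚ (AlgebraicClosure ℚ)) =
            DivisionRing.toRatAlgebra := Subsingleton.elim _ _
        rw [e] at h1
        exact h1
      exact ⟨(IsAlgClosed.lift (M := ℂ) (R := ℚ) (S := AlgebraicClosure ℚ)).toRingHom⟩
    obtain ⟨σ⟩ := hσ
    have h1 := hreg (fun i => σ (x i)) fun i => by
      rw [← aeval_FQ]
      have h2 := congrArg σ (hx i)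
      rw [map_aeval, map_zero, coe_eval₂Hom] at h2
      rw [aeval_def, ← h2]
      congr 1
      exact Subsingleton.elim _ _
    funext i
    have h2 := congrFun h1 i
    exact (map_eq_zero σ).1 h2)
  set B := (aeval (FQ d f) : _ →ₐ[ℚ] MvPolynomial (Fin (N + 1)) ℚ).range with hB
  have hfin : {m : Fin (N + 1) →₀ ℕ | ∀ i, m i < M + d}.Finite := by
    apply (Set.finite_Iic (Finsupp.equivFunOnFinite.symm fun _ => M + d : Fin (N + 1) →₀ ℕ)).subset
    intro m hm
    rw [Set.mem_Iic]
    intro i
    simpa using (hm i).le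
  have hfg : Module.Finite B (MvPolynomial (Fin (N + 1)) ℚ) := by
    refine ⟨(Submodule.fg_def).2 ⟨_, hfin.image fun m => monomial m (1 : ℚ), ?_⟩⟩
    rw [eq_top_iff]
    intro g _
    rw [← support_sum_monomial_coeff g]
    apply Submodule.sum_mem
    intro e _
    have h3 : monomial e (coeff e g) = (algebraMap ℚ B (coeff e g)) • monomial e (1 : ℚ) := by
      rw [algebraMap_smul, smul_monomial, smul_eq_mul, mul_one]
    rw [h3]
    apply Submodule.smul_mem
    exact mon_mem d M hd (FQ d f) q hq h _ e rfl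
  obtain ⟨p, hp, hp0⟩ := IsIntegral.of_finite B (X j : MvPolynomial (Fin (N + 1)) ℚ)
  have hex : ∀ i, ∃ r : MvPolynomial (Fin (N + 1)) ℚ, aeval (FQ d f) r =
      (p.coeff i : MvPolynomial (Fin (N + 1)) ℚ) := fun i => (p.coeff i).2
  choose r hr using hex
  refine ⟨p.natDegree, r, fun z => ?_⟩
  rw [Polynomial.eval₂_eq_sum_range, Finset.sum_range_succ, hp.coeff_natDegree, map_one,
    one_mul] at hp0
  have h1 := congrArg (aeval z) hp0
  rw [map_zero, map_add, map_sum, map_pow, aeval_X] at h1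
  rw [← h1, add_comm]
  congr 1
  refine Finset.sum_congr rfl fun i _ => ?_
  rw [map_mul, map_pow, aeval_X]
  congr 1
  have h2 : (algebraMap B (MvPolynomial (Fin (N + 1)) ℚ)) (p.coeff i) =
      aeval (FQ d f) (r i) := (hr i).symm
  rw [h2]
  have h3 : (fun k => aeval z (homogeneousComponent d (f k))) =
      fun k => aeval z (FQ d f k) := by
    funext k
    rw [aeval_FQ]
  rw [h3]
  have := comp_aeval_apply (aeval z : MvPolynomial (Fin (N + 1)) ℚ →ₐ[ℚ] ℝ) (f := FQ d f) (r i)
  exact this.symm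

/-- the monic polynomial of a coordinate -/
noncomputable def TT (n : ℕ) (q : ℕ → MvPolynomial (Fin (N + 1)) ℚ) (w : Fin (N + 1) → ℝ) :
    Polynomial ℝ :=
  Polynomial.X ^ n + ∑ i ∈ Finset.range n, Polynomial.C (aeval w (q i)) * Polynomial.X ^ i

lemma TT_monic (n : ℕ) (q : ℕ → MvPolynomial (Fin (N + 1)) ℚ) (w : Fin (N + 1) → ℝ) :
    (TT n q w).Monic := by
  unfold TT
  apply Polynomial.monic_X_pow_add
  rw [← Fin.sum_univ_eq_sum_range fun i => Polynomial.C (aeval w (q i)) * Polynomial.X ^ i]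
  exact Polynomial.degree_sum_fin_lt _

lemma TT_eval (n : ℕ) (q : ℕ → MvPolynomial (Fin (N + 1)) ℚ) (w : Fin (N + 1) → ℝ) (t : ℝ) :
    (TT n q w).eval t = t ^ n + ∑ i ∈ Finset.range n, aeval w (q i) * t ^ i := by
  unfold TT
  rw [Polynomial.eval_add, Polynomial.eval_pow, Polynomial.eval_X, Polynomial.eval_finsetSum]
  congr 1
  refine Finset.sum_congr rfl fun i _ => ?_
  rw [Polynomial.eval_mul, Polynomial.eval_C, Polynomial.eval_pow, Polynomial.eval_X]

end Pool.Agent.R847.SG
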