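import Mathlib
import Pool.Agent.R847.SG.Int

/-!
# Power rates of convergence in preimages; algebraicity of preimages
-/

set_option autoImplicit false

open MvPolynomial Filter Topology Asymptotics

namespace Pool.Agent.R847.SG

variable {N : ℕ} {X : Type}

lemma q_lip {ι : Type} {l : Filter X} (q : MvPolynomial ι ℚ) (w : X → ι → ℝ) (b : ι → ℝ)
    (hw : ∀ i, Tendsto (fun n => w n i) l (𝓝 (b i))) (φ : X → ℝ)
    (h : ∀ i, (fun n => w n i - b i) =O[l] φ) :
    (fun n => aeval (w n) q - aeval b q) =O[l] φ := by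
  induction q using MvPolynomial.induction_on with
  | C a =>
    simp only [aeval_C, sub_self]
    exact isBigO_zero _ _
  | add p q hp hq =>
    have h1 := hp.add hq
    refine h1.congr_left fun n => ?_
    rw [map_add, map_add]
    ring
  | mul_X p j hp =>
    have h1 : (fun n => (aeval (w n) p - aeval b p) * w n j) =O[l] φ := by
      simpa using hp.mul ((hw j).isBigO_one ℝ)
    have h2 : (fun n => aeval b p * (w n j - b j)) =O[l] φ := (h j).const_mul_left _
    refine (h1.add h2).congr_left fun n => ?_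
    rw [map_mul, map_mul, aeval_X, aeval_X]
    ring

lemma H_sub_zero {ι : Type} {l : Filter X} (d : ℕ) (g : MvPolynomial ι ℤ) (ε : X → ℝ)
    (z : X → ι → ℝ) (c : ι → ℝ) (hε : Tendsto ε l (𝓝 0)) (hz : Tendsto z l (𝓝 c)) :
    (fun n => H d g (ε n) (z n) - aeval (z n) (homogeneousComponent d g)) =O[l] ε := by
  have h1 : (fun n => H d g (ε n) (z n) - aeval (z n) (homogeneousComponent d g)) =
      fun n => ∑ j ∈ Finset.range d, ε n ^ (d - j) * aeval (z n) (homogeneousComponent j g) := by
    funext n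
    unfold H
    rw [Finset.sum_range_succ, Nat.sub_self, pow_zero, one_mul, add_sub_cancel_right]
  rw [h1]
  apply IsBigO.fun_sum
  intro j hj
  rw [Finset.mem_range] at hj
  have h2 : Continuous fun y : ι → ℝ => aeval y (homogeneousComponent j g) := by
    simp_rw [aeval_def, eval₂_eq_eval_map]
    exact MvPolynomial.continuous_eval _
  have h3 := ((h2.tendsto _).comp hz).isBigO_one ℝ
  have h4 := ((hε.pow (d - j - 1)).isBigO_one ℝ)
  have h5 := ((isBigO_refl ε l).mul h4).mul h3
  simp only [mul_one] at h5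
  refine h5.congr_left fun n => ?_
  have h6 : ε n ^ (d - j) = ε n * ε n ^ (d - j - 1) := by
    rw [← pow_succ']
    congr 1
    omega
  rw [h6]
  rfl

/-- Power rate in the preimage. -/
lemma weak_rate (U : Ultrafilter X) (d : ℕ) (hd : d ≠ 0)
    (f : Fin (N + 1) → MvPolynomial (Fin (N + 1)) ℤ)
    (hreg : ∀ z : Fin (N + 1) → ℂ, (∀ i, aeval z (homogeneousComponent d (f i)) = 0) → z = 0)
    (s : X → ℝ) (hs : Tendsto s U atTop) (z : X → Fin (N + 1) → ℝ) (y b : Fin (N + 1) → ℝ)
    (hz : Tendsto z U (𝓝 y)) (hy : ∀ i, aeval y (homogeneousComponent d (f i)) = b i)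
    (ρ : ℝ) (hρ : 0 < ρ)
    (h : ∀ i, (fun n => H d (f i) (s n)⁻¹ (z n) - b i) =O[(U : Filter X)] fun n => (s n) ^ (-ρ)) :
    ∃ ρ' : ℝ, 0 < ρ' ∧
      ∀ i, (fun n => z n i - y i) =O[(U : Filter X)] fun n => (s n) ^ (-ρ') := by
  set ρ0 := min ρ 1 with hρ0
  have hρ0' : 0 < ρ0 := lt_min hρ one_pos
  have hε : Tendsto (fun n => (s n)⁻¹) U (𝓝 0) := tendsto_inv_atTop_zero.comp hs
  have hmono : ∀ a b : ℝ, a ≤ b → (fun n => (s n) ^ (-b)) =O[(U : Filter X)]
      fun n => (s n) ^ (-a) := by
    intro a b hab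
    apply IsBigO.of_bound 1
    filter_upwards [hs.eventually_ge_atTop 1] with n hn
    rw [one_mul, Real.norm_of_nonneg (Real.rpow_nonneg (by linarith) _),
      Real.norm_of_nonneg (Real.rpow_nonneg (by linarith) _)]
    exact Real.rpow_le_rpow_of_exponent_le hn (by linarith)
  have hinv : (fun n => (s n)⁻¹) =O[(U : Filter X)] fun n => (s n) ^ (-ρ0) := by
    have h1 := hmono ρ0 1 (min_le_right _ _)
    refine h1.congr_left fun n => ?_
    rw [Real.rpow_neg_one]
  set w : X → Fin (N + 1) → ℝ := fun n i => aeval (z n) (homogeneousComponent d (f i)) with hw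
  have hwb : ∀ i, (fun n => w n i - b i) =O[(U : Filter X)] fun n => (s n) ^ (-ρ0) := by
    intro i
    have h1 := (H_sub_zero d (f i) _ z y hε hz).trans hinv
    have h2 := (h i).trans (hmono ρ0 ρ (min_le_left _ _))
    refine (h2.sub h1).congr_left fun n => ?_
    ring
  have hwt : ∀ i, Tendsto (fun n => w n i) U (𝓝 (b i)) := by
    intro i
    rw [← hy i]
    have h2 : Continuous fun y : Fin (N + 1) → ℝ => aeval y (homogeneousComponent d (f i)) := by
      simp_rw [aeval_def, eval₂_eq_eval_map]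
      exact MvPolynomial.continuous_eval _
    exact (h2.tendsto _).comp hz
  have key : ∀ j, ∃ ρ' : ℝ, 0 < ρ' ∧
      (fun n => z n j - y j) =O[(U : Filter X)] fun n => (s n) ^ (-ρ') := by
    intro j
    obtain ⟨n0, q, hq⟩ := exists_int d hd f hreg j
    have hzj : Tendsto (fun n => z n j) U (𝓝 (y j)) := tendsto_pi_nhds.1 hz j
    apply root_rate U s hs (TT n0 q b) (TT_monic n0 q b).ne_zero _ _ hzj ρ0 hρ0'
    have h1 : (fun n => (TT n0 q b).eval (z n j)) =
        fun n => ∑ i ∈ Finset.range n0, -((aeval (w n) (q i) - aeval b (q i)) * z n j ^ i) := by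
      funext n
      have h2 := hq (z n)
      rw [TT_eval]
      rw [← sub_zero (z n j ^ n0 + _), ← h2, add_sub_add_left_eq_sub, ← Finset.sum_sub_distrib]
      refine Finset.sum_congr rfl fun i _ => ?_
      ring
    rw [h1]
    apply IsBigO.fun_sum
    intro i _
    have h2 := (q_lip (q i) w b hwt _ hwb).mul ((hzj.pow i).isBigO_one ℝ)
    simp only [mul_one] at h2
    exact h2.neg_left
  choose ρ' hρ' hkey using key
  refine ⟨Finset.univ.inf' Finset.univ_nonempty ρ', ?_, fun i => ?_⟩
  · rw [Finset.lt_inf'_iff]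
    intro i _
    exact hρ' i
  · exact (hkey i).trans (hmono _ _ (Finset.inf'_le _ (Finset.mem_univ i)))

/-- Preimages of algebraic points are algebraic. -/
lemma alg_of (d : ℕ) (hd : d ≠ 0) (f : Fin (N + 1) → MvPolynomial (Fin (N + 1)) ℤ)
    (hreg : ∀ z : Fin (N + 1) → ℂ, (∀ i, aeval z (homogeneousComponent d (f i)) = 0) → z = 0)
    (y b : Fin (N + 1) → ℝ) (hy : ∀ i, aeval y (homogeneousComponent d (f i)) = b i)
    (hb : ∀ i, IsAlgebraic ℚ (b i)) (j : Fin (N + 1)) : IsAlgebraic ℚ (y j) := by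
  obtain ⟨n0, q, hq⟩ := exists_int d hd f hreg j
  have h1 := hq y
  have h2 : (fun k => aeval y (homogeneousComponent d (f k))) = b := funext hy
  rw [h2] at h1
  set E := algebraicClosure ℚ ℝ with hE
  have hq' : ∀ i, aeval b (q i) ∈ E := by
    intro i
    have h3 : ∀ k, b k ∈ E := fun k => mem_algebraicClosure_iff.2 (hb k)
    have h4 : aeval b (q i) = algebraMap E ℝ (aeval (fun k => (⟨b k, h3 k⟩ : E)) (q i)) := by
      rw [← aeval_algebraMap_apply]
      rfl
    rw [h4]
    exact (aeval (fun k => (⟨b k, h3 k⟩ : E)) (q i)).2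
  set p : Polynomial E := Polynomial.X ^ n0 + ∑ i : Fin n0,
    Polynomial.C (⟨aeval b (q i), hq' i⟩ : E) * Polynomial.X ^ (i : ℕ) with hp
  have hpm : p.Monic := by
    apply Polynomial.monic_X_pow_add
    exact Polynomial.degree_sum_fin_lt _
  have hint : IsIntegral E (y j) := by
    refine ⟨p, hpm, ?_⟩
    rw [← Polynomial.aeval_def, hp, map_add, map_pow, Polynomial.aeval_X, map_sum]
    rw [← h1]
    congr 1
    rw [← Fin.sum_univ_eq_sum_range fun i => aeval b (q i) * y j ^ i]
    refine Finset.sum_congr rfl fun i _ => ?_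
    rw [map_mul, map_pow, Polynomial.aeval_X, Polynomial.aeval_C]
    rfl
  have h5 : y j ∈ algebraicClosure E ℝ := mem_algebraicClosure_iff.2 hint.isAlgebraic
  rw [hE, algebraicClosure.algebraicClosure_eq_bot, IntermediateField.mem_bot] at h5
  obtain ⟨e, he⟩ := h5
  rw [← he]
  exact mem_algebraicClosure_iff.1 e.2

end Pool.Agent.R847.SG
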