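import Mathlib
import Pool.Agent.R847.SG.Step

/-!
# The tower of the scaled predecessors of an orbit along an ultrafilter
-/

set_option autoImplicit false

open MvPolynomial Filter Topology Asymptotics

namespace Pool.Agent.R847.SG

variable {N : ℕ}

/-- scaled predecessors of the points of an integral orbit -/
structure Tower (d : ℕ) (f : Fin (N + 1) → MvPolynomial (Fin (N + 1)) ℤ) (U : Ultrafilter ℕ) where
  p : ℕ → ℕ → Fin (N + 1) → ℤ
  S : ℕ → ℕ → ℝ
  z : ℕ → ℕ → Fin (N + 1) → ℝ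
  y : ℕ → Fin (N + 1) → ℝ
  hS : ∀ k, Tendsto (S k) U atTop
  hSd : ∀ k, ∀ᶠ n in U, S (k + 1) n ^ d = S k n
  hp : ∀ k, ∀ᶠ n in U, ∀ i, (p k n i : ℝ) = S k n * z k n i
  hf : ∀ k, ∀ᶠ n in U, ∀ i, aeval (p (k + 1) n) (f i) = p k n i
  hz : ∀ k, Tendsto (z k) U (𝓝 (y k))
  hy : ∀ k i, aeval (y (k + 1)) (homogeneousComponent d (f i)) = y k i
  hy0 : ∀ k, y k ≠ 0
  halg : ∀ k i, IsAlgebraic ℚ (y k i)
  hrate : ∀ k, ∃ ρ : ℝ, 0 < ρ ∧
    ∀ i, (fun n => z k n i - y k i) =O[(U : Filter ℕ)] fun n => (S k n) ^ (-ρ)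

lemma map_aevalZ {ι A B : Type} [CommRing A] [CommRing B] (φ : A →+* B) (w : ι → A)
    (g : MvPolynomial ι ℤ) : φ (aeval w g) = aeval (fun i => φ (w i)) g := by
  rw [map_aeval, coe_eval₂Hom, aeval_def]
  congr 1
  exact RingHom.ext_int _ _

/-- a homogeneous polynomial in two variables does not vanish on a vertical line -/
lemma line_ne_zero (P : MvPolynomial (Fin 2) ℤ) (e : ℕ) (hP : P.IsHomogeneous e) (hP0 : P ≠ 0)
    (σ : ℤ) (hσ : σ ≠ 0) :
    aeval ![(Polynomial.C σ : Polynomial ℤ), Polynomial.X] P ≠ 0 := by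
  classical
  obtain ⟨κ, hκ⟩ := MvPolynomial.support_nonempty.2 hP0
  intro h0
  have hdeg : ∀ τ ∈ P.support, τ 0 + τ 1 = e := by
    intro τ hτ
    have := hP (mem_support_iff.1 hτ)
    rw [Finsupp.weight_apply, Finsupp.sum_fintype _ _ (by simp), Fin.sum_univ_two] at this
    simpa using this
  have h1 := congrArg (fun T => Polynomial.coeff T (κ 1)) h0
  simp only [Polynomial.coeff_zero] at h1
  rw [aeval_def, eval₂_eq', Polynomial.finsetSum_coeff, Finset.sum_eq_single κ] at h1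
  · rw [Fin.prod_univ_two] at h1
    simp only [Matrix.cons_val_zero, Matrix.cons_val_one] at h1
    rw [← mul_assoc, ← Polynomial.C_pow] at h1
    have h2 : (algebraMap ℤ (Polynomial ℤ)) (coeff κ P) = Polynomial.C (coeff κ P) := rfl
    rw [h2, ← Polynomial.C_mul, Polynomial.coeff_C_mul, Polynomial.coeff_X_pow_self,
      mul_one] at h1
    exact mul_ne_zero (mem_support_iff.1 hκ) (pow_ne_zero _ hσ) h1
  · intro τ hτ hne
    rw [Fin.prod_univ_two]
    simp only [Matrix.cons_val_zero, Matrix.cons_val_one]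
    rw [← mul_assoc, ← Polynomial.C_pow]
    have h2 : (algebraMap ℤ (Polynomial ℤ)) (coeff τ P) = Polynomial.C (coeff τ P) := rfl
    rw [h2, ← Polynomial.C_mul, Polynomial.coeff_C_mul, Polynomial.coeff_X_pow, if_neg, mul_zero]
    intro h3
    apply hne
    have h4 := hdeg τ hτ
    have h5 := hdeg κ hκ
    ext i
    fin_cases i
    · show τ 0 = κ 0
      omega
    · exact h3.symm
  · intro h
    exact absurd hκ h

/-- The rate at the base of the tower. -/
lemma base_rate (U : Ultrafilter ℕ) (s : ℕ → ℝ) (hs : Tendsto s U atTop) (P : MvPolynomial (Fin 2) ℤ)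
    (hP : P ≠ 0) (σ : ℤ) (hσ : σ ≠ 0) (z : ℕ → ℝ) (c : ℝ) (hz : Tendsto z U (𝓝 c))
    (h : ∀ᶠ n in U, aeval ![s n * (σ : ℝ), s n * z n] P = 0) :
    IsAlgebraic ℚ c ∧
      ∃ ρ : ℝ, 0 < ρ ∧ (fun n => z n - c) =O[(U : Filter ℕ)] fun n => (s n) ^ (-ρ) := by
  set e := P.totalDegree with he
  set Q := homogeneousComponent e P with hQ
  have hQ0 : Q ≠ 0 := by
    intro h0
    obtain ⟨κ, hκ, hκe⟩ := P.support.exists_mem_eq_sup (MvPolynomial.support_nonempty.2 hP)
      (fun κ => κ.sum fun _ e => e)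
    have h1 : coeff κ Q = coeff κ P := by
      rw [hQ, coeff_homogeneousComponent, if_pos]
      rw [he, totalDegree, hκe, Finsupp.degree_eq_sum, Finsupp.sum_fintype _ _ (by simp)]
    rw [h0, coeff_zero] at h1
    exact (mem_support_iff.1 hκ) h1.symm
  set T' := aeval ![(Polynomial.C σ : Polynomial ℤ), Polynomial.X] Q with hT'
  have hT'0 : T' ≠ 0 := line_ne_zero Q e (homogeneousComponent_isHomogeneous e P) hQ0 σ hσ
  set T : Polynomial ℝ := T'.map (Int.castRingHom ℝ) with hT
  have hT0 : T ≠ 0 := (Polynomial.map_ne_zero_iff (RingHom.injective_int _)).2 hT'0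
  have hTe : ∀ t : ℝ, T.eval t = aeval ![(σ : ℝ), t] Q := by
    intro t
    have h1 : T.eval t = Polynomial.eval₂RingHom (Int.castRingHom ℝ) t T' := by
      rw [hT, Polynomial.eval_map]
      rfl
    rw [h1, hT', map_aeval, aeval_def, coe_eval₂Hom]
    have h2 : (fun i => Polynomial.eval₂RingHom (Int.castRingHom ℝ) t
        ((![(Polynomial.C σ : Polynomial ℤ), Polynomial.X] : Fin 2 → Polynomial ℤ) i)) =
        ![(σ : ℝ), t] := by
      funext i
      fin_cases i
      · simp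
      · simp
    rw [h2]
    congr 1
    exact RingHom.ext_int _ _
  have hε : Tendsto (fun n => (s n)⁻¹) U (𝓝 0) := tendsto_inv_atTop_zero.comp hs
  have hzt : Tendsto (fun n => (![(σ : ℝ), z n] : Fin 2 → ℝ)) U (𝓝 ![(σ : ℝ), c]) := by
    rw [tendsto_pi_nhds]
    intro i
    fin_cases i
    · simp
    · simpa using hz
  have h1 := H_sub_zero e P _ _ _ hε hzt
  have h2 : (fun n => T.eval (z n)) =O[(U : Filter ℕ)] fun n => (s n) ^ (-(1 : ℝ)) := by
    have h3 : (fun n => -(H e P (s n)⁻¹ ![(σ : ℝ), z n] - aeval ![(σ : ℝ), z n] Q))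
        =O[(U : Filter ℕ)] fun n => (s n)⁻¹ := h1.neg_left
    refine (h3.congr' ?_ ?_)
    · filter_upwards [h, hs.eventually_gt_atTop 0] with n hn hsn
      have h4 := H_eval e P le_rfl (s n)⁻¹ (s n) (mul_inv_cancel₀ hsn.ne') ![(σ : ℝ), z n]
      have h5 : (fun i => s n * (![(σ : ℝ), z n] : Fin 2 → ℝ) i) =
          ![s n * (σ : ℝ), s n * z n] := by
        funext i
        fin_cases i <;> rfl
      rw [h5, hn] at h4
      have h6 := (mul_eq_zero.1 h4).resolve_left (pow_ne_zero _ hsn.ne')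
      rw [h6, hTe]
      ring
    · filter_upwards with n
      rw [Real.rpow_neg_one]
  have hTc : T.eval c = 0 := by
    have h3 : Tendsto (fun n => T.eval (z n)) U (𝓝 (T.eval c)) := (T.continuous.tendsto c).comp hz
    have h4 : Tendsto (fun n => T.eval (z n)) U (𝓝 0) :=
      h2.trans_tendsto ((tendsto_rpow_neg_atTop one_pos).comp hs)
    exact tendsto_nhds_unique h3 h4
  refine ⟨?_, root_rate U s hs T hT0 z c hz 1 one_pos h2⟩
  refine ⟨T'.map (Int.castRingHom ℚ),
    (Polynomial.map_ne_zero_iff (RingHom.injective_int _)).2 hT'0, ?_⟩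
  rw [Polynomial.aeval_def, Polynomial.eval₂_map]
  rw [hT, Polynomial.eval_map] at hTc
  rw [← hTc]
  congr 1

/-- Construction of the tower. -/
lemma exists_tower (d : ℕ) (hd : 2 ≤ d) (f : Fin (N + 1) → MvPolynomial (Fin (N + 1)) ℤ)
    (hdeg : ∀ i, (f i).totalDegree ≤ d)
    (hreg : ∀ z : Fin (N + 1) → ℂ, (∀ i, aeval z (homogeneousComponent d (f i)) = 0) → z = 0)
    (x : ℕ → Fin (N + 1) → ℤ) (hx : ∀ n i, x (n + 1) i = aeval (x n) (f i))
    (hinj : Function.Injective x) (U : Ultrafilter ℕ) (hU : (U : Filter ℕ) ≤ atTop)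
    (hpair : ∀ i j, ∃ P : MvPolynomial (Fin 2) ℤ, P ≠ 0 ∧
      ∀ᶠ n in U, aeval ![x n i, x n j] P = 0) :
    ∃ T : Tower d f U, ∀ k n, T.p k n = x (n - k) := by
  classical
  set s : ℕ → ℝ := fun n => ‖fun i => (x n i : ℝ)‖ with hs
  have hs0 : ∀ n, 0 ≤ s n := fun n => norm_nonneg _
  -- the norms tend to infinity
  have hst : Tendsto s U atTop := by
    rw [tendsto_atTop]
    intro C
    have h1 : {n | ¬ C ≤ s n}.Finite := by
      have h2 : (Set.univ.pi fun _ : Fin (N + 1) => {a : ℤ | |(a : ℝ)| ≤ C}).Finite := by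
        apply Set.Finite.pi
        intro i
        apply (Set.finite_Icc (-⌈C⌉) ⌈C⌉).subset
        intro a ha
        have ha1 : |(a : ℝ)| ≤ C := ha
        have ha2 := (abs_le.1 ha1)
        have h3 := Int.le_ceil C
        constructor
        · have : (-(⌈C⌉ : ℤ) : ℝ) ≤ a := by linarith [ha2.1]
          exact_mod_cast this
        · have : (a : ℝ) ≤ (⌈C⌉ : ℤ) := by linarith [ha2.2]
          exact_mod_cast this
      refine Set.Finite.subset (Set.Finite.preimage (hinj.injOn) h2) ?_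
      intro n hn
      rw [Set.mem_ofPred_eq, not_le] at hn
      rw [Set.mem_preimage]
      intro i _
      have h3 := norm_le_pi_norm (fun i => (x n i : ℝ)) i
      rw [Real.norm_eq_abs] at h3
      exact h3.trans hn.le
    have h2 : ∀ᶠ n in atTop, n ∉ {n | ¬ C ≤ s n} := by
      have := h1.compl_mem_cofinite
      rw [Nat.cofinite_eq_atTop] at this
      exact this
    exact hU (h2.mono fun n hn => not_not.1 hn)
  set S : ℕ → ℕ → ℝ := fun k n => (s n) ^ (((d : ℝ) ^ k)⁻¹) with hS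
  have hd0 : (0 : ℝ) < d := by exact_mod_cast (by omega : 0 < d)
  have hSt : ∀ k, Tendsto (S k) U atTop := by
    intro k
    exact (tendsto_rpow_atTop (by positivity)).comp hst
  have hSd : ∀ k n, S (k + 1) n ^ d = S k n := by
    intro k n
    rw [hS]
    simp only
    rw [← Real.rpow_natCast, ← Real.rpow_mul (hs0 n)]
    congr 1
    rw [pow_succ]
    field_simp
  set z : ℕ → ℕ → Fin (N + 1) → ℝ := fun k n i => (x (n - k) i : ℝ) / S k n with hz
  have hSpos : ∀ k, ∀ᶠ n in U, 0 < S k n := fun k => (hSt k).eventually_gt_atTop 0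
  have hp : ∀ k, ∀ᶠ n in U, ∀ i, (x (n - k) i : ℝ) = S k n * z k n i := by
    intro k
    filter_upwards [hSpos k] with n hn i
    rw [hz]
    simp only
    field_simp
  have hf : ∀ k, ∀ᶠ n in U, ∀ i, aeval (x (n - (k + 1))) (f i) = x (n - k) i := by
    intro k
    have h1 : ∀ᶠ n in U, k + 1 ≤ n := hU (eventually_ge_atTop (k + 1))
    filter_upwards [h1] with n hn i
    rw [← hx]
    congr 2
    omega
  have hcast : ∀ (w : Fin (N + 1) → ℤ) (g : MvPolynomial (Fin (N + 1)) ℤ),
      ((aeval w g : ℤ) : ℝ) = aeval (fun i => (w i : ℝ)) g := by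
    intro w g
    exact map_aevalZ (Int.castRingHom ℝ) w g
  -- the recursion of the scaled points
  have hH : ∀ k i, ∀ᶠ n in U, H d (f i) (S (k + 1) n)⁻¹ (z (k + 1) n) = z k n i := by
    intro k i
    filter_upwards [hf k, hp (k + 1), hp k, hSpos k, hSpos (k + 1)] with n h1 h2 h3 h4 h5
    have h6 := H_eval d (f i) (hdeg i) (S (k + 1) n)⁻¹ (S (k + 1) n) (mul_inv_cancel₀ h5.ne')
      (z (k + 1) n)
    have h7 : (fun i => S (k + 1) n * z (k + 1) n i) = fun i => (x (n - (k + 1)) i : ℝ) := by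
      funext i
      rw [h2 i]
    rw [h7, ← hcast, h1 i, hSd, h3 i] at h6
    exact mul_left_cancel₀ h4.ne' h6
  have hregR : ∀ z : Fin (N + 1) → ℝ,
      (∀ i, aeval z (homogeneousComponent d (f i)) = 0) → z = 0 := by
    intro w hw
    have h1 := hreg (fun i => (w i : ℂ)) fun i => by
      have h2 := congrArg (Complex.ofRealHom) (hw i)
      rw [map_aevalZ, map_zero] at h2
      exact h2
    funext i
    have h2 := congrFun h1 i
    simpa using h2
  have hε : ∀ k, Tendsto (fun n => (S k n)⁻¹) U (𝓝 0) := fun k =>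
    tendsto_inv_atTop_zero.comp (hSt k)
  -- the base
  have hz0 : ∀ᶠ n in U, ‖z 0 n‖ = 1 := by
    filter_upwards [hSpos 0] with n hn
    have h1 : z 0 n = (S 0 n)⁻¹ • fun i => (x n i : ℝ) := by
      funext i
      rw [hz]
      simp only [Pi.smul_apply, smul_eq_mul, Nat.sub_zero]
      rw [div_eq_inv_mul]
    have h2 : S 0 n = s n := by
      rw [hS]
      simp
    rw [h1, norm_smul, norm_inv, Real.norm_of_nonneg hn.le, h2]
    rw [h2] at hn
    exact inv_mul_cancel₀ hn.ne'
  obtain ⟨y0, hy0⟩ := uf_lim U (z 0) 1 (hz0.mono fun n hn => hn.le)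
  have hy0n : ‖y0‖ = 1 := by
    have h3 := hy0.norm
    have h4 : Tendsto (fun n => ‖z 0 n‖) U (𝓝 1) := by
      apply Tendsto.congr' _ tendsto_const_nhds
      filter_upwards [hz0] with n hn
      exact hn.symm
    exact tendsto_nhds_unique h3 h4
  have hy00 : y0 ≠ 0 := by
    rintro rfl
    rw [norm_zero] at hy0n
    exact zero_ne_one hy0n
  have hidx : ∃ q : Fin (N + 1) × Bool, ∀ᶠ n in U, z 0 n q.1 = ((if q.2 then 1 else -1 : ℤ) : ℝ) := by
    apply uf_choice U (fun (q : Fin (N + 1) × Bool) n =>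
      z 0 n q.1 = ((if q.2 then 1 else -1 : ℤ) : ℝ))
    filter_upwards [hz0] with n hn
    obtain ⟨i, hi⟩ : ∃ i, ‖z 0 n i‖ = ‖z 0 n‖ := by
      obtain ⟨i, _, hi⟩ := Finset.exists_mem_eq_sup' Finset.univ_nonempty (fun i => ‖z 0 n i‖₊)
      refine ⟨i, ?_⟩
      rw [Pi.norm_def]
      rw [← Finset.sup'_eq_sup Finset.univ_nonempty, hi]
      rfl
    rw [hn, Real.norm_eq_abs] at hi
    rcases eq_or_eq_neg_of_abs_eq hi with h1 | h1
    · exact ⟨(i, true), by simpa using h1⟩
    · exact ⟨(i, false), by simpa using h1⟩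
  obtain ⟨⟨i0, bb⟩, hi0⟩ := hidx
  simp only at hi0
  set σ : ℤ := if bb then 1 else -1 with hσ
  have hσ0 : σ ≠ 0 := by
    rw [hσ]
    split_ifs <;> norm_num
  have hbase : ∀ j, IsAlgebraic ℚ (y0 j) ∧ ∃ ρ : ℝ, 0 < ρ ∧
      (fun n => z 0 n j - y0 j) =O[(U : Filter ℕ)] fun n => (S 0 n) ^ (-ρ) := by
    intro j
    obtain ⟨P, hP, hPn⟩ := hpair i0 j
    apply base_rate U (S 0) (hSt 0) P hP σ hσ0 _ _ (tendsto_pi_nhds.1 hy0 j)
    filter_upwards [hPn, hi0, hp 0] with n h1 h2 h3
    have h4 := congrArg (Int.castRingHom ℝ) h1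
    rw [map_aevalZ, map_zero] at h4
    rw [← h4, ← h2]
    have h5 : (![S 0 n * z 0 n i0, S 0 n * z 0 n j] : Fin 2 → ℝ) =
        fun i => Int.castRingHom ℝ ((![x n i0, x n j] : Fin 2 → ℤ) i) := by
      funext i
      fin_cases i
      · simpa using (h3 i0).symm
      · simpa using (h3 j).symm
    rw [h5]
  -- the limits
  have hlim : ∀ k, ∀ b : Fin (N + 1) → ℝ, Tendsto (z k) U (𝓝 b) →
      ∃ y : Fin (N + 1) → ℝ, Tendsto (z (k + 1)) U (𝓝 y) ∧
        ∀ i, aeval y (homogeneousComponent d (f i)) = b i := by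
    intro k b hb
    apply lim_step U d (by omega) f hregR _ (hε (k + 1)) (z (k + 1)) b
    intro i
    refine Tendsto.congr' ?_ (tendsto_pi_nhds.1 hb i)
    filter_upwards [hH k i] with n hn
    exact hn.symm
  have hex : ∀ k, ∃ y : Fin (N + 1) → ℝ, Tendsto (z k) U (𝓝 y) := by
    intro k
    induction k with
    | zero => exact ⟨y0, hy0⟩
    | succ k ih =>
      obtain ⟨b, hb⟩ := ih
      obtain ⟨y, hy, _⟩ := hlim k b hb
      exact ⟨y, hy⟩
  choose y hy using hex
  have hyy : ∀ k i, aeval (y (k + 1)) (homogeneousComponent d (f i)) = y k i := by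
    intro k i
    obtain ⟨y', hy', h1⟩ := hlim k (y k) (hy k)
    rw [tendsto_nhds_unique (hy (k + 1)) hy']
    exact h1 i
  have hyz : y 0 = y0 := tendsto_nhds_unique (hy 0) hy0
  have hy00' : ∀ k, y k ≠ 0 := by
    intro k
    induction k with
    | zero => rw [hyz]; exact hy00
    | succ k ih =>
      intro h0
      apply ih
      funext i
      rw [← hyy k i, h0]
      have h1 := aeval_scale (homogeneousComponent d (f i)) d
        (homogeneousComponent_isHomogeneous d (f i)) (0 : ℝ) (0 : Fin (N + 1) → ℝ)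
      rw [zero_pow (by omega), zero_mul] at h1
      simpa using h1
  have halg : ∀ k i, IsAlgebraic ℚ (y k i) := by
    intro k
    induction k with
    | zero =>
      intro i
      rw [hyz]
      exact (hbase i).1
    | succ k ih => exact fun i => alg_of d (by omega) f hreg (y (k + 1)) (y k) (hyy k) ih i
  have hmono : ∀ k, ∀ a b : ℝ, a ≤ b → (fun n => (S k n) ^ (-b)) =O[(U : Filter ℕ)]
      fun n => (S k n) ^ (-a) := by
    intro k a b hab
    apply IsBigO.of_bound 1
    filter_upwards [(hSt k).eventually_ge_atTop 1] with n hn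
    rw [one_mul, Real.norm_of_nonneg (Real.rpow_nonneg (by linarith) _),
      Real.norm_of_nonneg (Real.rpow_nonneg (by linarith) _)]
    exact Real.rpow_le_rpow_of_exponent_le hn (by linarith)
  have hrate : ∀ k, ∃ ρ : ℝ, 0 < ρ ∧
      ∀ i, (fun n => z k n i - y k i) =O[(U : Filter ℕ)] fun n => (S k n) ^ (-ρ) := by
    intro k
    induction k with
    | zero =>
      choose ρ hρ hρ' using fun j => (hbase j).2
      refine ⟨Finset.univ.inf' Finset.univ_nonempty ρ, ?_, fun i => ?_⟩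
      · rw [Finset.lt_inf'_iff]
        intro i _
        exact hρ i
      · rw [hyz]
        exact (hρ' i).trans (hmono 0 _ _ (Finset.inf'_le _ (Finset.mem_univ i)))
    | succ k ih =>
      obtain ⟨ρ, hρ, h1⟩ := ih
      apply weak_rate U d (by omega) f hreg (S (k + 1)) (hSt (k + 1)) (z (k + 1)) (y (k + 1))
        (y k) (hy (k + 1)) (hyy k) (d * ρ) (by positivity)
      intro i
      refine (h1 i).congr' ?_ ?_
      · filter_upwards [hH k i] with n hn
        rw [hn]
      · filter_upwards [hSpos (k + 1)] with n hn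
        rw [← hSd, ← Real.rpow_natCast, ← Real.rpow_mul hn.le]
        congr 1
        ring
  exact ⟨⟨fun k n => x (n - k), S, z, y, hSt, fun k => Eventually.of_forall (hSd k), hp, hf, hy,
    hyy, hy00', halg, hrate⟩, fun k n => rfl⟩

end Pool.Agent.R847.SG
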