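import Mathlib
import Pool.Agent.R847.SG.Tower

/-!
# Expansions of the scaled predecessors
-/

set_option autoImplicit false

open MvPolynomial Filter Topology Asymptotics

namespace Pool.Agent.R847.SG

/-- the real algebraic numbers -/
noncomputable abbrev RA : IntermediateField ℚ ℝ := algebraicClosure ℚ ℝ

/-- evaluation of a polynomial with real algebraic coefficients at a real number -/
noncomputable def ev (r : ℝ) : Polynomial RA →+* ℝ := Polynomial.eval₂RingHom (algebraMap RA ℝ) r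

lemma ev_X (r : ℝ) : ev r Polynomial.X = r := by simp [ev]

lemma ev_C (r : ℝ) (c : RA) : ev r (Polynomial.C c) = (c : ℝ) := by
  simp [ev]

lemma ev_comp_pow (r : ℝ) (d : ℕ) (p : Polynomial RA) :
    ev r (p.comp (Polynomial.X ^ d)) = ev (r ^ d) p := by
  simp [ev, Polynomial.eval₂_comp]

lemma ev_tendsto {X : Type} {l : Filter X} (p : Polynomial RA) (r : X → ℝ)
    (hr : Tendsto r l (𝓝 0)) : Tendsto (fun n => ev (r n) p) l (𝓝 (p.coeff 0 : ℝ)) := by
  have h1 : ∀ t : ℝ, ev t p = (p.map (algebraMap RA ℝ)).eval t := by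
    intro t
    rw [Polynomial.eval_map]
    rfl
  simp_rw [h1]
  have h2 : ((p.coeff 0 : RA) : ℝ) = (p.map (algebraMap RA ℝ)).eval 0 := by
    rw [← Polynomial.coeff_zero_eq_eval_zero, Polynomial.coeff_map]
    rfl
  rw [h2]
  exact ((p.map (algebraMap RA ℝ)).continuous.tendsto 0).comp hr

lemma inv_pow_rpow {X : Type} {l : Filter X} (s : X → ℝ) (hs : Tendsto s l atTop) (J : ℕ) :
    (fun n => ((s n)⁻¹) ^ J) =ᶠ[l] fun n => (s n) ^ (-(J : ℝ)) := by
  filter_upwards [hs.eventually_gt_atTop 0] with n hn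
  rw [Real.rpow_neg hn.le, Real.rpow_natCast, inv_pow]

lemma ev_isBigO {X : Type} {l : Filter X} (p : Polynomial RA) (J : ℕ) (hp : Polynomial.X ^ J ∣ p)
    (s : X → ℝ) (hs : Tendsto s l atTop) :
    (fun n => ev (s n)⁻¹ p) =O[l] fun n => (s n) ^ (-(J : ℝ)) := by
  obtain ⟨q, rfl⟩ := hp
  have h1 : (fun n => ev (s n)⁻¹ (Polynomial.X ^ J * q)) =
      fun n => ((s n)⁻¹) ^ J * ev (s n)⁻¹ q := by
    funext n
    rw [map_mul, map_pow, ev_X]
  rw [h1]
  have h2 := (ev_tendsto q _ (tendsto_inv_atTop_zero.comp hs)).isBigO_one ℝ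
  have h3 := (inv_pow_rpow s hs J).isBigO.mul h2
  simpa using h3

lemma dvd_of_isBigO {X : Type} {l : Filter X} [l.NeBot] (p : Polynomial RA) (J : ℕ) (s : X → ℝ)
    (hs : Tendsto s l atTop)
    (h : (fun n => ev (s n)⁻¹ p) =O[l] fun n => (s n) ^ (-(J : ℝ))) : Polynomial.X ^ J ∣ p := by
  rw [Polynomial.X_pow_dvd_iff]
  intro v hv
  induction v using Nat.strong_induction_on with
  | _ v ih =>
    have h1 : Polynomial.X ^ v ∣ p := by
      rw [Polynomial.X_pow_dvd_iff]
      intro u hu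
      exact ih u hu (by omega)
    obtain ⟨q, hq⟩ := h1
    have hε : Tendsto (fun n => (s n)⁻¹) l (𝓝 0) := tendsto_inv_atTop_zero.comp hs
    have h2 : (fun n => ev (s n)⁻¹ q) =O[l] fun n => (s n) ^ (-((J - v : ℕ) : ℝ)) := by
      have h3 : (fun n => (s n) ^ v * ev (s n)⁻¹ p) =O[l]
          fun n => (s n) ^ v * (s n) ^ (-(J : ℝ)) := (isBigO_refl _ _).mul h
      refine h3.congr' ?_ ?_
      · filter_upwards [hs.eventually_gt_atTop 0] with n hn
        rw [hq, map_mul, map_pow, ev_X, ← mul_assoc, ← mul_pow, mul_inv_cancel₀ hn.ne', one_pow,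
          one_mul]
      · filter_upwards [hs.eventually_gt_atTop 0] with n hn
        rw [← Real.rpow_natCast, ← Real.rpow_add hn]
        congr 1
        rw [Nat.cast_sub (by omega)]
        ring
    have h3 : Tendsto (fun n => ev (s n)⁻¹ q) l (𝓝 0) := by
      apply h2.trans_tendsto
      have : (0 : ℝ) < ((J - v : ℕ) : ℝ) := by
        have : 0 < J - v := by omega
        exact_mod_cast this
      exact (tendsto_rpow_neg_atTop this).comp hs
    have h4 := tendsto_nhds_unique (ev_tendsto q _ hε) h3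
    have h5 : p.coeff v = q.coeff 0 := by
      rw [hq, Polynomial.coeff_X_pow_mul', if_pos le_rfl, Nat.sub_self]
    rw [h5]
    exact_mod_cast h4

variable {N d : ℕ} {f : Fin (N + 1) → MvPolynomial (Fin (N + 1)) ℤ} {U : Ultrafilter ℕ}

lemma Tower.hH (T : Tower d f U) (hdeg : ∀ i, (f i).totalDegree ≤ d) (k : ℕ) (i : Fin (N + 1)) :
    ∀ᶠ n in U, H d (f i) (T.S (k + 1) n)⁻¹ (T.z (k + 1) n) = T.z k n i := by
  filter_upwards [T.hf k, T.hp (k + 1), T.hp k, (T.hS k).eventually_gt_atTop 0,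
    (T.hS (k + 1)).eventually_gt_atTop 0, T.hSd k] with n h1 h2 h3 h4 h5 hSd
  have h6 := H_eval d (f i) (hdeg i) (T.S (k + 1) n)⁻¹ (T.S (k + 1) n) (mul_inv_cancel₀ h5.ne')
    (T.z (k + 1) n)
  have h7 : (fun i => T.S (k + 1) n * T.z (k + 1) n i) = fun i => (T.p (k + 1) n i : ℝ) := by
    funext i
    rw [h2 i]
  have h8 : aeval (fun i => (T.p (k + 1) n i : ℝ)) (f i) = ((T.p k n i : ℤ) : ℝ) := by
    rw [← h1 i]
    exact (map_aevalZ (Int.castRingHom ℝ) _ _).symm
  rw [h7, h8, hSd, h3 i] at h6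
  exact mul_left_cancel₀ h4.ne' h6

lemma Tower.hε (T : Tower d f U) (k : ℕ) : Tendsto (fun n => (T.S k n)⁻¹) U (𝓝 0) :=
  tendsto_inv_atTop_zero.comp (T.hS k)

/-- the limits as real algebraic points -/
noncomputable def Tower.yE (T : Tower d f U) (k : ℕ) (i : Fin (N + 1)) : RA :=
  ⟨T.y k i, mem_algebraicClosure_iff.2 (T.halg k i)⟩

lemma Tower.yE_coe (T : Tower d f U) (k : ℕ) (i : Fin (N + 1)) : (T.yE k i : ℝ) = T.y k i := rfl

lemma Tower.hyE (T : Tower d f U) (k : ℕ) (i : Fin (N + 1)) :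
    aeval (T.yE (k + 1)) (homogeneousComponent d (f i)) = T.yE k i := by
  apply (algebraMap RA ℝ).injective
  rw [map_aevalZ]
  exact T.hy k i

lemma Tower.detE (T : Tower d f U) (k : ℕ) (h : (Dm d f (T.y k)).det ≠ 0) :
    (Dm d f (T.yE k)).det ≠ 0 := by
  intro h0
  apply h
  have h1 := congrArg (algebraMap RA ℝ) h0
  rw [RingHom.map_det, RingHom.mapMatrix_apply, Dm_map, map_zero] at h1
  exact h1

/-- a coherent sequence of expansions of order `J` -/
structure Leaves (T : Tower d f U) (k1 J : ℕ) where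
  a : ℕ → Fin (N + 1) → Polynomial RA
  h0 : ∀ i, a 0 i = Polynomial.C (T.yE k1 i)
  hc : ∀ j i, (a j i).coeff 0 = T.yE (k1 + j) i
  hX : ∀ j i, Polynomial.X ^ J ∣ H d (f i) Polynomial.X (a (j + 1)) -
    (a j i).comp (Polynomial.X ^ d)

lemma exists_leaves (hd : d ≠ 0) (T : Tower d f U) (k1 J : ℕ)
    (hdet : ∀ k ≥ k1, (Dm d f (T.y k)).det ≠ 0) : Nonempty (Leaves T k1 J) := by
  have hstep : ∀ j (b : Fin (N + 1) → Polynomial RA), (∀ i, (b i).coeff 0 = T.yE (k1 + j) i) →
      ∃ c : Fin (N + 1) → Polynomial RA, (∀ i, (c i).coeff 0 = T.yE (k1 + (j + 1)) i) ∧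
        ∀ i, Polynomial.X ^ J ∣ H d (f i) Polynomial.X c - (b i).comp (Polynomial.X ^ d) := by
    intro j b hb
    apply newton d hd f (T.yE (k1 + (j + 1))) (T.detE _ (hdet _ (by omega))) b _ J
    intro i
    rw [hb i, ← T.hyE]
    rfl
  choose F hF1 hF2 using hstep
  let P : ℕ → Type := fun j => {b : Fin (N + 1) → Polynomial RA //
    ∀ i, (b i).coeff 0 = T.yE (k1 + j) i}
  let a : (j : ℕ) → P j := fun j => Nat.rec
    (⟨fun i => Polynomial.C (T.yE k1 i), fun i => by simp⟩ : P 0)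
    (fun j b => (⟨F j b.1 b.2, hF1 j b.1 b.2⟩ : P (j + 1))) j
  exact ⟨⟨fun j => (a j).1, fun i => rfl, fun j => (a j).2, fun j i => hF2 j (a j).1 (a j).2 i⟩⟩

lemma Leaves.tendsto {T : Tower d f U} {k1 J : ℕ} (L : Leaves T k1 J) (j : ℕ) :
    Tendsto (fun n i => ev (T.S (k1 + j) n)⁻¹ (L.a j i)) U (𝓝 (T.y (k1 + j))) := by
  rw [tendsto_pi_nhds]
  intro i
  have h1 := ev_tendsto (L.a j i) _ (T.hε (k1 + j))
  rw [L.hc j i] at h1
  exact h1

/-- The rate of convergence of the expansions. -/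
lemma Leaves.rate {T : Tower d f U} {k1 J : ℕ} (L : Leaves T k1 J) (hd : 2 ≤ d)
    (hdeg : ∀ i, (f i).totalDegree ≤ d) (hdet : ∀ k ≥ k1, (Dm d f (T.y k)).det ≠ 0) :
    ∃ j0, ∀ j ≥ j0, ∀ i, (fun n => T.z (k1 + j) n i - ev (T.S (k1 + j) n)⁻¹ (L.a j i))
      =O[(U : Filter ℕ)] fun n => (T.S (k1 + j) n) ^ (-(J : ℝ)) := by
  have hmono : ∀ k, ∀ a b : ℝ, a ≤ b → (fun n => (T.S k n) ^ (-b)) =O[(U : Filter ℕ)]
      fun n => (T.S k n) ^ (-a) := by
    intro k a b hab
    apply IsBigO.of_bound 1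
    filter_upwards [(T.hS k).eventually_ge_atTop 1] with n hn
    rw [one_mul, Real.norm_of_nonneg (Real.rpow_nonneg (by linarith) _),
      Real.norm_of_nonneg (Real.rpow_nonneg (by linarith) _)]
    exact Real.rpow_le_rpow_of_exponent_le hn (by linarith)
  obtain ⟨ρ0, hρ0, hr⟩ := T.hrate k1
  have hd1 : (2 : ℝ) ≤ d := by exact_mod_cast hd
  have key : ∀ j, ∀ i, (fun n => T.z (k1 + j) n i - ev (T.S (k1 + j) n)⁻¹ (L.a j i))
      =O[(U : Filter ℕ)] fun n => (T.S (k1 + j) n) ^ (-(min (J : ℝ) (ρ0 * (d : ℝ) ^ j))) := by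
    intro j
    induction j with
    | zero =>
      intro i
      rw [pow_zero, mul_one]
      have h1 : (fun n => T.z (k1 + 0) n i - ev (T.S (k1 + 0) n)⁻¹ (L.a 0 i)) =
          fun n => T.z k1 n i - T.y k1 i := by
        funext n
        rw [L.h0, ev_C]
        rfl
      rw [h1]
      exact (hr i).trans (hmono k1 _ _ (min_le_right _ _))
    | succ j ih =>
      set m := min (J : ℝ) (ρ0 * (d : ℝ) ^ j) with hm
      set k := k1 + j with hk
      have hk1 : k1 + (j + 1) = k + 1 := by omega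
      rw [hk1]
      have hLt := L.tendsto (j + 1)
      rw [hk1] at hLt
      apply expand d f (fun n => (T.S (k + 1) n)⁻¹) (T.z (k + 1))
        (fun n i => ev (T.S (k + 1) n)⁻¹ (L.a (j + 1) i)) (T.y (k + 1))
        (hdet _ (by omega)) (T.hε (k + 1)) (T.hz (k + 1)) hLt
      intro i
      have h1 : (fun n => T.z k n i - ev (T.S k n)⁻¹ (L.a j i)) =O[(U : Filter ℕ)]
          fun n => (T.S (k + 1) n) ^ (-(d * m)) := by
        refine (ih i).congr' EventuallyEq.rfl ?_
        filter_upwards [T.hSd k, (T.hS (k + 1)).eventually_gt_atTop 0] with n hn hn2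
        rw [← hn, ← Real.rpow_natCast, ← Real.rpow_mul hn2.le]
        congr 1
        ring
      have h2 := ev_isBigO _ J (L.hX j i) (T.S (k + 1)) (T.hS (k + 1))
      have h3 : min (J : ℝ) (ρ0 * (d : ℝ) ^ (j + 1)) ≤ d * m := by
        rw [hm, mul_min_of_nonneg _ _ (by linarith)]
        apply min_le_min
        · nlinarith [(Nat.cast_nonneg J : (0 : ℝ) ≤ J)]
        · rw [pow_succ]
          apply le_of_eq
          ring
      have h4 := (h1.trans (hmono (k + 1) _ _ h3)).sub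
        (h2.trans (hmono (k + 1) _ _ (min_le_left (J : ℝ) (ρ0 * (d : ℝ) ^ (j + 1)))))
      refine h4.congr' ?_ EventuallyEq.rfl
      filter_upwards [T.hH hdeg k i, T.hSd k, (T.hS (k + 1)).eventually_gt_atTop 0,
        (T.hS k).eventually_gt_atTop 0] with n e1 e2 e3 e4
      rw [e1, map_sub, H_map, ev_X, ev_comp_pow, inv_pow, e2]
      ring
  obtain ⟨j0, hj0⟩ := pow_unbounded_of_one_lt ((J : ℝ) / ρ0) (by linarith : (1 : ℝ) < d)
  refine ⟨j0, fun j hj i => (key j i).trans (hmono _ _ _ ?_)⟩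
  apply le_min le_rfl
  have h1 : (d : ℝ) ^ j0 ≤ (d : ℝ) ^ j := pow_le_pow_right₀ (by linarith) hj
  have h2 : (J : ℝ) / ρ0 ≤ (d : ℝ) ^ j := hj0.le.trans h1
  rw [div_le_iff₀ hρ0] at h2
  linarith

/-- scaling of an expansion -/
noncomputable def sc (τ : RA) (p : Polynomial RA) : Polynomial RA :=
  Polynomial.C τ * p.comp (Polynomial.C τ⁻¹ * Polynomial.X)

lemma comp_dvd (τ : RA) (p : Polynomial RA) (J : ℕ) (h : Polynomial.X ^ J ∣ p) :
    Polynomial.X ^ J ∣ p.comp (Polynomial.C τ⁻¹ * Polynomial.X) := by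
  obtain ⟨q, rfl⟩ := h
  rw [Polynomial.mul_comp, Polynomial.X_pow_comp, mul_pow]
  exact Dvd.dvd.mul_right (Dvd.intro_left _ rfl) _

lemma H_sc (m : ℕ) (g : MvPolynomial (Fin (N + 1)) ℤ) (τ : RA) (hτ : τ ≠ 0)
    (a : Fin (N + 1) → Polynomial RA) :
    H m g Polynomial.X (fun i => sc τ (a i)) =
      Polynomial.C τ ^ m * (H m g Polynomial.X a).comp (Polynomial.C τ⁻¹ * Polynomial.X) := by
  have h1 : (H m g Polynomial.X a).comp (Polynomial.C τ⁻¹ * Polynomial.X) =
      H m g (Polynomial.C τ⁻¹ * Polynomial.X)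
        (fun i => (a i).comp (Polynomial.C τ⁻¹ * Polynomial.X)) := by
    have h2 := H_map (Polynomial.compRingHom (Polynomial.C τ⁻¹ * Polynomial.X)) m g
      Polynomial.X a
    simp only [Polynomial.coe_compRingHom_apply, Polynomial.X_comp] at h2
    exact h2
  rw [h1, ← H_scale]
  congr 1
  rw [← mul_assoc, ← Polynomial.C_mul, mul_inv_cancel₀ hτ, Polynomial.C_1, one_mul]

/-- Uniqueness of the expansions up to scaling. -/
lemma Leaves.uniq {T : Tower d f U} {k1 J : ℕ} (L : Leaves T k1 J) (hd : d ≠ 0)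
    (hdet : ∀ k ≥ k1, (Dm d f (T.y k)).det ≠ 0) (l : ℕ) (τ : ℕ → RA) (hτ : ∀ j, τ j ≠ 0)
    (hyl : ∀ j i, T.yE (k1 + j + l) i = τ j * T.yE (k1 + j) i) (r : ℕ) :
    ∀ j ≥ r, ∀ i, Polynomial.X ^ (min (d ^ r) J) ∣ L.a (j + l) i - sc (τ j) (L.a j i) := by
  have hτd : ∀ j, τ (j + 1) ^ d = τ j := by
    intro j
    obtain ⟨i, hi⟩ : ∃ i, T.y (k1 + j) i ≠ 0 := Function.ne_iff.1 (T.hy0 _)
    have hi' : T.yE (k1 + j) i ≠ 0 := by
      intro h
      apply hi
      rw [← T.yE_coe, h]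
      rfl
    have h1 := T.hyE (k1 + j + l) i
    have h2 : T.yE (k1 + j + l + 1) = fun i => τ (j + 1) * T.yE (k1 + (j + 1)) i := by
      funext i
      rw [← hyl (j + 1) i]
      congr 1
      omega
    rw [h2, aeval_scale _ d (homogeneousComponent_isHomogeneous d (f i))] at h1
    have h3 := T.hyE (k1 + j) i
    have h4 : k1 + (j + 1) = k1 + j + 1 := by omega
    rw [h4, h3, hyl j i] at h1
    exact mul_right_cancel₀ hi' h1
  induction r with
  | zero =>
    intro j _ i
    rw [pow_zero]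
    have h1 : Polynomial.X ^ 1 ∣ L.a (j + l) i - sc (τ j) (L.a j i) := by
      rw [pow_one, Polynomial.X_dvd_iff, Polynomial.coeff_sub, L.hc]
      have h2 : (sc (τ j) (L.a j i)).coeff 0 = τ j * T.yE (k1 + j) i := by
        rw [← L.hc, Polynomial.coeff_zero_eq_eval_zero, Polynomial.coeff_zero_eq_eval_zero]
        unfold sc
        simp
      rw [h2, ← hyl, ← add_assoc, sub_self]
    exact (pow_dvd_pow _ (min_le_left _ _)).trans h1
  | succ r ih =>
    intro j hj
    obtain ⟨j, rfl⟩ : ∃ j', j = j' + 1 := ⟨j - 1, by omega⟩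
    have hIH := ih j (by omega)
    apply newton_unique d f (T.yE (k1 + (j + 1 + l))) (T.detE _ (hdet _ (by omega)))
      (min (d ^ (r + 1)) J) (L.a (j + 1 + l)) (fun i => sc (τ (j + 1)) (L.a (j + 1) i))
    · intro i
      exact L.hc _ i
    · intro i
      have h2 : (sc (τ (j + 1)) (L.a (j + 1) i)).coeff 0 = τ (j + 1) * T.yE (k1 + (j + 1)) i := by
        rw [← L.hc, Polynomial.coeff_zero_eq_eval_zero, Polynomial.coeff_zero_eq_eval_zero]
        unfold sc
        simp
      have e0 : k1 + (j + 1) + l = k1 + (j + 1 + l) := by omega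
      rw [h2, ← hyl, e0]
    · intro i
      rw [H_sc _ _ _ (hτ _)]
      -- the two congruences
      have e1 := L.hX (j + l) i
      have e2 := comp_dvd (τ (j + 1)) _ J (L.hX j i)
      have e3 : Polynomial.X ^ (min (d ^ (r + 1)) J) ∣
          (L.a (j + l) i - sc (τ j) (L.a j i)).comp (Polynomial.X ^ d) := by
        obtain ⟨q, hq⟩ := hIH i
        rw [hq, Polynomial.mul_comp, Polynomial.X_pow_comp, ← pow_mul]
        apply Dvd.dvd.mul_right
        apply pow_dvd_pow
        rw [pow_succ]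
        rcases le_total (d ^ r) J with h | h
        · rw [min_eq_left h]
          calc min (d ^ r * d) J ≤ d ^ r * d := min_le_left _ _
            _ = d * d ^ r := mul_comm _ _
        · rw [min_eq_right h]
          calc min (d ^ r * d) J ≤ J := min_le_right _ _
            _ ≤ d * J := Nat.le_mul_of_pos_left _ (Nat.pos_of_ne_zero hd)
      have e4 : (sc (τ j) (L.a j i)).comp (Polynomial.X ^ d) =
          Polynomial.C (τ (j + 1)) ^ d * ((L.a j i).comp (Polynomial.X ^ d)).comp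
            (Polynomial.C (τ (j + 1))⁻¹ * Polynomial.X) := by
        unfold sc
        rw [Polynomial.mul_comp, Polynomial.C_comp, Polynomial.comp_assoc, Polynomial.comp_assoc,
          Polynomial.mul_comp, Polynomial.C_comp, Polynomial.X_comp, Polynomial.X_pow_comp,
          mul_pow, ← hτd j, ← Polynomial.C_pow, ← Polynomial.C_pow, inv_pow]
      have e5 : j + 1 + l = j + l + 1 := by omega
      rw [e5]
      have e6 : H d (f i) Polynomial.X (L.a (j + l + 1)) - Polynomial.C (τ (j + 1)) ^ d *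
          (H d (f i) Polynomial.X (L.a (j + 1))).comp
            (Polynomial.C (τ (j + 1))⁻¹ * Polynomial.X) =
          (H d (f i) Polynomial.X (L.a (j + l + 1)) - (L.a (j + l) i).comp (Polynomial.X ^ d)) +
          (L.a (j + l) i - sc (τ j) (L.a j i)).comp (Polynomial.X ^ d) -
          Polynomial.C (τ (j + 1)) ^ d *
            ((H d (f i) Polynomial.X (L.a (j + 1)) - (L.a j i).comp (Polynomial.X ^ d)).comp
              (Polynomial.C (τ (j + 1))⁻¹ * Polynomial.X)) := by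
        rw [Polynomial.sub_comp, Polynomial.sub_comp, e4]
        ring
      rw [e6]
      have hJ : (Polynomial.X : Polynomial RA) ^ (min (d ^ (r + 1)) J) ∣ Polynomial.X ^ J :=
        pow_dvd_pow _ (min_le_right _ _)
      exact ((hJ.trans e1).add e3).sub (Dvd.dvd.mul_left (hJ.trans e2) _)

end Pool.Agent.R847.SG
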