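import Mathlib
import Pool.Agent.R847.SG.Leaf

/-!
# Equations of the predecessors propagate along a period at infinity
-/

set_option autoImplicit false

open MvPolynomial Filter Topology Asymptotics

namespace Pool.Agent.R847.SG

variable {N d : ℕ} {f : Fin (N + 1) → MvPolynomial (Fin (N + 1)) ℤ} {U : Ultrafilter ℕ}

lemma Tower.val (T : Tower d f U) (k m : ℕ) (g : MvPolynomial (Fin (N + 1)) ℤ)
    (hg : g.totalDegree ≤ m) :
    ∀ᶠ n in U, ((aeval (T.p k n) g : ℤ) : ℝ) = T.S k n ^ m * H m g (T.S k n)⁻¹ (T.z k n) := by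
  filter_upwards [T.hp k, (T.hS k).eventually_gt_atTop 0] with n h1 h2
  rw [H_eval m g hg (T.S k n)⁻¹ (T.S k n) (mul_inv_cancel₀ h2.ne')]
  have h3 : (fun i => T.S k n * T.z k n i) = fun i => (T.p k n i : ℝ) := by
    funext i
    rw [h1 i]
  rw [h3]
  exact map_aevalZ (Int.castRingHom ℝ) _ _

lemma Leaves.val {T : Tower d f U} {k1 J : ℕ} (L : Leaves T k1 J) (j m : ℕ)
    (hr : ∀ i, (fun n => T.z (k1 + j) n i - ev (T.S (k1 + j) n)⁻¹ (L.a j i))
      =O[(U : Filter ℕ)] fun n => (T.S (k1 + j) n) ^ (-(J : ℝ)))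
    (g : MvPolynomial (Fin (N + 1)) ℤ) :
    (fun n => H m g (T.S (k1 + j) n)⁻¹ (T.z (k1 + j) n) -
      ev (T.S (k1 + j) n)⁻¹ (H m g Polynomial.X (L.a j)))
      =O[(U : Filter ℕ)] fun n => (T.S (k1 + j) n) ^ (-(J : ℝ)) := by
  have h1 := lip m g (fun n => (T.S (k1 + j) n)⁻¹) (T.z (k1 + j))
    (fun n i => ev (T.S (k1 + j) n)⁻¹ (L.a j i)) 0 _ _ (T.hε _) (T.hz _) (L.tendsto j) _ hr
  refine h1.congr_left fun n => ?_
  rw [H_map, ev_X]

/-- Equations propagate. -/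
theorem mon (T : Tower d f U) (hd : 2 ≤ d) (hdeg : ∀ i, (f i).totalDegree ≤ d) (k1 : ℕ)
    (hdet : ∀ k ≥ k1, (Dm d f (T.y k)).det ≠ 0) (l : ℕ) (τ : ℕ → RA) (hτ : ∀ j, τ j ≠ 0)
    (hyl : ∀ j i, T.yE (k1 + j + l) i = τ j * T.yE (k1 + j) i) (m : ℕ) :
    ∃ K, ∀ k ≥ K, ∀ g : MvPolynomial (Fin (N + 1)) ℤ, g.totalDegree ≤ m →
      (∀ᶠ n in U, aeval (T.p k n) g = 0) → ∀ᶠ n in U, aeval (T.p (k + l) n) g = 0 := by
  obtain ⟨L⟩ := exists_leaves (by omega) T k1 (m + 1) hdet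
  obtain ⟨j0, hj0⟩ := L.rate hd hdeg hdet
  refine ⟨k1 + (j0 + (m + 1)), fun k hk g hg h => ?_⟩
  obtain ⟨j, rfl⟩ : ∃ j, k = k1 + j := ⟨k - k1, by omega⟩
  have hv1 := L.val j m (hj0 j (by omega)) g
  have hv2 := L.val (j + l) m (hj0 (j + l) (by omega)) g
  -- the polynomial of the expansion vanishes to order `m + 1`
  have h1 : Polynomial.X ^ (m + 1) ∣ H m g Polynomial.X (L.a j) := by
    apply dvd_of_isBigO _ _ _ (T.hS (k1 + j))
    refine hv1.neg_left.congr' ?_ EventuallyEq.rfl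
    filter_upwards [T.val (k1 + j) m g hg, h, (T.hS (k1 + j)).eventually_gt_atTop 0]
      with n e1 e2 e3
    rw [e2, Int.cast_zero] at e1
    have e4 := (mul_eq_zero.1 e1.symm).resolve_left (pow_ne_zero _ e3.ne')
    rw [e4]
    ring
  have h2 : Polynomial.X ^ (m + 1) ∣ H m g Polynomial.X (fun i => sc (τ j) (L.a j i)) := by
    rw [H_sc _ _ _ (hτ j)]
    exact Dvd.dvd.mul_left (comp_dvd _ _ _ h1) _
  have h3 : ∀ i, Polynomial.X ^ (m + 1) ∣ L.a (j + l) i - sc (τ j) (L.a j i) := by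
    have h4 := L.uniq (by omega) hdet l τ hτ hyl (m + 1) j (by omega)
    have h5 : min (d ^ (m + 1)) (m + 1) = m + 1 := by
      apply min_eq_right
      exact (Nat.lt_pow_self (by omega : 1 < d)).le
    rw [h5] at h4
    exact h4
  have h4 : Polynomial.X ^ (m + 1) ∣ H m g Polynomial.X (L.a (j + l)) := by
    have h5 := W_spec m g Polynomial.X (L.a (j + l)) (fun i => sc (τ j) (L.a j i))
    have h6 : Polynomial.X ^ (m + 1) ∣ H m g Polynomial.X (L.a (j + l)) -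
        H m g Polynomial.X (fun i => sc (τ j) (L.a j i)) := by
      rw [h5]
      exact Finset.dvd_sum fun i _ => Dvd.dvd.mul_left (h3 i) _
    have h7 := h6.add h2
    rwa [sub_add_cancel] at h7
  have h5 := ev_isBigO _ _ h4 _ (T.hS (k1 + (j + l)))
  have h6 := hv2.add h5
  have h7 : (fun n => ((aeval (T.p (k1 + j + l) n) g : ℤ) : ℝ)) =O[(U : Filter ℕ)]
      fun n => (T.S (k1 + (j + l)) n) ^ (-(1 : ℝ)) := by
    have h8 : (fun n => (T.S (k1 + (j + l)) n) ^ m * (H m g (T.S (k1 + (j + l)) n)⁻¹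
        (T.z (k1 + (j + l)) n) - ev (T.S (k1 + (j + l)) n)⁻¹ (H m g Polynomial.X (L.a (j + l))) +
        ev (T.S (k1 + (j + l)) n)⁻¹ (H m g Polynomial.X (L.a (j + l))))) =O[(U : Filter ℕ)]
        fun n => (T.S (k1 + (j + l)) n) ^ m * (T.S (k1 + (j + l)) n) ^ (-((m + 1 : ℕ) : ℝ)) :=
      (isBigO_refl _ _).mul h6
    refine h8.congr' ?_ ?_
    · filter_upwards [T.val (k1 + (j + l)) m g hg] with n e1
      rw [sub_add_cancel, ← e1, add_assoc]
    · filter_upwards [(T.hS (k1 + (j + l))).eventually_gt_atTop 0] with n e1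
      rw [← Real.rpow_natCast, ← Real.rpow_add e1]
      congr 1
      push_cast
      ring
  have h8 : Tendsto (fun n => ((aeval (T.p (k1 + j + l) n) g : ℤ) : ℝ)) U (𝓝 0) :=
    h7.trans_tendsto ((tendsto_rpow_neg_atTop one_pos).comp (T.hS _))
  have h9 : ∀ᶠ n in U, ‖((aeval (T.p (k1 + j + l) n) g : ℤ) : ℝ)‖ < 1 := by
    have := h8.norm
    rw [norm_zero] at this
    exact this.eventually (gt_mem_nhds zero_lt_one)
  filter_upwards [h9] with n hn
  rw [Real.norm_eq_abs] at hn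
  have : |aeval (T.p (k1 + j + l) n) g| < 1 := by exact_mod_cast hn
  exact Int.abs_lt_one_iff.1 this

end Pool.Agent.R847.SG
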