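import Mathlib
import Pool.Agent.R847.SG.Close
import Pool.Agent.R847.SG.Flag
import Pool.Agent.R333.SubR

/-!
# Linear relations between polynomials at the predecessors, by the subspace theorem
-/

set_option autoImplicit false

open MvPolynomial Filter Topology Asymptotics

namespace Pool.Agent.R847.SG

variable {N d : ℕ} {f : Fin (N + 1) → MvPolynomial (Fin (N + 1)) ℤ} {U : Ultrafilter ℕ}

/-- The subspace theorem for points with an expansion: `2 m + 2` polynomials of degree at most `m`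
are linearly dependent on the points. -/
theorem sub_core (U : Ultrafilter ℕ) (m : ℕ) (x : ℕ → Fin (2 * m + 2) → ℤ) (S : ℕ → ℝ)
    (hS : Tendsto S U atTop) (G : Fin (2 * m + 2) → Polynomial RA) (u : ℕ → Fin (2 * m + 2) → ℝ)
    (hx : ∀ᶠ n in U, ∀ e, (x n e : ℝ) = S n ^ m * u n e)
    (hu : ∀ e, (fun n => u n e - ev (S n)⁻¹ (G e)) =O[(U : Filter ℕ)]
      fun n => (S n) ^ (-((2 * m + 2 : ℕ) : ℝ))) :
    ∃ c : Fin (2 * m + 2) → ℤ, c ≠ 0 ∧ ∀ᶠ n in U, ∑ e, c e * x n e = 0 := by
  classical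
  by_contra hno
  push Not at hno
  have hno' : ∀ c : Fin (2 * m + 2) → ℤ, c ≠ 0 → ∀ᶠ n in U, ∑ e, c e * x n e ≠ 0 := by
    intro c hc
    have := hno c hc
    exact this
  obtain ⟨e, c, he, _, hsupp, hdiag, hφ⟩ := exists_flag (fun t j => (G j).coeff t) (2 * m + 2)
    (Finset.univ : Finset (Fin (2 * m + 2))) (by simp)
  have hebij : Function.Bijective e := (Finite.injective_iff_bijective).1 he
  -- the forms
  set M : Matrix (Fin (2 * m + 2)) (Fin (2 * m + 2)) ℝ :=
    Matrix.of fun l j => ((c l (e j) : RA) : ℝ) with hM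
  have hform : ∀ l : Fin (2 * m + 2), (fun n => ∑ j, M l j * u n (e j)) =O[(U : Filter ℕ)]
      fun n => (S n) ^ (-((l : ℕ) : ℝ)) := by
    intro l
    have h1 : Polynomial.X ^ (l : ℕ) ∣ ∑ j, Polynomial.C (c l j) * G j := by
      rw [Polynomial.X_pow_dvd_iff]
      intro t ht
      rw [Polynomial.finsetSum_coeff]
      simp_rw [Polynomial.coeff_C_mul]
      exact hφ l t ht
    have h2 := ev_isBigO _ _ h1 S hS
    have h3 : ∀ j, (fun n => ((c l j : RA) : ℝ) * (u n j - ev (S n)⁻¹ (G j)))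
        =O[(U : Filter ℕ)] fun n => (S n) ^ (-((l : ℕ) : ℝ)) := by
      intro j
      refine ((hu j).const_mul_left _).trans ?_
      apply IsBigO.of_bound 1
      filter_upwards [hS.eventually_ge_atTop 1] with n hn
      rw [one_mul, Real.norm_of_nonneg (Real.rpow_nonneg (by linarith) _),
        Real.norm_of_nonneg (Real.rpow_nonneg (by linarith) _)]
      apply Real.rpow_le_rpow_of_exponent_le hn
      have : ((l : ℕ) : ℝ) ≤ ((2 * m + 2 : ℕ) : ℝ) := by exact_mod_cast l.2.le
      linarith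
    have h4 := (IsBigO.fun_sum (s := Finset.univ) fun j _ => h3 j).add h2
    refine h4.congr_left fun n => ?_
    rw [map_sum, ← Finset.sum_add_distrib]
    rw [← (Equiv.ofBijective e hebij).sum_comp]
    refine Finset.sum_congr rfl fun j _ => ?_
    rw [map_mul, ev_C]
    simp only [Equiv.ofBijective_apply, hM, Matrix.of_apply]
    ring
  choose C hC using fun l => (hform l).bound
  set C0 : ℝ := 1 + ∑ l, |C l| with hC0
  have hC0pos : 0 < C0 := by
    have : 0 ≤ ∑ l, |C l| := Finset.sum_nonneg fun l _ => abs_nonneg _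
    linarith
  have hCle : ∀ l, C l ≤ C0 := by
    intro l
    have h1 := Finset.single_le_sum (f := fun l => |C l|) (fun l _ => abs_nonneg _)
      (Finset.mem_univ l)
    have h2 := le_abs_self (C l)
    linarith
  have hxne : ∀ᶠ n in U, x n ≠ 0 := by
    have h1 := hno' (Pi.single 0 1) (by simp)
    filter_upwards [h1] with n hn h0
    apply hn
    simp [h0]
  -- enumeration of the relations
  obtain ⟨enum, henum⟩ := exists_surjective_nat (Fin (2 * m + 2) → ℤ)
  have hpick : ∀ M' : ℕ, ∃ n, (2 : ℝ) ^ M' ≤ S n ∧ (∀ i ≤ M', enum i ≠ 0 →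
      ∑ e, enum i e * x n e ≠ 0) ∧ (∀ e, (x n e : ℝ) = S n ^ m * u n e) ∧ x n ≠ 0 ∧
      (∀ l, ‖∑ j, M l j * u n (e j)‖ ≤ C l * ‖(S n) ^ (-((l : ℕ) : ℝ))‖) := by
    intro M'
    have h1 : ∀ᶠ n in U, ∀ i : Fin (M' + 1), enum i ≠ 0 → ∑ e, enum i e * x n e ≠ 0 := by
      rw [eventually_all]
      intro i
      by_cases hi : enum i = 0
      · exact Eventually.of_forall fun n h => absurd hi h
      · exact (hno' _ hi).mono fun n hn _ => hn
    have h2 : ∀ᶠ n in U, ∀ l, ‖∑ j, M l j * u n (e j)‖ ≤ C l * ‖(S n) ^ (-((l : ℕ) : ℝ))‖ :=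
      eventually_all.2 hC
    obtain ⟨n, h3, h4, h5, h7, h6⟩ :=
      ((hS.eventually_ge_atTop ((2 : ℝ) ^ M')).and (h1.and (hx.and (hxne.and h2)))).exists
    exact ⟨n, h3, fun i hi => h4 ⟨i, by omega⟩, h5, h7, h6⟩
  choose ν hν1 hν2 hν3 hν5 hν4 using hpick
  -- the index
  set lg : ℕ → ℕ := fun M' => ⌊Real.logb 2 (S (ν M'))⌋₊ with hlg
  have hSpos : ∀ M', 1 ≤ S (ν M') := fun M' => le_trans (one_le_pow₀ (by norm_num)) (hν1 M')
  have hlg1 : ∀ M', (2 : ℝ) ^ (lg M') ≤ S (ν M') := by
    intro M'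
    have h0 : 0 ≤ Real.logb 2 (S (ν M')) := Real.logb_nonneg (by norm_num) (hSpos M')
    have h1 := Nat.floor_le h0
    rw [← Real.rpow_natCast]
    rw [← Real.le_logb_iff_rpow_le (by norm_num) (by linarith [hSpos M'])]
    exact h1
  have hlg2 : ∀ M', S (ν M') ≤ 2 * (2 : ℝ) ^ (lg M') := by
    intro M'
    have h1 := (Nat.lt_floor_add_one (Real.logb 2 (S (ν M')))).le
    rw [Real.logb_le_iff_le_rpow (by norm_num) (by linarith [hSpos M'])] at h1
    rw [Real.rpow_add (by norm_num), Real.rpow_one, Real.rpow_natCast] at h1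
    linarith
  have hlgM : ∀ M', M' ≤ lg M' := by
    intro M'
    apply Nat.le_floor
    rw [Real.le_logb_iff_rpow_le (by norm_num) (by linarith [hSpos M']), Real.rpow_natCast]
    exact hν1 M'
  set P : ℕ → Prop := fun t => ∃ M', lg M' = t with hP
  have hPf : ∃ᶠ t in atTop, P t := by
    rw [frequently_atTop]
    intro a
    exact ⟨lg a, hlgM a, a, rfl⟩
  have hinv : ∀ t, ∃ M', P t → lg M' = t := by
    intro t
    by_cases h : P t
    · obtain ⟨M', hM'⟩ := h
      exact ⟨M', fun _ => hM'⟩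
    · exact ⟨0, fun h' => absurd h' h⟩
  choose inv hinv using hinv
  obtain ⟨y, hy0, hy⟩ := Pool.Agent.R333.SubR.sub_real (n := 2 * m + 2) (by omega) 2 le_rfl M
    (by
      intro i j
      rw [hM]
      simp only [Matrix.of_apply]
      exact mem_algebraicClosure_iff.1 (c i (e j)).2)
    (by
      intro i j hij
      rw [hM]
      simp only [Matrix.of_apply]
      by_contra hne
      have h1 : c i (e j) ≠ 0 := by
        intro h
        apply hne
        rw [h]
        rfl
      obtain ⟨r, hr, hre⟩ := hsupp i (e j) h1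
      rw [he hre] at hr
      exact absurd hij (not_lt.2 hr))
    (by
      intro i
      rw [hM]
      simp only [Matrix.of_apply]
      intro h
      exact hdiag i (by exact_mod_cast h))
    P hPf (fun t j => x (ν (inv t)) (e j))
    (by
      intro t ht h0
      apply hν5 (inv t)
      funext j
      obtain ⟨r, rfl⟩ := hebij.2 j
      exact congrFun h0 r)
    (fun _ _ => 1) 0 (by simp) (by simp) (fun l => (m : ℝ) - (l : ℕ)) (C0 * 2 ^ m)
    (by positivity)
    (by
      intro t l ht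
      have h1 := hinv t ht
      set n := ν (inv t) with hn
      have hS1 : 1 ≤ S n := hSpos _
      have hS0 : 0 < S n := by linarith
      have h2 : ∑ j, M l j * ((x n (e j) : ℤ) : ℝ) = S n ^ m * ∑ j, M l j * u n (e j) := by
        rw [Finset.mul_sum]
        refine Finset.sum_congr rfl fun j _ => ?_
        rw [hν3]
        ring
      rw [h2, abs_mul, abs_of_nonneg (by positivity : (0 : ℝ) ≤ S n ^ m)]
      have h3 := hν4 (inv t) l
      rw [← hn, Real.norm_eq_abs, Real.norm_of_nonneg (Real.rpow_nonneg hS0.le _)] at h3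
      have h4 : S n ^ m * |∑ j, M l j * u n (e j)| ≤ C0 * (S n) ^ ((m : ℝ) - (l : ℕ)) := by
        calc S n ^ m * |∑ j, M l j * u n (e j)| ≤ S n ^ m * (C l * (S n) ^ (-((l : ℕ) : ℝ))) :=
              mul_le_mul_of_nonneg_left h3 (by positivity)
          _ ≤ S n ^ m * (C0 * (S n) ^ (-((l : ℕ) : ℝ))) := by
              apply mul_le_mul_of_nonneg_left _ (by positivity)
              exact mul_le_mul_of_nonneg_right (hCle l) (Real.rpow_nonneg hS0.le _)
          _ = C0 * (S n) ^ ((m : ℝ) - (l : ℕ)) := by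
              rw [sub_eq_add_neg, Real.rpow_add hS0, Real.rpow_natCast]
              ring
      refine h4.trans ?_
      rw [mul_assoc]
      apply mul_le_mul_of_nonneg_left _ hC0pos.le
      have h5 : (2 : ℝ) ^ t ≤ S n := by
        have := hlg1 (inv t)
        rwa [h1] at this
      have h6 : S n ≤ 2 * (2 : ℝ) ^ t := by
        have := hlg2 (inv t)
        rwa [h1] at this
      have h7 : ((2 : ℕ) : ℝ) ^ (((m : ℝ) - (l : ℕ)) * t) =
          ((2 : ℝ) ^ t) ^ ((m : ℝ) - (l : ℕ)) := by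
        rw [← Real.rpow_natCast, ← Real.rpow_mul (by norm_num)]
        push_cast
        congr 1
        ring
      rw [h7]
      rcases le_total 0 ((m : ℝ) - (l : ℕ)) with h8 | h8
      · calc (S n) ^ ((m : ℝ) - (l : ℕ)) ≤ (2 * (2 : ℝ) ^ t) ^ ((m : ℝ) - (l : ℕ)) :=
              Real.rpow_le_rpow hS0.le h6 h8
          _ = (2 : ℝ) ^ ((m : ℝ) - (l : ℕ)) * ((2 : ℝ) ^ t) ^ ((m : ℝ) - (l : ℕ)) :=
              Real.mul_rpow (by norm_num) (by positivity)
          _ ≤ 2 ^ m * ((2 : ℝ) ^ t) ^ ((m : ℝ) - (l : ℕ)) := by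
              apply mul_le_mul_of_nonneg_right _ (by positivity)
              rw [← Real.rpow_natCast]
              apply Real.rpow_le_rpow_of_exponent_le (by norm_num)
              have : (0 : ℝ) ≤ ((l : ℕ) : ℝ) := by positivity
              linarith
      · calc (S n) ^ ((m : ℝ) - (l : ℕ)) ≤ ((2 : ℝ) ^ t) ^ ((m : ℝ) - (l : ℕ)) :=
              Real.rpow_le_rpow_of_nonpos (by positivity) h5 h8
          _ ≤ 2 ^ m * ((2 : ℝ) ^ t) ^ ((m : ℝ) - (l : ℕ)) := by
              apply le_mul_of_one_le_left (by positivity)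
              exact one_le_pow₀ (by norm_num))
    ((m : ℝ) + 1) (by positivity)
    (by
      intro t ht
      simp only [Nat.cast_one, Real.log_one, Finset.sum_const_zero]
      have h1 : ∑ l : Fin (2 * m + 2), ((m : ℝ) - ((l : ℕ) : ℝ)) = -((m : ℝ) + 1) := by
        rw [Finset.sum_sub_distrib, Finset.sum_const, Finset.card_univ, Fintype.card_fin,
          nsmul_eq_mul]
        have h2 : ∑ l : Fin (2 * m + 2), ((l : ℕ) : ℝ) = ((m : ℝ) + 1) * (2 * m + 1) := by
          rw [Fin.sum_univ_eq_sum_range (fun l => (l : ℝ))]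
          have h3 := Finset.sum_range_id_mul_two (2 * m + 2)
          have h4 : ((∑ i ∈ Finset.range (2 * m + 2), i : ℕ) : ℝ) * 2 =
              (2 * m + 2 : ℝ) * (2 * m + 1) := by
            have : (((∑ i ∈ Finset.range (2 * m + 2), i) * 2 : ℕ) : ℝ) =
                (((2 * m + 2) * (2 * m + 2 - 1) : ℕ) : ℝ) := by rw [h3]
            push_cast at this ⊢
            exact this
          push_cast at h4
          linarith
        rw [h2]
        push_cast
        ring
      rw [h1]
      simp)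
  -- the relation holds for infinitely many indices
  set E := Equiv.ofBijective e hebij with hE
  set c' : Fin (2 * m + 2) → ℤ := fun j => y (E.symm j) with hc'
  have hc'0 : c' ≠ 0 := by
    intro h0
    apply hy0
    funext j
    have := congrFun h0 (E j)
    simpa [hc'] using this
  obtain ⟨i0, hi0⟩ := henum c'
  rw [frequently_atTop] at hy
  obtain ⟨t, ht, hPt, hyt⟩ := hy (1 + ∑ i ∈ Finset.range i0, lg i)
  have h1 := hinv t hPt
  have h2 : ∑ j, c' j * x (ν (inv t)) j = 0 := by
    rw [← hyt, ← E.sum_comp]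
    refine Finset.sum_congr rfl fun j _ => ?_
    simp [hc', hE]
  have h3 : inv t < i0 := by
    by_contra hlt
    rw [not_lt] at hlt
    apply hν2 (inv t) i0 hlt (by rw [hi0]; exact hc'0)
    rw [hi0]
    exact h2
  have h4 : lg (inv t) ≤ ∑ i ∈ Finset.range i0, lg i :=
    Finset.single_le_sum (fun _ _ => Nat.zero_le _) (Finset.mem_range.2 h3)
  omega

/-- Linear relations between polynomials of bounded degree at the predecessors. -/
theorem sub_dep (T : Tower d f U) (hd : 2 ≤ d) (hdeg : ∀ i, (f i).totalDegree ≤ d) (k1 : ℕ)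
    (hdet : ∀ k ≥ k1, (Dm d f (T.y k)).det ≠ 0) (m : ℕ) :
    ∃ K, ∀ k ≥ K, ∀ P : Fin (2 * m + 2) → MvPolynomial (Fin (N + 1)) ℤ,
      (∀ e, (P e).totalDegree ≤ m) → ∃ c : Fin (2 * m + 2) → ℤ, c ≠ 0 ∧
        ∀ᶠ n in U, ∑ e, c e * aeval (T.p k n) (P e) = 0 := by
  obtain ⟨L⟩ := exists_leaves (by omega) T k1 (2 * m + 2) hdet
  obtain ⟨j0, hj0⟩ := L.rate hd hdeg hdet
  refine ⟨k1 + j0, fun k hk P hP => ?_⟩
  obtain ⟨j, rfl⟩ : ∃ j, k = k1 + j := ⟨k - k1, by omega⟩
  exact sub_core U m (fun n e => aeval (T.p (k1 + j) n) (P e)) (T.S (k1 + j)) (T.hS _)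
    (fun e => H m (P e) Polynomial.X (L.a j))
    (fun n e => H m (P e) (T.S (k1 + j) n)⁻¹ (T.z (k1 + j) n))
    (eventually_all.2 fun e => T.val (k1 + j) m (P e) (hP e))
    (fun e => L.val j m (hj0 j (by omega)) (P e))

end Pool.Agent.R847.SG
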