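import Mathlib
import Pool.Agent.R847.SG.Sub

/-!
# The points at infinity of the predecessors are defined over a fixed field
-/

set_option autoImplicit false

open MvPolynomial Filter Topology Asymptotics

namespace Pool.Agent.R847.SG

variable {N d : ℕ} {f : Fin (N + 1) → MvPolynomial (Fin (N + 1)) ℤ} {U : Ultrafilter ℕ}

/-- The top form of an equation vanishes at the limit. -/
lemma Tower.top (T : Tower d f U) (k m : ℕ) (g : MvPolynomial (Fin (N + 1)) ℤ)
    (hg : g.totalDegree ≤ m) (h : ∀ᶠ n in U, aeval (T.p k n) g = 0) :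
    H m g 0 (T.y k) = 0 := by
  have h1 := H_tendsto m g _ _ 0 _ (T.hε k) (T.hz k)
  apply tendsto_nhds_unique h1
  apply Tendsto.congr' _ tendsto_const_nhds
  filter_upwards [T.val k m g hg, h, (T.hS k).eventually_gt_atTop 0] with n e1 e2 e3
  rw [e2, Int.cast_zero] at e1
  exact ((mul_eq_zero.1 e1.symm).resolve_left (pow_ne_zero _ e3.ne')).symm

/-- Any three coordinates of the limits are dependent over the rational numbers. -/
lemma three_dep (T : Tower d f U) (k : ℕ)
    (h : ∀ P : Fin (2 * 1 + 2) → MvPolynomial (Fin (N + 1)) ℤ,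
      (∀ e, (P e).totalDegree ≤ 1) → ∃ c : Fin (2 * 1 + 2) → ℤ, c ≠ 0 ∧
        ∀ᶠ n in U, ∑ e, c e * aeval (T.p k n) (P e) = 0) (i j r : Fin (N + 1)) :
    ∃ a b c : ℤ, (a ≠ 0 ∨ b ≠ 0 ∨ c ≠ 0) ∧
      a * T.y k i + b * T.y k j + c * T.y k r = 0 := by
  have hX : ∀ i : Fin (N + 1), (X i : MvPolynomial (Fin (N + 1)) ℤ).totalDegree ≤ 1 := by
    intro i
    rw [totalDegree_X]
  obtain ⟨c, hc, hn⟩ := h ![1, X i, X j, X r] (by
    intro e
    fin_cases e
    · simp
    · exact hX i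
    · exact hX j
    · exact hX r)
  set g : MvPolynomial (Fin (N + 1)) ℤ := C (c 0) + C (c 1) * X i + C (c 2) * X j + C (c 3) * X r
    with hg
  have hg1 : g.totalDegree ≤ 1 := by
    have hCX : ∀ (a : ℤ) (i : Fin (N + 1)),
        (C a * X i : MvPolynomial (Fin (N + 1)) ℤ).totalDegree ≤ 1 := by
      intro a i
      refine (totalDegree_mul _ _).trans ?_
      rw [totalDegree_C, totalDegree_X]
    rw [hg]
    refine (totalDegree_add _ _).trans (max_le ((totalDegree_add _ _).trans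
      (max_le ((totalDegree_add _ _).trans (max_le ?_ (hCX _ _))) (hCX _ _))) (hCX _ _))
    rw [totalDegree_C]
    omega
  have hgn : ∀ᶠ n in U, aeval (T.p k n) g = 0 := by
    filter_upwards [hn] with n h1
    rw [Fin.sum_univ_four] at h1
    rw [hg]
    simp only [map_add, map_mul, aeval_C, aeval_X]
    simpa using h1
  have h1 := T.top k 1 g hg1 hgn
  rw [H_zero] at h1
  have h2 : homogeneousComponent 1 g = C (c 1) * X i + C (c 2) * X j + C (c 3) * X r := by
    have hCX : ∀ (a : ℤ) (i : Fin (N + 1)),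
        homogeneousComponent 1 (C a * X i : MvPolynomial (Fin (N + 1)) ℤ) = C a * X i := by
      intro a i
      rw [homogeneousComponent_C_mul, homogeneousComponent_of_mem (isHomogeneous_X _ i),
        if_pos rfl]
    rw [hg, map_add, map_add, map_add, hCX, hCX, hCX,
      homogeneousComponent_eq_zero 1 (C (c 0)) (by rw [totalDegree_C]; omega), zero_add]
  rw [h2] at h1
  simp only [map_add, map_mul, aeval_C, aeval_X] at h1
  refine ⟨c 1, c 2, c 3, ?_, by simpa using h1⟩
  by_contra hall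
  push Not at hall
  obtain ⟨e1, e2, e3⟩ := hall
  apply hc
  obtain ⟨n, hn⟩ := hn.exists
  rw [Fin.sum_univ_four] at hn
  simp only [e1, e2, e3, zero_mul, add_zero] at hn
  have h0 : c 0 = 0 := by simpa using hn
  funext e
  fin_cases e
  · exact h0
  · exact e1
  · exact e2
  · exact e3

/-- Two independent coordinates of the limits satisfy a rational quadratic equation. -/
lemma quad_dep (T : Tower d f U) (k : ℕ)
    (h : ∀ P : Fin (2 * 2 + 2) → MvPolynomial (Fin (N + 1)) ℤ,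
      (∀ e, (P e).totalDegree ≤ 2) → ∃ c : Fin (2 * 2 + 2) → ℤ, c ≠ 0 ∧
        ∀ᶠ n in U, ∑ e, c e * aeval (T.p k n) (P e) = 0) (i j : Fin (N + 1))
    (hij : ∀ a b : ℤ, a * T.y k i + b * T.y k j = 0 → a = 0 ∧ b = 0) :
    ∃ a b c : ℤ, (a ≠ 0 ∨ b ≠ 0 ∨ c ≠ 0) ∧
      a * T.y k i ^ 2 + b * (T.y k i * T.y k j) + c * T.y k j ^ 2 = 0 := by
  obtain ⟨c, hc, hn⟩ := h ![1, X i, X j, X i ^ 2, X i * X j, X j ^ 2] (by
    intro e
    fin_cases e
    · simp
    · show (X i : MvPolynomial (Fin (N + 1)) ℤ).totalDegree ≤ 2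
      rw [totalDegree_X]
      omega
    · show (X j : MvPolynomial (Fin (N + 1)) ℤ).totalDegree ≤ 2
      rw [totalDegree_X]
      omega
    · show (X i ^ 2 : MvPolynomial (Fin (N + 1)) ℤ).totalDegree ≤ 2
      rw [totalDegree_X_pow]
    · show (X i * X j : MvPolynomial (Fin (N + 1)) ℤ).totalDegree ≤ 2
      refine (totalDegree_mul _ _).trans ?_
      rw [totalDegree_X, totalDegree_X]
    · show (X j ^ 2 : MvPolynomial (Fin (N + 1)) ℤ).totalDegree ≤ 2
      rw [totalDegree_X_pow])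
  have hCX : ∀ (a : ℤ) (i : Fin (N + 1)),
      (C a * X i : MvPolynomial (Fin (N + 1)) ℤ).totalDegree ≤ 1 := by
    intro a i
    refine (totalDegree_mul _ _).trans ?_
    rw [totalDegree_C, totalDegree_X]
  have hCXX : ∀ (a : ℤ) (i j : Fin (N + 1)),
      (C a * (X i * X j) : MvPolynomial (Fin (N + 1)) ℤ).totalDegree ≤ 2 := by
    intro a i j
    refine (totalDegree_mul _ _).trans ?_
    have := totalDegree_mul (X i : MvPolynomial (Fin (N + 1)) ℤ) (X j)
    rw [totalDegree_X, totalDegree_X] at this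
    rw [totalDegree_C]
    omega
  set g1 : MvPolynomial (Fin (N + 1)) ℤ := C (c 0) + C (c 1) * X i + C (c 2) * X j with hg1
  set g : MvPolynomial (Fin (N + 1)) ℤ := g1 + (C (c 3) * (X i * X i) + C (c 4) * (X i * X j) +
    C (c 5) * (X j * X j)) with hg
  have hg1d : g1.totalDegree ≤ 1 := by
    rw [hg1]
    refine (totalDegree_add _ _).trans (max_le ((totalDegree_add _ _).trans
      (max_le ?_ (hCX _ _))) (hCX _ _))
    rw [totalDegree_C]
    omega
  have hgd : g.totalDegree ≤ 2 := by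
    rw [hg]
    refine (totalDegree_add _ _).trans (max_le (hg1d.trans (by omega)) ?_)
    exact (totalDegree_add _ _).trans (max_le ((totalDegree_add _ _).trans
      (max_le (hCXX _ _ _) (hCXX _ _ _))) (hCXX _ _ _))
  have hgn : ∀ᶠ n in U, aeval (T.p k n) g = 0 := by
    filter_upwards [hn] with n h1
    rw [Fin.sum_univ_six] at h1
    rw [hg, hg1]
    simp only [map_add, map_mul, aeval_C, aeval_X]
    simp at h1 ⊢
    linear_combination h1
  have h1 := T.top k 2 g hgd hgn
  rw [H_zero] at h1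
  have h2 : homogeneousComponent 2 g = C (c 3) * (X i * X i) + C (c 4) * (X i * X j) +
      C (c 5) * (X j * X j) := by
    have h3 : ∀ (a : ℤ) (i j : Fin (N + 1)),
        homogeneousComponent 2 (C a * (X i * X j) : MvPolynomial (Fin (N + 1)) ℤ) =
          C a * (X i * X j) := by
      intro a i j
      rw [homogeneousComponent_C_mul,
        homogeneousComponent_of_mem ((isHomogeneous_X _ i).mul (isHomogeneous_X _ j)),
        if_pos rfl]
    rw [hg, map_add, homogeneousComponent_eq_zero 2 g1 (by omega), zero_add, map_add, map_add,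
      h3, h3, h3]
  rw [h2] at h1
  simp only [map_add, map_mul, aeval_C, aeval_X] at h1
  refine ⟨c 3, c 4, c 5, ?_, by
    simp at h1
    linear_combination h1⟩
  by_contra hall
  push Not at hall
  obtain ⟨e3, e4, e5⟩ := hall
  have hgg : g = g1 := by
    rw [hg, e3, e4, e5]
    simp
  rw [hgg] at hgn
  have h4 := T.top k 1 g1 hg1d hgn
  rw [H_zero] at h4
  have h5 : homogeneousComponent 1 g1 = C (c 1) * X i + C (c 2) * X j := by
    have hCX : ∀ (a : ℤ) (i : Fin (N + 1)),
        homogeneousComponent 1 (C a * X i : MvPolynomial (Fin (N + 1)) ℤ) = C a * X i := by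
      intro a i
      rw [homogeneousComponent_C_mul, homogeneousComponent_of_mem (isHomogeneous_X _ i),
        if_pos rfl]
    rw [hg1, map_add, map_add, hCX, hCX,
      homogeneousComponent_eq_zero 1 (C (c 0)) (by rw [totalDegree_C]; omega), zero_add]
  rw [h5] at h4
  simp only [map_add, map_mul, aeval_C, aeval_X] at h4
  obtain ⟨e1, e2⟩ := hij (c 1) (c 2) (by simpa using h4)
  apply hc
  obtain ⟨n, hn⟩ := hn.exists
  rw [Fin.sum_univ_six] at hn
  simp only [e1, e2, e3, e4, e5, zero_mul, add_zero] at hn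
  have h0 : c 0 = 0 := by simpa using hn
  funext e
  fin_cases e
  · exact h0
  · exact e1
  · exact e2
  · exact e3
  · exact e4
  · exact e5

/-- The quotients of the coordinates of the limit generate a field of degree at most two. -/
lemma quad_gen (T : Tower d f U) (k : ℕ)
    (h1 : ∀ P : Fin (2 * 1 + 2) → MvPolynomial (Fin (N + 1)) ℤ,
      (∀ e, (P e).totalDegree ≤ 1) → ∃ c : Fin (2 * 1 + 2) → ℤ, c ≠ 0 ∧
        ∀ᶠ n in U, ∑ e, c e * aeval (T.p k n) (P e) = 0)
    (h2 : ∀ P : Fin (2 * 2 + 2) → MvPolynomial (Fin (N + 1)) ℤ,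
      (∀ e, (P e).totalDegree ≤ 2) → ∃ c : Fin (2 * 2 + 2) → ℤ, c ≠ 0 ∧
        ∀ᶠ n in U, ∑ e, c e * aeval (T.p k n) (P e) = 0)
    (i : Fin (N + 1)) (hi : T.y k i ≠ 0) :
    ∃ (θ : ℝ) (p q : ℚ), θ ^ 2 = p + q * θ ∧
      ∀ r, ∃ a b : ℚ, T.y k r / T.y k i = a + b * θ := by
  by_cases hrat : ∀ r, ∃ a : ℚ, T.y k r / T.y k i = a
  · refine ⟨0, 0, 0, by simp, fun r => ?_⟩
    obtain ⟨a, ha⟩ := hrat r
    exact ⟨a, 0, by simp [ha]⟩
  · push Not at hrat
    obtain ⟨j, hj⟩ := hrat
    set θ := T.y k j / T.y k i with hθ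
    have hyj : T.y k j = θ * T.y k i := by
      rw [hθ]
      field_simp
    have hind : ∀ a b : ℤ, (a : ℝ) + b * θ = 0 → a = 0 ∧ b = 0 := by
      intro a b hab
      have hb : b = 0 := by
        by_contra hb
        apply hj (-(a : ℚ) / b)
        have hb' : (b : ℝ) ≠ 0 := by exact_mod_cast hb
        push_cast
        field_simp
        linarith
      refine ⟨?_, hb⟩
      rw [hb, Int.cast_zero, zero_mul, add_zero] at hab
      exact_mod_cast hab
    have hind' : ∀ a b : ℤ, a * T.y k i + b * T.y k j = 0 → a = 0 ∧ b = 0 := by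
      intro a b hab
      apply hind
      rw [hyj] at hab
      have : ((a : ℝ) + b * θ) * T.y k i = 0 := by linear_combination hab
      exact (mul_eq_zero.1 this).resolve_right hi
    obtain ⟨a, b, c, habc, hq⟩ := quad_dep T k h2 i j hind'
    have hq' : (a : ℝ) + b * θ + c * θ ^ 2 = 0 := by
      rw [hyj] at hq
      have : ((a : ℝ) + b * θ + c * θ ^ 2) * T.y k i ^ 2 = 0 := by linear_combination hq
      exact (mul_eq_zero.1 this).resolve_right (pow_ne_zero _ hi)
    have hc : c ≠ 0 := by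
      intro hc
      rw [hc] at hq' habc
      have := hind a b (by simpa using hq')
      tauto
    have hc' : (c : ℝ) ≠ 0 := by exact_mod_cast hc
    refine ⟨θ, -(a : ℚ) / c, -(b : ℚ) / c, ?_, fun r => ?_⟩
    · push_cast
      field_simp
      linear_combination hq'
    · obtain ⟨a', b', c', habc', hl⟩ := three_dep T k h1 i j r
      have hc1 : c' ≠ 0 := by
        intro hc1
        rw [hc1] at hl habc'
        have := hind' a' b' (by simpa using hl)
        tauto
      have hc2 : (c' : ℝ) ≠ 0 := by exact_mod_cast hc1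
      refine ⟨-(a' : ℚ) / c', -(b' : ℚ) / c', ?_⟩
      push_cast
      rw [hyj] at hl
      field_simp
      linear_combination hl

open IntermediateField

/-- the field generated by the quotients of the coordinates -/
noncomputable def Kf (y : Fin (N + 1) → ℝ) : IntermediateField ℚ ℝ :=
  IntermediateField.adjoin ℚ {t | ∃ i j, y i ≠ 0 ∧ t = y j / y i}

lemma mem_Kf (y : Fin (N + 1) → ℝ) (i j : Fin (N + 1)) (hi : y i ≠ 0) : y j / y i ∈ Kf y :=
  IntermediateField.subset_adjoin _ _ ⟨i, j, hi, rfl⟩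

lemma Kf_le_simple (y : Fin (N + 1) → ℝ) (i : Fin (N + 1)) (hi : y i ≠ 0) (θ : ℝ)
    (h : ∀ r, ∃ a b : ℚ, y r / y i = a + b * θ) : Kf y ≤ ℚ⟮θ⟯ := by
  have h1 : ∀ r, y r / y i ∈ ℚ⟮θ⟯ := by
    intro r
    obtain ⟨a, b, hab⟩ := h r
    rw [hab]
    have hθ : θ ∈ ℚ⟮θ⟯ := IntermediateField.mem_adjoin_simple_self ℚ θ
    have ha : (a : ℝ) ∈ ℚ⟮θ⟯ := ℚ⟮θ⟯.algebraMap_mem a
    have hb : (b : ℝ) ∈ ℚ⟮θ⟯ := ℚ⟮θ⟯.algebraMap_mem b
    exact add_mem ha (mul_mem hb hθ)
  unfold Kf
  rw [IntermediateField.adjoin_le_iff]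
  rintro t ⟨i', j', hi', rfl⟩
  have h2 : y j' / y i' = (y j' / y i) / (y i' / y i) := by
    field_simp
  rw [SetLike.mem_coe, h2]
  exact div_mem (h1 j') (h1 i')

lemma finrank_simple_le (θ : ℝ) (p q : ℚ) (h : θ ^ 2 = p + q * θ) :
    FiniteDimensional ℚ ℚ⟮θ⟯ ∧ Module.finrank ℚ ℚ⟮θ⟯ ≤ 2 := by
  set P : Polynomial ℚ := Polynomial.X ^ 2 - (Polynomial.C q * Polynomial.X + Polynomial.C p)
    with hP
  have hdeg : (Polynomial.C q * Polynomial.X + Polynomial.C p : Polynomial ℚ).degree < 2 :=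
    lt_of_le_of_lt Polynomial.degree_linear_le (by norm_num)
  have hPm : P.Monic := Polynomial.monic_X_pow_sub hdeg
  have hPθ : Polynomial.aeval θ P = 0 := by
    rw [hP]
    simp only [map_sub, map_pow, map_add, map_mul, Polynomial.aeval_X, Polynomial.aeval_C]
    rw [h]
    show (p : ℝ) + q * θ - ((q : ℝ) * θ + (p : ℝ)) = 0
    ring
  have hint : IsIntegral ℚ θ := ⟨P, hPm, by rwa [← Polynomial.aeval_def]⟩
  refine ⟨IntermediateField.adjoin.finiteDimensional hint, ?_⟩
  rw [IntermediateField.adjoin.finrank hint]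
  have h1 := Polynomial.natDegree_le_of_dvd (minpoly.dvd ℚ θ hPθ) hPm.ne_zero
  have h2 : P.natDegree ≤ 2 := by
    rw [hP]
    compute_degree
  omega

lemma Kf_mono (y y' : Fin (N + 1) → ℝ) (hy' : y' ≠ 0)
    (h : ∀ i, aeval y' (homogeneousComponent d (f i)) = y i) : Kf y ≤ Kf y' := by
  obtain ⟨i0, hi0⟩ := Function.ne_iff.1 hy'
  have hi0' : y' i0 ≠ 0 := hi0
  set w : Fin (N + 1) → ℝ := fun r => y' r / y' i0 with hw
  have hyw : ∀ i, y i = y' i0 ^ d * aeval w (homogeneousComponent d (f i)) := by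
    intro i
    rw [← h i, ← aeval_scale _ d (homogeneousComponent_isHomogeneous d (f i))]
    congr 2
    funext r
    rw [hw]
    field_simp
  have hwK : ∀ i, aeval w (homogeneousComponent d (f i)) ∈ Kf y' := by
    intro i
    have h1 : w = fun r => algebraMap (Kf y') ℝ ⟨w r, mem_Kf y' i0 r hi0'⟩ := rfl
    rw [h1, ← map_aevalZ]
    exact (aeval (fun r => (⟨w r, mem_Kf y' i0 r hi0'⟩ : Kf y'))
      (homogeneousComponent d (f i))).2
  conv_lhs => unfold Kf
  rw [IntermediateField.adjoin_le_iff]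
  rintro t ⟨i, j, hi, rfl⟩
  rw [SetLike.mem_coe, hyw i, hyw j, mul_div_mul_left _ _ (pow_ne_zero _ hi0')]
  exact div_mem (hwK j) (hwK i)

/-- The quotients of the coordinates of all limits lie in a fixed number field. -/
theorem fixed_field (T : Tower d f U) (hd : 2 ≤ d) (hdeg : ∀ i, (f i).totalDegree ≤ d) (k1 : ℕ)
    (hdet : ∀ k ≥ k1, (Dm d f (T.y k)).det ≠ 0) :
    ∃ (L : IntermediateField ℚ ℝ) (_ : FiniteDimensional ℚ L) (k2 : ℕ), ∀ k ≥ k2, ∀ i j,
      T.y k i ≠ 0 → T.y k j / T.y k i ∈ L := by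
  obtain ⟨K1, hK1⟩ := sub_dep T hd hdeg k1 hdet 1
  obtain ⟨K2, hK2⟩ := sub_dep T hd hdeg k1 hdet 2
  set K := max K1 K2 with hK
  have hle : ∀ k ≥ K, ∃ θ : ℝ, Kf (T.y k) ≤ ℚ⟮θ⟯ ∧ FiniteDimensional ℚ ℚ⟮θ⟯ ∧
      Module.finrank ℚ ℚ⟮θ⟯ ≤ 2 := by
    intro k hk
    obtain ⟨i, hi⟩ := Function.ne_iff.1 (T.hy0 k)
    obtain ⟨θ, p, q, hθ, h⟩ := quad_gen T k (hK1 k (by omega)) (hK2 k (by omega)) i hi
    exact ⟨θ, Kf_le_simple _ i hi θ h, finrank_simple_le θ p q hθ⟩
  have hfd : ∀ k ≥ K, FiniteDimensional ℚ (Kf (T.y k)) := by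
    intro k hk
    obtain ⟨θ, h1, h2, _⟩ := hle k hk
    exact FiniteDimensional.of_injective (IntermediateField.inclusion h1).toLinearMap
      (IntermediateField.inclusion_injective h1)
  have hrk : ∀ k ≥ K, Module.finrank ℚ (Kf (T.y k)) ≤ 2 := by
    intro k hk
    obtain ⟨θ, h1, h2, h3⟩ := hle k hk
    exact (IntermediateField.finrank_le_of_le_right h1).trans h3
  have hmono : ∀ k k', k ≤ k' → Kf (T.y k) ≤ Kf (T.y k') := by
    intro k k' hkk
    induction k', hkk using Nat.le_induction with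
    | base => exact le_rfl
    | succ k' _ ih => exact ih.trans (Kf_mono (d := d) (f := f) _ _ (T.hy0 _) (T.hy k'))
  -- an index of maximal degree
  obtain ⟨k2, hk2, hmax⟩ : ∃ k2 ≥ K, ∀ k ≥ K, Module.finrank ℚ (Kf (T.y k)) ≤
      Module.finrank ℚ (Kf (T.y k2)) := by
    by_contra hno
    push Not at hno
    have hstep : ∀ n : ℕ, ∃ k ≥ K, n ≤ Module.finrank ℚ (Kf (T.y k)) := by
      intro n
      induction n with
      | zero => exact ⟨K, le_rfl, Nat.zero_le _⟩
      | succ n ih =>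
        obtain ⟨k, hk, h1⟩ := ih
        obtain ⟨k', hk', h2⟩ := hno k hk
        exact ⟨k', hk', by omega⟩
    obtain ⟨k, hk, h1⟩ := hstep 3
    have := hrk k hk
    omega
  refine ⟨Kf (T.y k2), hfd k2 hk2, k2, fun k hk i j hi => ?_⟩
  have h1 := hmono k2 k hk
  have h2 := hfd k (by omega)
  have h3 : Kf (T.y k2) = Kf (T.y k) :=
    IntermediateField.eq_of_le_of_finrank_le h1 (hmax k (by omega))
  rw [h3]
  exact mem_Kf _ i j hi

end Pool.Agent.R847.SG
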