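import Mathlib
import Pool.Agent.R847.SG.Quad

/-!
# The points at infinity of the predecessors are periodic
-/

set_option autoImplicit false

open MvPolynomial Filter Topology Asymptotics Height

namespace Pool.Agent.R847.SG

variable {N d : ℕ} {f : Fin (N + 1) → MvPolynomial (Fin (N + 1)) ℤ} {U : Ultrafilter ℕ}

/-- proportional vectors -/
def PR (u w : Fin (N + 1) → ℝ) : Prop := ∃ τ : ℝ, τ ≠ 0 ∧ ∀ i, u i = τ * w i

lemma PR.symm {u w : Fin (N + 1) → ℝ} (h : PR u w) : PR w u := by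
  obtain ⟨τ, hτ, h⟩ := h
  refine ⟨τ⁻¹, inv_ne_zero hτ, fun i => ?_⟩
  rw [h i, inv_mul_cancel_left₀ hτ]

lemma PR.trans {u v w : Fin (N + 1) → ℝ} (h : PR u v) (h' : PR v w) : PR u w := by
  obtain ⟨τ, hτ, h⟩ := h
  obtain ⟨τ', hτ', h'⟩ := h'
  refine ⟨τ * τ', mul_ne_zero hτ hτ', fun i => ?_⟩
  rw [h i, h' i, mul_assoc]

lemma PR_down (y : ℕ → Fin (N + 1) → ℝ)
    (hy : ∀ k i, aeval (y (k + 1)) (homogeneousComponent d (f i)) = y k i) (a b : ℕ)
    (h : PR (y (a + 1)) (y (b + 1))) : PR (y a) (y b) := by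
  obtain ⟨τ, hτ, h⟩ := h
  refine ⟨τ ^ d, pow_ne_zero _ hτ, fun i => ?_⟩
  have h1 : y (a + 1) = fun i => τ * y (b + 1) i := funext h
  rw [← hy a i, h1, aeval_scale _ d (homogeneousComponent_isHomogeneous d (f i)), hy b i]

lemma PR_downs (y : ℕ → Fin (N + 1) → ℝ)
    (hy : ∀ k i, aeval (y (k + 1)) (homogeneousComponent d (f i)) = y k i) (a b t : ℕ)
    (h : PR (y (a + t)) (y (b + t))) : PR (y a) (y b) := by
  induction t with
  | zero => exact h
  | succ t ih => exact ih (PR_down y hy _ _ h)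

lemma exists_closure_hom (K : Type) [Field K] (φ : K →+* ℂ) :
    Nonempty (AlgebraicClosure K →+* ℂ) := by
  let : Algebra K ℂ := φ.toAlgebra
  exact ⟨(IsAlgClosed.lift (M := ℂ) (R := K) (S := AlgebraicClosure K)).toRingHom⟩

/-- Backward orbits over a number field are periodic. -/
theorem periodic (hd : 2 ≤ d)
    (hreg : ∀ z : Fin (N + 1) → ℂ, (∀ i, aeval z (homogeneousComponent d (f i)) = 0) → z = 0)
    (y : ℕ → Fin (N + 1) → ℝ) (hy0 : ∀ k, y k ≠ 0)
    (hy : ∀ k i, aeval (y (k + 1)) (homogeneousComponent d (f i)) = y k i)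
    (L : IntermediateField ℚ ℝ) (hL : FiniteDimensional ℚ L) (k2 : ℕ)
    (hmem : ∀ k ≥ k2, ∀ i j, y k i ≠ 0 → y k j / y k i ∈ L) :
    ∃ l ≥ 1, ∀ k, PR (y (k + l)) (y k) := by
  classical
  have : NumberField L := { to_charZero := inferInstance, to_finiteDimensional := hL }
  set F : Fin (N + 1) → MvPolynomial (Fin (N + 1)) L :=
    fun i => map (Int.castRingHom L) (homogeneousComponent d (f i)) with hF
  have hFhom : ∀ i, (F i).IsHomogeneous d := fun i =>
    (homogeneousComponent_isHomogeneous d (f i)).map _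
  have hFev : ∀ (A : Type) [CommRing A] [Algebra L A] (x : Fin (N + 1) → A) (i : Fin (N + 1)),
      aeval x (F i) = aeval x (homogeneousComponent d (f i)) := by
    intro A _ _ x i
    rw [hF, aeval_def, eval₂_map, aeval_def]
    congr 1
    exact RingHom.ext_int _ _
  have h0 : ∀ x : Fin (N + 1) → AlgebraicClosure L, (∀ i, aeval x (F i) = 0) → x = 0 := by
    intro x hx
    obtain ⟨σ⟩ := exists_closure_hom L ((algebraMap ℝ ℂ).comp (algebraMap L ℝ))
    have h1 := hreg (fun i => σ (x i)) fun i => by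
      have h2 := hx i
      rw [hFev] at h2
      rw [← map_aevalZ σ, h2, map_zero]
    funext i
    have h2 := congrFun h1 i
    exact (map_eq_zero σ).1 h2
  obtain ⟨C, hC⟩ := Pool.Agent.R847.HG.exists_lower F hFhom h0
  -- normalised vectors
  have hnz : ∀ k, ∃ i, y k i ≠ 0 := fun k => Function.ne_iff.1 (hy0 k)
  choose ix hix using hnz
  set v : ℕ → Fin (N + 1) → L := fun n j =>
    ⟨y (k2 + n) j / y (k2 + n) (ix (k2 + n)), hmem _ (by omega) _ _ (hix _)⟩ with hv
  have hvix : ∀ n, v n (ix (k2 + n)) = 1 := by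
    intro n
    apply Subtype.ext
    show y (k2 + n) (ix (k2 + n)) / y (k2 + n) (ix (k2 + n)) = 1
    exact div_self (hix _)
  have hyv : ∀ n j, y (k2 + n) j = y (k2 + n) (ix (k2 + n)) * (v n j : ℝ) := by
    intro n j
    show _ = y (k2 + n) (ix (k2 + n)) * (y (k2 + n) j / y (k2 + n) (ix (k2 + n)))
    have := hix (k2 + n)
    field_simp
  have hstep : ∀ n, ∃ c : L, c ≠ 0 ∧ Pool.Agent.R847.HG.stepR F (v (n + 1)) = c • v n := by
    intro n
    set c : L := Pool.Agent.R847.HG.stepR F (v (n + 1)) (ix (k2 + n)) with hc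
    have h1 : ∀ j, y (k2 + n) j = y (k2 + (n + 1)) (ix (k2 + (n + 1))) ^ d *
        ((Pool.Agent.R847.HG.stepR F (v (n + 1)) j : L) : ℝ) := by
      intro j
      have h2 : ((Pool.Agent.R847.HG.stepR F (v (n + 1)) j : L) : ℝ) =
          aeval (fun i => ((v (n + 1) i : L) : ℝ)) (homogeneousComponent d (f j)) := by
        show algebraMap L ℝ (aeval (v (n + 1)) (F j)) = _
        rw [hFev, map_aevalZ]
        rfl
      rw [h2, ← aeval_scale _ d (homogeneousComponent_isHomogeneous d (f j))]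
      have h3 : (fun i => y (k2 + (n + 1)) (ix (k2 + (n + 1))) * ((v (n + 1) i : L) : ℝ)) =
          y (k2 + n + 1) := by
        funext i
        exact (hyv (n + 1) i).symm
      rw [h3, hy]
    have hA : y (k2 + (n + 1)) (ix (k2 + (n + 1))) ^ d ≠ 0 := pow_ne_zero _ (hix _)
    have hcA : y (k2 + n) (ix (k2 + n)) = y (k2 + (n + 1)) (ix (k2 + (n + 1))) ^ d * (c : ℝ) :=
      h1 _
    have hc0 : c ≠ 0 := by
      intro h
      apply hix (k2 + n)
      rw [hcA, h]
      simp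
    refine ⟨c, hc0, ?_⟩
    funext j
    apply Subtype.ext
    have h2 := h1 j
    rw [hyv n j, hcA, mul_assoc] at h2
    have h3 := mul_left_cancel₀ hA h2
    rw [← h3]
    rfl
  -- the heights are bounded
  set B := max (logHeight (v 0)) |C| with hB
  have hBd : ∀ n, logHeight (v n) ≤ B := by
    intro n
    induction n with
    | zero => exact le_max_left _ _
    | succ n ih =>
      obtain ⟨c, hc0, hc⟩ := hstep n
      have h1 := hC (v (n + 1))
      rw [hc] at h1
      have h2 : logHeight (c • v n) = logHeight (v n) := by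
        rw [logHeight_eq_log_mulHeight, mulHeight_smul_eq_mulHeight _ hc0,
          ← logHeight_eq_log_mulHeight]
      rw [h2] at h1
      have h3 : |C| ≤ B := le_max_right _ _
      have h4 := neg_abs_le C
      have h5 : (2 : ℝ) ≤ d := by exact_mod_cast hd
      have h6 : 0 ≤ logHeight (v (n + 1)) := Real.log_nonneg (one_le_mulHeight _)
      have h7 : 2 * logHeight (v (n + 1)) ≤ d * logHeight (v (n + 1)) :=
        mul_le_mul_of_nonneg_right h5 h6
      linarith
  have hBm : ∀ n j, mulHeight₁ (v n j) ≤ Real.exp B := by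
    intro n j
    have h1 := Pool.Agent.R847.HG.ratio_le (v n) (ix (k2 + n)) j
    rw [hvix, div_one] at h1
    refine h1.trans ?_
    have h2 := hBd n
    rw [logHeight_eq_log_mulHeight] at h2
    exact Real.le_exp_of_log_le h2
  have hfin : {z : L | mulHeight₁ z ≤ Real.exp B}.Finite := Northcott.finite_le (Real.exp B)
  have hfin2 : (Set.pi Set.univ fun _ : Fin (N + 1) => {z : L | mulHeight₁ z ≤ Real.exp B}).Finite :=
    Set.Finite.pi fun _ => hfin
  obtain ⟨w, _, hw⟩ : ∃ w ∈ (Set.pi Set.univ fun _ : Fin (N + 1) =>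
      {z : L | mulHeight₁ z ≤ Real.exp B}), {n | v n = w}.Infinite := by
    by_contra hno
    push Not at hno
    have h1 : (Set.univ : Set ℕ) = ⋃ w ∈ (Set.pi Set.univ fun _ : Fin (N + 1) =>
      {z : L | mulHeight₁ z ≤ Real.exp B}), {n | v n = w} := by
      ext n
      simp only [Set.mem_univ, true_iff, Set.mem_iUnion]
      exact ⟨v n, fun j _ => hBm n j, rfl⟩
    have h2 : (Set.univ : Set ℕ).Finite := by
      rw [h1]
      exact hfin2.biUnion fun w hw => Set.not_infinite.1 (by simpa using hno w hw)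
    exact Set.infinite_univ h2
  have hPRw : ∀ n, v n = w → PR (y (k2 + n)) (fun j => ((w j : L) : ℝ)) := by
    intro n hn
    refine ⟨_, hix (k2 + n), fun j => ?_⟩
    rw [← hn]
    exact hyv n j
  obtain ⟨m1, hm1⟩ := hw.nonempty
  obtain ⟨m2, hm2, h12⟩ := hw.exists_gt m1
  refine ⟨m2 - m1, by omega, fun k => ?_⟩
  obtain ⟨m3, hm3, h13⟩ := hw.exists_gt (k + m2 + m1)
  have e1 : PR (y (k2 + m3)) (y (k2 + m2)) := (hPRw m3 hm3).trans (hPRw m2 hm2).symm
  have e2 : PR (y (k2 + m3 - (m2 - m1))) (y (k2 + m1)) := by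
    apply PR_downs (d := d) (f := f) y hy _ _ (m2 - m1)
    have a1 : k2 + m3 - (m2 - m1) + (m2 - m1) = k2 + m3 := by omega
    have a2 : k2 + m1 + (m2 - m1) = k2 + m2 := by omega
    rw [a1, a2]
    exact e1
  have e3 : PR (y (k2 + m3)) (y (k2 + m3 - (m2 - m1))) :=
    ((hPRw m3 hm3).trans (hPRw m1 hm1).symm).trans e2.symm
  apply PR_downs (d := d) (f := f) y hy _ _ (k2 + m3 - (m2 - m1) - k)
  have a1 : k + (m2 - m1) + (k2 + m3 - (m2 - m1) - k) = k2 + m3 := by omega
  have a2 : k + (k2 + m3 - (m2 - m1) - k) = k2 + m3 - (m2 - m1) := by omega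
  rw [a1, a2]
  exact e3

/-- Periodicity of the limits, with real algebraic factors. -/
theorem Tower.periodic (T : Tower d f U) (hd : 2 ≤ d) (hdeg : ∀ i, (f i).totalDegree ≤ d)
    (hreg : ∀ z : Fin (N + 1) → ℂ, (∀ i, aeval z (homogeneousComponent d (f i)) = 0) → z = 0)
    (k1 : ℕ) (hdet : ∀ k ≥ k1, (Dm d f (T.y k)).det ≠ 0) :
    ∃ l ≥ 1, ∃ τ : ℕ → RA, (∀ j, τ j ≠ 0) ∧
      ∀ j i, T.yE (k1 + j + l) i = τ j * T.yE (k1 + j) i := by
  obtain ⟨L, hL, k2, hmem⟩ := fixed_field T hd hdeg k1 hdet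
  obtain ⟨l, hl, h⟩ := SG.periodic (d := d) (f := f) hd hreg T.y T.hy0 T.hy L hL k2 hmem
  refine ⟨l, hl, ?_⟩
  have hex : ∀ j, ∃ τ : RA, τ ≠ 0 ∧ ∀ i, T.yE (k1 + j + l) i = τ * T.yE (k1 + j) i := by
    intro j
    obtain ⟨τ, hτ, h1⟩ := h (k1 + j)
    obtain ⟨i0, hi0⟩ := Function.ne_iff.1 (T.hy0 (k1 + j))
    have hi0' : T.y (k1 + j) i0 ≠ 0 := hi0
    have h2 : τ = T.y (k1 + j + l) i0 / T.y (k1 + j) i0 := by
      rw [h1 i0]
      field_simp
    have h3 : τ ∈ RA := by
      rw [h2]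
      exact div_mem (mem_algebraicClosure_iff.2 (T.halg _ _))
        (mem_algebraicClosure_iff.2 (T.halg _ _))
    refine ⟨⟨τ, h3⟩, ?_, fun i => ?_⟩
    · intro h4
      exact hτ (congrArg Subtype.val h4)
    · apply Subtype.ext
      exact h1 i
  choose τ hτ h using hex
  exact ⟨τ, hτ, h⟩

end Pool.Agent.R847.SG
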