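import Mathlib
import Pool.Agent.R847.SG.Per

/-!
# The closures of the return points are periodic
-/

set_option autoImplicit false

open MvPolynomial Filter Topology Asymptotics

namespace Pool.Agent.R847.SG

variable {N d : ℕ} {f : Fin (N + 1) → MvPolynomial (Fin (N + 1)) ℤ} {U : Ultrafilter ℕ}

/-- the equations of the `k`-th predecessors -/
def Tower.Pid (T : Tower d f U) (k : ℕ) : Ideal (MvPolynomial (Fin (N + 1)) ℤ) where
  carrier := {g | ∀ᶠ n in U, aeval (T.p k n) g = 0}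
  add_mem' := by
    intro a b ha hb
    filter_upwards [ha, hb] with n h1 h2
    rw [map_add, h1, h2, add_zero]
  zero_mem' := Eventually.of_forall fun n => map_zero _
  smul_mem' := by
    intro c g hg
    filter_upwards [hg] with n h1
    rw [smul_eq_mul, map_mul, h1, mul_zero]

lemma Tower.mem_Pid (T : Tower d f U) (k : ℕ) (g : MvPolynomial (Fin (N + 1)) ℤ) :
    g ∈ T.Pid k ↔ ∀ᶠ n in U, aeval (T.p k n) g = 0 := Iff.rfl

lemma Tower.Pid_prime (T : Tower d f U) (k : ℕ) (g h : MvPolynomial (Fin (N + 1)) ℤ)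
    (hgh : g * h ∈ T.Pid k) (hg : g ∉ T.Pid k) : h ∈ T.Pid k := by
  rw [T.mem_Pid] at hgh hg ⊢
  have h1 : ∀ᶠ n in U, ¬ aeval (T.p k n) g = 0 := Ultrafilter.eventually_not.2 hg
  filter_upwards [hgh, h1] with n e1 e2
  rw [map_mul] at e1
  exact (mul_eq_zero.1 e1).resolve_left e2

lemma Tower.comp_mem (T : Tower d f U) (k : ℕ) (g : MvPolynomial (Fin (N + 1)) ℤ)
    (hg : g ∈ T.Pid k) : bind₁ f g ∈ T.Pid (k + 1) := by
  rw [T.mem_Pid] at hg ⊢
  filter_upwards [hg, T.hf k] with n h1 h2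
  rw [aeval_bind₁]
  have h3 : (fun i => aeval (T.p (k + 1) n) (f i)) = T.p k n := funext h2
  rw [h3, h1]

lemma Tower.comps_mem (T : Tower d f U) (k t : ℕ) (g : MvPolynomial (Fin (N + 1)) ℤ)
    (hg : g ∈ T.Pid k) : (bind₁ f)^[t] g ∈ T.Pid (k + t) := by
  induction t with
  | zero => exact hg
  | succ t ih =>
    rw [Function.iterate_succ_apply', ← add_assoc]
    exact T.comp_mem _ _ ih

/-- A coordinate on which a nonzero polynomial in one variable vanishes is bounded. -/
lemma Tower.coord (T : Tower d f U) (k : ℕ) (i : Fin (N + 1)) (hi : T.y k i ≠ 0)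
    (r : Polynomial ℤ) (hr : Polynomial.aeval (X i : MvPolynomial (Fin (N + 1)) ℤ) r ∈ T.Pid k) :
    r = 0 := by
  by_contra hr0
  apply hi
  rw [T.mem_Pid] at hr
  have h1 : ∀ᶠ n in U, (T.p k n i) ∈ r.roots.toFinset := by
    filter_upwards [hr] with n hn
    rw [Multiset.mem_toFinset, Polynomial.mem_roots hr0, Polynomial.IsRoot.def]
    rw [← Polynomial.aeval_algHom_apply, aeval_X] at hn
    rw [← hn, Polynomial.coe_aeval_eq_eval]
  set C : ℝ := ∑ a ∈ r.roots.toFinset, |(a : ℝ)| with hC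
  have h2 : ∀ᶠ n in U, ‖(T.p k n i : ℝ)‖ ≤ C * ‖(1 : ℝ)‖ := by
    filter_upwards [h1] with n hn
    rw [norm_one, mul_one, Real.norm_eq_abs]
    exact Finset.single_le_sum (f := fun a : ℤ => |(a : ℝ)|) (fun _ _ => abs_nonneg _) hn
  have h3 : (fun n => (T.p k n i : ℝ)) =O[(U : Filter ℕ)] fun _ => (1 : ℝ) := IsBigO.of_bound C h2
  have h4 : (fun n => T.z k n i) =O[(U : Filter ℕ)] fun n => (T.S k n)⁻¹ := by
    have h5 := h3.mul (isBigO_refl (fun n => (T.S k n)⁻¹) (U : Filter ℕ))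
    refine h5.congr' ?_ ?_
    · filter_upwards [T.hp k, (T.hS k).eventually_gt_atTop 0] with n e1 e2
      rw [e1 i]
      field_simp
    · filter_upwards with n
      rw [one_mul]
  exact tendsto_nhds_unique (tendsto_pi_nhds.1 (T.hz k) i) (h4.trans_tendsto (T.hε k))

/-- the equations of almost all predecessors in a residue class -/
def Tower.Pinf (T : Tower d f U) (l : ℕ) : Ideal (MvPolynomial (Fin (N + 1)) ℤ) where
  carrier := {g | ∀ᶠ j in atTop, g ∈ T.Pid (j * l)}
  add_mem' := by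
    intro a b ha hb
    filter_upwards [ha, hb] with n h1 h2
    exact add_mem h1 h2
  zero_mem' := Eventually.of_forall fun n => zero_mem _
  smul_mem' := by
    intro c g hg
    filter_upwards [hg] with n h1
    exact Ideal.mul_mem_left _ _ h1

lemma Tower.mem_Pinf (T : Tower d f U) (l : ℕ) (g : MvPolynomial (Fin (N + 1)) ℤ) :
    g ∈ T.Pinf l ↔ ∀ᶠ j in atTop, g ∈ T.Pid (j * l) := Iff.rfl

/-- powers of `g` with coefficients polynomials in one coordinate -/
lemma Tower.elim (T : Tower d f U) (l j : ℕ) (i : Fin (N + 1)) (hi : T.y (j * l) i ≠ 0)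
    (g : MvPolynomial (Fin (N + 1)) ℤ) (hg : g ∈ T.Pid (j * l))
    (hcancel : ∀ h, g * h ∈ T.Pinf l → h ∈ T.Pinf l) (hle : T.Pinf l ≤ T.Pid (j * l)) (n : ℕ) :
    ∀ r : ℕ → Polynomial ℤ, ∑ b ∈ Finset.range n,
      Polynomial.aeval (X i : MvPolynomial (Fin (N + 1)) ℤ) (r b) * g ^ b ∈ T.Pinf l →
      ∀ b < n, r b = 0 := by
  induction n with
  | zero =>
    intro r _ b hb
    omega
  | succ n ih =>
    intro r hr b hb
    rw [Finset.sum_range_succ'] at hr
    rw [pow_zero, mul_one] at hr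
    have h1 : ∑ b ∈ Finset.range n, Polynomial.aeval (X i : MvPolynomial (Fin (N + 1)) ℤ)
        (r (b + 1)) * g ^ (b + 1) = g * ∑ b ∈ Finset.range n,
        Polynomial.aeval (X i : MvPolynomial (Fin (N + 1)) ℤ) (r (b + 1)) * g ^ b := by
      rw [Finset.mul_sum]
      refine Finset.sum_congr rfl fun b _ => ?_
      ring
    rw [h1] at hr
    have h0 : r 0 = 0 := by
      apply T.coord (j * l) i hi
      have h2 := hle hr
      exact (Ideal.add_mem_iff_right _ (Ideal.mul_mem_right _ _ hg)).1 h2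
    rw [h0, map_zero, add_zero] at hr
    have h3 := ih (fun b => r (b + 1)) (hcancel _ hr)
    rcases Nat.eq_zero_or_pos b with rfl | hb'
    · exact h0
    · have h4 := h3 (b - 1) (by omega)
      rwa [Nat.sub_add_cancel hb'] at h4

/-- The equations stabilise along a residue class. -/
theorem Tower.stable (T : Tower d f U) (l : ℕ) (hl : 1 ≤ l)
    (hmon : ∀ m : ℕ, ∃ K, ∀ k ≥ K, ∀ g : MvPolynomial (Fin (N + 1)) ℤ, g.totalDegree ≤ m →
      g ∈ T.Pid k → g ∈ T.Pid (k + l))
    (hsub : ∀ m : ℕ, ∃ K, ∀ k ≥ K, ∀ P : Fin (2 * m + 2) → MvPolynomial (Fin (N + 1)) ℤ,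
      (∀ e, (P e).totalDegree ≤ m) → ∃ c : Fin (2 * m + 2) → ℤ, c ≠ 0 ∧
        ∑ e, C (c e) * P e ∈ T.Pid k) :
    ∃ j, T.Pid (j * l) = T.Pinf l := by
  classical
  have hup : ∀ m : ℕ, ∃ K, ∀ j ≥ K, ∀ g : MvPolynomial (Fin (N + 1)) ℤ, g.totalDegree ≤ m →
      g ∈ T.Pid (j * l) → g ∈ T.Pinf l := by
    intro m
    obtain ⟨K, hK⟩ := hmon m
    refine ⟨K, fun j hj g hg h => ?_⟩
    rw [T.mem_Pinf, eventually_atTop]
    refine ⟨j, fun j' hj' => ?_⟩
    induction j', hj' using Nat.le_induction with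
    | base => exact h
    | succ j' hj'' ih =>
      rw [add_mul, one_mul]
      apply hK _ _ g hg ih
      calc K ≤ j' * 1 := by omega
        _ ≤ j' * l := Nat.mul_le_mul_left _ hl
  -- finite generation
  obtain ⟨s, hs⟩ := (isNoetherian_def.1 (inferInstance :
    IsNoetherian (MvPolynomial (Fin (N + 1)) ℤ) (MvPolynomial (Fin (N + 1)) ℤ))) (T.Pinf l)
  have hev : ∀ᶠ j in atTop, ∀ g ∈ s, g ∈ T.Pid (j * l) := by
    rw [Filter.eventually_all_finset]
    intro g hg
    have h1 : g ∈ T.Pinf l := by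
      rw [← hs]
      exact Submodule.subset_span hg
    exact h1
  obtain ⟨j, hj⟩ := hev.exists
  have hle : T.Pinf l ≤ T.Pid (j * l) := by
    rw [← hs]
    exact Submodule.span_le.2 hj
  refine ⟨j, le_antisymm (fun g hg => ?_) hle⟩
  by_contra hgn
  obtain ⟨i, hi⟩ := Function.ne_iff.1 (T.hy0 (j * l))
  set e := g.totalDegree + 1 with he
  set m := 6 * e with hm
  set q := 4 * e + 1 with hq
  obtain ⟨K0, hK0⟩ := hup g.totalDegree
  obtain ⟨K1, hK1⟩ := hup m
  obtain ⟨K2, hK2⟩ := hsub m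
  have hcancel : ∀ h, g * h ∈ T.Pinf l → h ∈ T.Pinf l := by
    intro h hgh
    rw [T.mem_Pinf] at hgh ⊢
    filter_upwards [hgh, eventually_ge_atTop K0] with j' h1 h2
    apply T.Pid_prime _ _ _ h1
    intro h3
    exact hgn (hK0 j' h2 g le_rfl h3)
  -- an injection into the exponents
  have hcard : Fintype.card (Fin (2 * m + 2)) ≤ Fintype.card (Fin 3 × Fin q) := by
    rw [Fintype.card_prod, Fintype.card_fin, Fintype.card_fin, Fintype.card_fin, hm, hq]
    omega
  obtain ⟨η⟩ := Function.Embedding.nonempty_of_card_le hcard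
  obtain ⟨c, hc, hR⟩ := hK2 ((K1 + K2) * l) (by nlinarith)
    (fun t => X i ^ ((η t).2 : ℕ) * g ^ ((η t).1 : ℕ)) (by
      intro t
      refine (totalDegree_mul _ _).trans ?_
      have h1 : (X i ^ ((η t).2 : ℕ) : MvPolynomial (Fin (N + 1)) ℤ).totalDegree ≤ 4 * e := by
        rw [totalDegree_X_pow]
        have := (η t).2.2
        omega
      have h2 : (g ^ ((η t).1 : ℕ)).totalDegree ≤ 2 * e := by
        refine (totalDegree_pow _ _).trans ?_
        have := (η t).1.2
        nlinarith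
      omega)
  set R := ∑ t, C (c t) * (X i ^ ((η t).2 : ℕ) * g ^ ((η t).1 : ℕ)) with hRdef
  have hRdeg : R.totalDegree ≤ m := by
    rw [hRdef]
    apply totalDegree_finsetSum_le
    intro t _
    refine (totalDegree_mul _ _).trans ?_
    rw [totalDegree_C, zero_add]
    refine (totalDegree_mul _ _).trans ?_
    have h1 : (X i ^ ((η t).2 : ℕ) : MvPolynomial (Fin (N + 1)) ℤ).totalDegree ≤ 4 * e := by
      rw [totalDegree_X_pow]
      have := (η t).2.2
      omega
    have h2 : (g ^ ((η t).1 : ℕ)).totalDegree ≤ 2 * e := by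
      refine (totalDegree_pow _ _).trans ?_
      have := (η t).1.2
      nlinarith
    omega
  have hRinf : R ∈ T.Pinf l := hK1 (K1 + K2) (by omega) R hRdeg hR
  set c' : Fin 3 × Fin q → ℤ := Function.extend η c 0 with hc'
  set r : ℕ → Polynomial ℤ := fun b => if hb : b < 3 then
    ∑ a : Fin q, Polynomial.C (c' (⟨b, hb⟩, a)) * Polynomial.X ^ (a : ℕ) else 0 with hr
  have hReq : R = ∑ b ∈ Finset.range 3,
      Polynomial.aeval (X i : MvPolynomial (Fin (N + 1)) ℤ) (r b) * g ^ b := by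
    have h1 : R = ∑ p : Fin 3 × Fin q, C (c' p) * (X i ^ (p.2 : ℕ) * g ^ (p.1 : ℕ)) := by
      rw [hRdef, ← Finset.sum_subset (Finset.subset_univ (Finset.univ.map η)), Finset.sum_map]
      · refine Finset.sum_congr rfl fun t _ => ?_
        rw [hc', η.injective.extend_apply]
      · intro p _ hp
        have h2 : ¬ ∃ t, η t = p := by
          rintro ⟨t, rfl⟩
          exact hp (Finset.mem_map_of_mem η (Finset.mem_univ t))
        rw [hc', Function.extend_apply' _ _ _ h2]
        simp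
    rw [h1, Fintype.sum_prod_type, ← Fin.sum_univ_eq_sum_range
      (fun b => Polynomial.aeval (X i : MvPolynomial (Fin (N + 1)) ℤ) (r b) * g ^ b)]
    refine Finset.sum_congr rfl fun b _ => ?_
    rw [hr]
    simp only [b.2, dif_pos, Fin.eta, map_sum, map_mul, Polynomial.aeval_C, map_pow,
      Polynomial.aeval_X]
    rw [Finset.sum_mul]
    refine Finset.sum_congr rfl fun a _ => ?_
    rw [mul_assoc]
    rfl
  rw [hReq] at hRinf
  have hall := T.elim l j i hi g hg hcancel hle 3 r hRinf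
  apply hc
  funext t
  have h1 := hall (η t).1 (η t).1.2
  rw [hr] at h1
  simp only [(η t).1.2, dif_pos, Fin.eta] at h1
  have h2 := congrArg (fun p => Polynomial.coeff p ((η t).2 : ℕ)) h1
  simp only [Polynomial.finsetSum_coeff, Polynomial.coeff_C_mul, Polynomial.coeff_X_pow,
    Polynomial.coeff_zero] at h2
  rw [Finset.sum_eq_single (η t).2] at h2
  · rw [if_pos rfl, mul_one] at h2
    have h3 : ((η t).1, (η t).2) = η t := rfl
    rw [h3, hc', η.injective.extend_apply] at h2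
    exact h2
  · intro a _ ha
    rw [if_neg, mul_zero]
    intro h
    exact ha (Fin.ext h.symm)
  · intro h
    exact absurd (Finset.mem_univ _) h

/-- Almost all return points have a fixed arithmetic progression of returns. -/
theorem Tower.fin (T : Tower d f U) (hd : 2 ≤ d) (hdeg : ∀ i, (f i).totalDegree ≤ d)
    (hreg : ∀ z : Fin (N + 1) → ℂ, (∀ i, aeval z (homogeneousComponent d (f i)) = 0) → z = 0)
    (x : ℕ → Fin (N + 1) → ℤ) (hx : ∀ n i, x (n + 1) i = aeval (x n) (f i))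
    (hTx : ∀ k n, T.p k n = x (n - k)) (hU : (U : Filter ℕ) ≤ atTop)
    (k1 : ℕ) (hdet : ∀ k ≥ k1, (Dm d f (T.y k)).det ≠ 0) :
    ∃ l ≥ 1, ∀ᶠ n in U, ∀ t, ∀ h : MvPolynomial (Fin (N + 1)) ℤ,
      (∀ᶠ n' in U, aeval (x n') h = 0) → aeval (x (n + l * t)) h = 0 := by
  classical
  obtain ⟨l, hl, τ, hτ, hyl⟩ := T.periodic hd hdeg hreg k1 hdet
  refine ⟨l, hl, ?_⟩
  obtain ⟨j, hj⟩ := T.stable l hl (fun m => mon T hd hdeg k1 hdet l τ hτ hyl m) (by
    intro m
    obtain ⟨K, hK⟩ := sub_dep T hd hdeg k1 hdet m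
    refine ⟨K, fun k hk P hP => ?_⟩
    obtain ⟨c, hc, h⟩ := hK k hk P hP
    refine ⟨c, hc, ?_⟩
    rw [T.mem_Pid]
    filter_upwards [h] with n hn
    rw [map_sum, ← hn]
    refine Finset.sum_congr rfl fun e _ => ?_
    rw [map_mul, aeval_C]
    rfl)
  set k := j * l with hk
  -- invariance
  have hinv : ∀ g ∈ T.Pid k, (bind₁ f)^[l] g ∈ T.Pid k := by
    intro g hg
    rw [hj, T.mem_Pinf] at hg ⊢
    rw [eventually_atTop] at hg ⊢
    obtain ⟨a, ha⟩ := hg
    refine ⟨a + 1, fun b hb => ?_⟩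
    have h1 := T.comps_mem ((b - 1) * l) l g (ha (b - 1) (by omega))
    have h2 : (b - 1) * l + l = b * l := by
      obtain ⟨b', rfl⟩ : ∃ b', b = b' + 1 := ⟨b - 1, by omega⟩
      rw [Nat.add_sub_cancel]
      ring
    rwa [h2] at h1
  have hcomp : ∀ (t m : ℕ) (g : MvPolynomial (Fin (N + 1)) ℤ),
      aeval (x m) ((bind₁ f)^[t] g) = aeval (x (m + t)) g := by
    intro t
    induction t with
    | zero => intro m g; rfl
    | succ t ih =>
      intro m g
      rw [Function.iterate_succ_apply', aeval_bind₁]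
      have h1 : (fun i => aeval (x m) (f i)) = x (m + 1) := by
        funext i
        exact (hx m i).symm
      rw [h1, ih]
      congr 2
      ring_nf
  obtain ⟨s, hs⟩ := (isNoetherian_def.1 (inferInstance :
    IsNoetherian (MvPolynomial (Fin (N + 1)) ℤ) (MvPolynomial (Fin (N + 1)) ℤ))) (T.Pid k)
  have hev : ∀ᶠ n in U, ∀ g ∈ s, aeval (T.p k n) g = 0 := by
    rw [Filter.eventually_all_finset]
    intro g hg
    have h1 : g ∈ T.Pid k := by
      rw [← hs]
      exact Submodule.subset_span hg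
    exact h1
  have hge : ∀ᶠ n in U, k ≤ n := hU (eventually_ge_atTop k)
  filter_upwards [hev, hge] with n h1 h2
  have h3 : ∀ g ∈ T.Pid k, aeval (x (n - k)) g = 0 := by
    intro g hg
    rw [← hs] at hg
    have h4 : T.Pid k ≤ RingHom.ker (aeval (x (n - k)) : MvPolynomial (Fin (N + 1)) ℤ →ₐ[ℤ] ℤ) := by
      rw [← hs]
      apply Submodule.span_le.2
      intro g hg
      rw [SetLike.mem_coe, RingHom.mem_ker, ← hTx]
      exact h1 g hg
    rw [hs] at hg
    exact (RingHom.mem_ker).1 (h4 hg)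
  have h4 : ∀ t, ∀ g ∈ T.Pid k, aeval (x (n - k + l * t)) g = 0 := by
    intro t
    induction t with
    | zero => exact h3
    | succ t ih =>
      intro g hg
      have h5 := ih _ (hinv g hg)
      rw [hcomp] at h5
      have e1 : n - k + l * (t + 1) = n - k + l * t + l := by ring
      rw [e1, h5]
  intro t h hh
  have h5 : h ∈ T.Pid 0 := by
    rw [T.mem_Pid]
    filter_upwards [hh] with n hn
    rw [hTx]
    exact hn
  have h6 := T.comps_mem 0 k h h5
  rw [zero_add] at h6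
  have h7 := h4 t _ h6
  rw [hcomp] at h7
  have e1 : n + l * t = n - k + l * t + k := by
    generalize l * t = w
    omega
  rw [e1, h7]

end Pool.Agent.R847.SG
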