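import Mathlib
import Pool.Agent.R847.SG.End
import Pool.Agent.R847.HG.Curve

/-!
# Dynamical Mordell-Lang for curves and integral points of regular polynomial endomorphisms
-/

set_option autoImplicit false

open MvPolynomial Filter Topology Asymptotics

namespace Pool.Agent.R847.SG

/-- Compactness: sets of natural numbers whose members are, locally along each ultrafilter, starts
of progressions contained in the set. -/
theorem compact_AP (Z : Set ℕ)
    (h : ∀ U : Ultrafilter ℕ, (U : Filter ℕ) ≤ atTop → Z ∈ U →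
      ∃ r ≥ 1, ∀ᶠ n in U, ∀ t, n + r * t ∈ Z) :
    ∃ T : Finset (ℕ × ℕ), Z = {n : ℕ | ∃ q ∈ T, ∃ m : ℕ, n = q.1 * m + q.2} := by
  classical
  set B : ℕ → Set ℕ := fun r => {n | ∀ t, n + r.factorial * t ∈ Z} with hB
  have hmono : ∀ r r', r ≤ r' → B r ⊆ B r' := by
    intro r r' hr n hn t
    obtain ⟨c, hc⟩ := Nat.factorial_dvd_factorial hr
    have h1 := hn (c * t)
    rw [hc]
    convert h1 using 1
    ring
  have hfin : ∃ r, (Z \ B r).Finite := by
    by_contra hno
    push Not at hno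
    set D : ℕ → Set ℕ := fun r => (Z \ B r) ∩ Set.Ici r with hD
    have hDne : ∀ r, (D r).Nonempty := by
      intro r
      obtain ⟨n, hn, hrn⟩ := (hno r).exists_gt r
      exact ⟨n, hn, hrn.le⟩
    have hDanti : ∀ r r', r ≤ r' → D r' ⊆ D r := by
      intro r r' hr n hn
      exact ⟨⟨hn.1.1, fun h' => hn.1.2 (hmono r r' hr h')⟩, le_trans hr hn.2⟩
    have hne : (⨅ r, 𝓟 (D r)).NeBot := by
      apply iInf_neBot_of_directed
      · intro r r'
        refine ⟨max r r', ?_, ?_⟩
        · exact principal_mono.2 (hDanti _ _ (le_max_left _ _))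
        · exact principal_mono.2 (hDanti _ _ (le_max_right _ _))
      · intro r
        exact principal_neBot_iff.2 (hDne r)
    set U : Ultrafilter ℕ := Ultrafilter.of (⨅ r, 𝓟 (D r)) with hU
    have hUle : (U : Filter ℕ) ≤ ⨅ r, 𝓟 (D r) := Ultrafilter.of_le _
    have hDU : ∀ r, D r ∈ U := by
      intro r
      have h1 : D r ∈ (⨅ r, 𝓟 (D r)) := mem_iInf_of_mem r (mem_principal_self _)
      exact hUle h1
    have hUt : (U : Filter ℕ) ≤ atTop := by
      rw [atTop, le_iInf_iff]
      intro r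
      rw [le_principal_iff]
      exact mem_of_superset (hDU r) fun n hn => hn.2
    have hZU : Z ∈ U := mem_of_superset (hDU 0) fun n hn => hn.1.1
    obtain ⟨r, hr, h1⟩ := h U hUt hZU
    obtain ⟨n, hn1, hn2⟩ := (h1.and (hDU r)).exists
    apply hn2.1.2
    intro t
    obtain ⟨c, hc⟩ : r ∣ r.factorial := Nat.dvd_factorial (by omega) le_rfl
    have h2 := hn1 (c * t)
    rw [hc]
    convert h2 using 1
    ring
  obtain ⟨r, hr⟩ := hfin
  obtain ⟨T1, hT1⟩ := Pool.Agent.R847.HG.progressions_of_upward (B r) r.factorial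
    (Nat.factorial_pos r) (by
      intro n hn t
      have := hn (t + 1)
      convert this using 1
      ring)
  refine ⟨T1 ∪ hr.toFinset.image (fun n => (0, n)), ?_⟩
  have hBZ : B r ⊆ Z := by
    intro n hn
    simpa using hn 0
  ext n
  constructor
  · intro hn
    by_cases hnB : n ∈ B r
    · rw [hT1] at hnB
      obtain ⟨q, hq, m, hm⟩ := hnB
      exact ⟨q, Finset.mem_union_left _ hq, m, hm⟩
    · refine ⟨(0, n), Finset.mem_union_right _ ?_, 0, by simp⟩
      rw [Finset.mem_image]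
      exact ⟨n, hr.mem_toFinset.2 ⟨hn, hnB⟩, rfl⟩
  · rintro ⟨q, hq, m, hm⟩
    rw [Finset.mem_union] at hq
    rcases hq with hq | hq
    · apply hBZ
      rw [hT1]
      exact ⟨q, hq, m, hm⟩
    · rw [Finset.mem_image] at hq
      obtain ⟨n', hn', rfl⟩ := hq
      simp only [zero_mul, zero_add] at hm
      rw [hm]
      exact (hr.mem_toFinset.1 hn').1

/-- Components of a complex polynomial with respect to a rational functional. -/
lemma exists_comp {ι : Type} [Fintype ι] (P : MvPolynomial ι ℂ) (φ : Module.Dual ℚ ℂ) :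
    ∃ (Q : MvPolynomial ι ℤ) (D : ℤ), D ≠ 0 ∧
      (∀ κ, ((coeff κ Q : ℤ) : ℚ) = D * φ (coeff κ P)) ∧
      ∀ w : ι → ℤ, ((aeval w Q : ℤ) : ℚ) = D * φ (eval (fun i => (w i : ℂ)) P) := by
  classical
  set D : ℤ := ∏ κ ∈ P.support, ((φ (coeff κ P)).den : ℤ) with hD
  have hD0 : D ≠ 0 := by
    rw [hD, Finset.prod_ne_zero_iff]
    intro κ _
    exact_mod_cast (φ (coeff κ P)).den_ne_zero
  have hint : ∀ κ ∈ P.support, ∃ a : ℤ, (a : ℚ) = D * φ (coeff κ P) := by
    intro κ hκ
    obtain ⟨c, hc⟩ := Finset.dvd_prod_of_mem (fun κ => ((φ (coeff κ P)).den : ℤ)) hκ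
    refine ⟨c * (φ (coeff κ P)).num, ?_⟩
    have h1 : (φ (coeff κ P)) * ((φ (coeff κ P)).den : ℚ) = (φ (coeff κ P)).num :=
      Rat.mul_den_eq_num _
    rw [hD, hc]
    push_cast
    rw [← h1]
    ring
  have hint' : ∀ κ, ∃ a : ℤ, (a : ℚ) = D * φ (coeff κ P) := by
    intro κ
    by_cases hκ : κ ∈ P.support
    · exact hint κ hκ
    · refine ⟨0, ?_⟩
      rw [notMem_support_iff.1 hκ, map_zero]
      simp
  choose a ha using hint'
  set Q : MvPolynomial ι ℤ := ∑ κ ∈ P.support, monomial κ (a κ) with hQ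
  have hcoef : ∀ κ, ((coeff κ Q : ℤ) : ℚ) = D * φ (coeff κ P) := by
    intro κ
    rw [← ha κ, hQ, coeff_sum]
    simp_rw [coeff_monomial]
    rw [Finset.sum_ite_eq']
    split_ifs with h
    · rfl
    · have h1 := ha κ
      rw [notMem_support_iff.1 h, map_zero, mul_zero] at h1
      exact_mod_cast h1.symm
  refine ⟨Q, D, hD0, hcoef, fun w => ?_⟩
  have h1 : eval (fun i => (w i : ℂ)) P = ∑ κ ∈ P.support,
      ((∏ i, w i ^ κ i : ℤ) : ℚ) • coeff κ P := by
    rw [eval_eq']
    refine Finset.sum_congr rfl fun κ _ => ?_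
    rw [Rat.smul_def]
    push_cast
    ring
  rw [h1, hQ, map_sum, map_sum, Finset.mul_sum]
  push_cast
  refine Finset.sum_congr rfl fun κ _ => ?_
  rw [map_smul, smul_eq_mul, aeval_monomial, Finsupp.prod_fintype _ _ (by simp)]
  push_cast
  have h2 := ha κ
  have h3 : ((algebraMap ℤ ℤ (a κ) : ℤ) : ℚ) = (a κ : ℚ) := rfl
  rw [h3, h2]
  ring

lemma exists_int_of_complex {ι : Type} [Fintype ι] (P : MvPolynomial ι ℂ) (hP : P ≠ 0) :
    ∃ Q : MvPolynomial ι ℤ, Q ≠ 0 ∧
      ∀ w : ι → ℤ, eval (fun i => (w i : ℂ)) P = 0 → aeval w Q = 0 := by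
  obtain ⟨κ, hκ⟩ := MvPolynomial.support_nonempty.2 hP
  obtain ⟨φ, hφ⟩ : ∃ φ : Module.Dual ℚ ℂ, φ (coeff κ P) ≠ 0 := by
    by_contra hno
    push Not at hno
    exact (mem_support_iff.1 hκ) ((Module.forall_dual_apply_eq_zero_iff ℚ _).1 hno)
  obtain ⟨Q, D, hD, hcoef, hev⟩ := exists_comp P φ
  refine ⟨Q, ?_, fun w hw => ?_⟩
  · rintro rfl
    have h1 := hcoef κ
    rw [coeff_zero, Int.cast_zero] at h1
    have h2 : (D : ℚ) ≠ 0 := by exact_mod_cast hD
    exact mul_ne_zero h2 hφ h1.symm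
  · have h1 := hev w
    rw [hw, map_zero, mul_zero] at h1
    exact_mod_cast h1

lemma eval_scaleC {ι : Type} [Fintype ι] (g : MvPolynomial ι ℂ) (e : ℕ) (hg : g.IsHomogeneous e)
    (c : ℂ) (x : ι → ℂ) : eval (fun i => c * x i) g = c ^ e * eval x g := by
  classical
  rw [eval_eq', eval_eq', Finset.mul_sum]
  refine Finset.sum_congr rfl fun κ hκ => ?_
  have h1 : ∑ i, κ i = e := by
    have := hg (mem_support_iff.1 hκ)
    rw [Finsupp.weight_apply, Finsupp.sum_fintype _ _ (by simp)] at this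
    simpa using this
  have h2 : ∏ i, (c * x i) ^ κ i = c ^ e * ∏ i, x i ^ κ i := by
    simp only [mul_pow, Finset.prod_mul_distrib]
    congr 1
    rw [Finset.prod_pow_eq_pow_sum, ← h1]
  rw [h2]
  ring

variable {N : ℕ}

/-- the real points at infinity of a closed set given by complex equations -/
def AtInf (V : Set (MvPolynomial (Fin (N + 1)) ℂ)) (y : Fin (N + 1) → ℝ) : Prop :=
  ∀ g : MvPolynomial (Fin (N + 1)) ℂ, (∀ z, (∀ h ∈ V, eval z h = 0) → eval z g = 0) →
    eval (fun i => (y i : ℂ)) (homogeneousComponent g.totalDegree g) = 0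

lemma Tower.atInf {d : ℕ} {f : Fin (N + 1) → MvPolynomial (Fin (N + 1)) ℤ} {U : Ultrafilter ℕ}
    (T : Tower d f U) (V : Set (MvPolynomial (Fin (N + 1)) ℂ))
    (hV : ∀ᶠ n in U, ∀ h ∈ V, eval (fun i => (T.p 0 n i : ℂ)) h = 0) : AtInf V (T.y 0) := by
  intro g hg
  set m := g.totalDegree with hm
  have hz : Tendsto (fun n i => (T.z 0 n i : ℂ)) U (𝓝 fun i => (T.y 0 i : ℂ)) := by
    rw [tendsto_pi_nhds]
    intro i
    exact (Complex.continuous_ofReal.tendsto _).comp (tendsto_pi_nhds.1 (T.hz 0) i)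
  have hε : Tendsto (fun n => ((T.S 0 n : ℂ))⁻¹) U (𝓝 0) := by
    have h1 := (Complex.continuous_ofReal.tendsto 0).comp (T.hε 0)
    rw [Complex.ofReal_zero] at h1
    refine h1.congr fun n => ?_
    simp
  have h1 : Tendsto (fun n => ∑ j ∈ Finset.range (m + 1), ((T.S 0 n : ℂ))⁻¹ ^ (m - j) *
      eval (fun i => (T.z 0 n i : ℂ)) (homogeneousComponent j g)) U
      (𝓝 (∑ j ∈ Finset.range (m + 1), (0 : ℂ) ^ (m - j) *
        eval (fun i => (T.y 0 i : ℂ)) (homogeneousComponent j g))) := by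
    apply tendsto_finsetSum
    intro j _
    apply (hε.pow _).mul
    exact ((MvPolynomial.continuous_eval _).tendsto _).comp hz
  have h2 : ∀ᶠ n in U, ∑ j ∈ Finset.range (m + 1), ((T.S 0 n : ℂ))⁻¹ ^ (m - j) *
      eval (fun i => (T.z 0 n i : ℂ)) (homogeneousComponent j g) = 0 := by
    filter_upwards [hV, T.hp 0, (T.hS 0).eventually_gt_atTop 0] with n e1 e2 e3
    have e4 := hg _ e1
    have hS0 : (T.S 0 n : ℂ) ≠ 0 := by exact_mod_cast e3.ne'
    have e5 : (fun i => (T.p 0 n i : ℂ)) = fun i => (T.S 0 n : ℂ) * (T.z 0 n i : ℂ) := by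
      funext i
      have := e2 i
      have h3 : ((T.p 0 n i : ℝ) : ℂ) = ((T.S 0 n * T.z 0 n i : ℝ) : ℂ) := by rw [this]
      push_cast at h3
      exact h3
    rw [e5] at e4
    have e6 : (T.S 0 n : ℂ) ^ m * ∑ j ∈ Finset.range (m + 1), ((T.S 0 n : ℂ))⁻¹ ^ (m - j) *
        eval (fun i => (T.z 0 n i : ℂ)) (homogeneousComponent j g) = 0 := by
      rw [← e4]
      conv_rhs => rw [← sum_homogeneousComponent g]
      rw [map_sum, Finset.mul_sum]
      refine Finset.sum_congr rfl fun j hj => ?_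
      rw [Finset.mem_range] at hj
      rw [eval_scaleC _ j (homogeneousComponent_isHomogeneous j g)]
      have e7 : (T.S 0 n : ℂ) ^ m = (T.S 0 n : ℂ) ^ (m - j) * (T.S 0 n : ℂ) ^ j := by
        rw [← pow_add]
        congr 1
        omega
      rw [e7, inv_pow]
      field_simp
    exact (mul_eq_zero.1 e6).resolve_left (pow_ne_zero _ hS0)
  have h3 : ∑ j ∈ Finset.range (m + 1), (0 : ℂ) ^ (m - j) *
      eval (fun i => (T.y 0 i : ℂ)) (homogeneousComponent j g) =
      eval (fun i => (T.y 0 i : ℂ)) (homogeneousComponent m g) := by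
    rw [Finset.sum_range_succ, Finset.sum_eq_zero, zero_add, Nat.sub_self, pow_zero, one_mul]
    intro j hj
    rw [Finset.mem_range] at hj
    rw [zero_pow (by omega), zero_mul]
  rw [h3] at h1
  apply tendsto_nhds_unique h1
  apply Tendsto.congr' _ tendsto_const_nhds
  filter_upwards [h2] with n hn
  exact hn.symm

/-- **Dynamical Mordell-Lang for curves and integral points.** -/
theorem dml_integral (d : ℕ) (hd : 2 ≤ d) (f : Fin (N + 1) → MvPolynomial (Fin (N + 1)) ℤ)
    (hdeg : ∀ i, (f i).totalDegree ≤ d)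
    (hreg : ∀ z : Fin (N + 1) → ℂ, (∀ i, aeval z (homogeneousComponent d (f i)) = 0) → z = 0)
    (V : Set (MvPolynomial (Fin (N + 1)) ℂ))
    (hV : ∀ i j, ∃ P : MvPolynomial (Fin 2) ℂ, P ≠ 0 ∧
      ∀ z : Fin (N + 1) → ℂ, (∀ h ∈ V, eval z h = 0) → eval ![z i, z j] P = 0)
    (hcrit : ∀ y : ℕ → Fin (N + 1) → ℝ, (∀ k, y k ≠ 0) →
      (∀ k i, aeval (y (k + 1)) (homogeneousComponent d (f i)) = y k i) → AtInf V (y 0) →
      {k | (Dm d f (y k)).det = 0}.Finite)
    (x : ℕ → Fin (N + 1) → ℤ) (hx : ∀ n i, x (n + 1) i = aeval (x n) (f i)) :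
    ∃ T : Finset (ℕ × ℕ), {n : ℕ | ∀ h ∈ V, eval (fun i => (x n i : ℂ)) h = 0} =
      {n : ℕ | ∃ q ∈ T, ∃ m : ℕ, n = q.1 * m + q.2} := by
  classical
  set Z : Set ℕ := {n : ℕ | ∀ h ∈ V, eval (fun i => (x n i : ℂ)) h = 0} with hZ
  apply compact_AP
  intro U hU hZU
  by_cases hinj : Function.Injective x
  · have hpair : ∀ i j, ∃ P : MvPolynomial (Fin 2) ℤ, P ≠ 0 ∧
        ∀ᶠ n in U, aeval ![x n i, x n j] P = 0 := by
      intro i j
      obtain ⟨P, hP, hP0⟩ := hV i j
      obtain ⟨Q, hQ, hQ0⟩ := exists_int_of_complex P hP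
      refine ⟨Q, hQ, ?_⟩
      filter_upwards [hZU] with n hn
      apply hQ0
      have h1 := hP0 _ hn
      rw [← h1]
      congr 2
      funext e
      fin_cases e <;> rfl
    obtain ⟨T, hT⟩ := exists_tower d hd f hdeg hreg x hx hinj U hU hpair
    have hinf : AtInf V (T.y 0) := by
      apply T.atInf V
      filter_upwards [hZU] with n hn
      rw [hT]
      exact hn
    have hfin := hcrit T.y T.hy0 T.hy hinf
    obtain ⟨k1, hk1⟩ : ∃ k1, ∀ k ≥ k1, (Dm d f (T.y k)).det ≠ 0 := by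
      obtain ⟨b, hb⟩ := hfin.bddAbove
      refine ⟨b + 1, fun k hk h0 => ?_⟩
      have := hb h0
      omega
    obtain ⟨l, hl, h⟩ := T.fin hd hdeg hreg x hx hT hU k1 hk1
    refine ⟨l, hl, ?_⟩
    filter_upwards [h] with n hn t g hg
    apply (Module.forall_dual_apply_eq_zero_iff ℚ _).1
    intro φ
    obtain ⟨Q, D, hD, _, hev⟩ := exists_comp g φ
    have h1 := hn t Q (by
      filter_upwards [hZU] with n' hn'
      have h2 := hev (x n')
      rw [hn' g hg, map_zero, mul_zero] at h2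
      exact_mod_cast h2)
    have h2 := hev (x (n + l * t))
    rw [h1, Int.cast_zero] at h2
    have h3 : (D : ℚ) ≠ 0 := by exact_mod_cast hD
    exact (mul_eq_zero.1 h2.symm).resolve_left h3
  · -- a preperiodic orbit
    rw [Function.Injective] at hinj
    push Not at hinj
    obtain ⟨a, b, hab, hne⟩ := hinj
    have key : ∀ a b, a < b → x a = x b →
        ∃ r ≥ 1, ∀ᶠ n in U, ∀ t, n + r * t ∈ Z := by
      intro a b hlt hab
      have h1 : ∀ m, x (a + m) = x (b + m) := by
        intro m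
        induction m with
        | zero => exact hab
        | succ m ih =>
          funext i
          rw [← add_assoc, ← add_assoc, hx, hx, ih]
      have h2 : ∀ n ≥ a, ∀ t, x (n + (b - a) * t) = x n := by
        intro n hn t
        induction t with
        | zero => rfl
        | succ t ih =>
          rw [← ih]
          have h3 := h1 (n + (b - a) * t - a)
          have e1 : a + (n + (b - a) * t - a) = n + (b - a) * t := by
            generalize (b - a) * t = w
            omega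
          have e2 : b + (n + (b - a) * t - a) = n + (b - a) * (t + 1) := by
            rw [mul_add, mul_one]
            generalize (b - a) * t = w
            omega
          rw [e1, e2] at h3
          exact h3.symm
      refine ⟨b - a, by omega, ?_⟩
      have h3 : ∀ᶠ n in U, a ≤ n := hU (eventually_ge_atTop a)
      filter_upwards [h3, hZU] with n h4 h5 t g hg
      rw [h2 n h4 t]
      exact h5 g hg
    rcases lt_or_gt_of_ne hne with h | h
    · exact key a b h hab
    · exact key b a h hab.symm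

end Pool.Agent.R847.SG
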