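import Mathlib
import Pool.Agent.R847.SG.Final

/-!
# A family of regular endomorphisms without real critical points at infinity
-/

set_option autoImplicit false

open MvPolynomial

namespace Pool.Agent.R847.SG

variable {N : ℕ}

/-- the cubic forms `x_i^3 + x_i (x_0^2 + … + x_N^2)` -/
noncomputable def cub (i : Fin (N + 1)) : MvPolynomial (Fin (N + 1)) ℤ :=
  X i ^ 3 + X i * ∑ j, X j ^ 2

lemma cub_hom (i : Fin (N + 1)) : (cub i).IsHomogeneous 3 := by
  unfold cub
  apply (isHomogeneous_X_pow i 3).add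
  have h1 : (∑ j : Fin (N + 1), (X j : MvPolynomial (Fin (N + 1)) ℤ) ^ 2).IsHomogeneous 2 :=
    IsHomogeneous.sum _ _ _ fun j _ => isHomogeneous_X_pow j 2
  exact (isHomogeneous_X _ i).mul h1

lemma cub_deg (i : Fin (N + 1)) (g : MvPolynomial (Fin (N + 1)) ℤ) (hg : g.totalDegree ≤ 2) :
    (cub i + g).totalDegree ≤ 3 := by
  refine (totalDegree_add _ _).trans (max_le (cub_hom i).totalDegree_le (by omega))

lemma cub_top (i : Fin (N + 1)) (g : MvPolynomial (Fin (N + 1)) ℤ) (hg : g.totalDegree ≤ 2) :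
    homogeneousComponent 3 (cub i + g) = cub i := by
  rw [map_add, homogeneousComponent_of_mem (cub_hom i), if_pos rfl,
    homogeneousComponent_eq_zero 3 g (by omega), add_zero]

lemma cub_reg (z : Fin (N + 1) → ℂ) (h : ∀ i, aeval z (cub i) = 0) : z = 0 := by
  classical
  set q : ℂ := ∑ j, z j ^ 2 with hq
  have h1 : ∀ i, z i = 0 ∨ z i ^ 2 = -q := by
    intro i
    have h2 := h i
    unfold cub at h2
    simp only [map_add, map_pow, aeval_X, map_mul, map_sum] at h2
    rw [← hq] at h2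
    have h3 : z i * (z i ^ 2 + q) = 0 := by linear_combination h2
    rcases mul_eq_zero.1 h3 with h4 | h4
    · exact Or.inl h4
    · right
      linear_combination h4
  have h2 : q = -((Finset.univ.filter fun i => z i ≠ 0).card : ℂ) * q := by
    conv_lhs => rw [hq]
    rw [← Finset.sum_filter_add_sum_filter_not Finset.univ (fun i => z i ≠ 0)]
    rw [Finset.sum_congr rfl (g := fun _ => -q) (fun i hi => by
      rw [Finset.mem_filter] at hi
      exact (h1 i).resolve_left hi.2)]
    rw [Finset.sum_const, nsmul_eq_mul, Finset.sum_eq_zero (s := Finset.filter _ _), add_zero]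
    · ring
    · intro i hi
      rw [Finset.mem_filter, not_not] at hi
      rw [hi.2, zero_pow two_ne_zero]
  have h3 : q = 0 := by
    have h4 : ((1 + (Finset.univ.filter fun i => z i ≠ 0).card : ℕ) : ℂ) * q = 0 := by
      push_cast
      linear_combination h2
    have h5 : ((1 + (Finset.univ.filter fun i => z i ≠ 0).card : ℕ) : ℂ) ≠ 0 := by
      rw [Nat.cast_ne_zero]
      omega
    exact (mul_eq_zero.1 h4).resolve_left h5
  funext i
  rcases h1 i with h4 | h4
  · exact h4
  · rw [h3, neg_zero] at h4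
    exact pow_eq_zero_iff two_ne_zero |>.1 h4

lemma cub_det (f : Fin (N + 1) → MvPolynomial (Fin (N + 1)) ℤ)
    (hf : ∀ i, homogeneousComponent 3 (f i) = cub i) (y : Fin (N + 1) → ℝ) (hy : y ≠ 0) :
    (Dm 3 f y).det ≠ 0 := by
  classical
  intro h0
  obtain ⟨v, hv, hDv⟩ := Matrix.exists_mulVec_eq_zero_iff.2 h0
  have h1 : ∀ i j, Dm 3 f y i j = (if i = j then 3 * y i ^ 2 + ∑ r, y r ^ 2 else 0) +
      2 * y i * y j := by
    intro i j
    unfold Dm
    rw [Matrix.of_apply, hf]
    unfold cub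
    simp only [map_add, Derivation.leibniz, Derivation.leibniz_pow, pderiv_X, map_sum]
    simp only [smul_eq_mul, map_mul, map_sum, map_pow, aeval_X, nsmul_eq_mul, map_natCast]
    simp only [Pi.single_apply, apply_ite (aeval y : MvPolynomial (Fin (N + 1)) ℤ → ℝ), map_one,
      map_zero]
    by_cases hij : i = j
    · subst hij
      simp [Finset.sum_ite_eq']
      ring
    · simp [hij, Finset.sum_ite_eq']
      ring
  have h2 : ∑ i, v i * (Dm 3 f y).mulVec v i = 3 * ∑ i, (y i * v i) ^ 2 +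
      (∑ r, y r ^ 2) * (∑ i, v i ^ 2) + 2 * (∑ i, y i * v i) ^ 2 := by
    have h3 : ∀ i, (Dm 3 f y).mulVec v i = (3 * y i ^ 2 + ∑ r, y r ^ 2) * v i +
        2 * y i * ∑ j, y j * v j := by
      intro i
      rw [Matrix.mulVec, dotProduct]
      simp_rw [h1, add_mul]
      rw [Finset.sum_add_distrib]
      simp only [ite_mul, zero_mul, Finset.sum_ite_eq, Finset.mem_univ, if_true]
      rw [Finset.mul_sum]
      simp only [add_mul, mul_assoc]
    simp_rw [h3]
    rw [pow_two (∑ i, y i * v i), Finset.mul_sum, Finset.mul_sum]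
    rw [Finset.sum_mul, Finset.mul_sum, ← Finset.sum_add_distrib, ← Finset.sum_add_distrib]
    refine Finset.sum_congr rfl fun i _ => ?_
    ring
  have h4 : ∑ i, v i * (Dm 3 f y).mulVec v i = 0 := by
    rw [hDv]
    simp
  rw [h4] at h2
  have h5 : 0 < ∑ r, y r ^ 2 := by
    obtain ⟨r, hr⟩ := Function.ne_iff.1 hy
    have hr' : y r ≠ 0 := hr
    apply Finset.sum_pos' (fun i _ => sq_nonneg _)
    exact ⟨r, Finset.mem_univ r, by positivity⟩
  have h6 : 0 < ∑ r, v r ^ 2 := by
    obtain ⟨r, hr⟩ := Function.ne_iff.1 hv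
    have hr' : v r ≠ 0 := hr
    apply Finset.sum_pos' (fun i _ => sq_nonneg _)
    exact ⟨r, Finset.mem_univ r, by positivity⟩
  have h7 : 0 ≤ ∑ i, (y i * v i) ^ 2 := Finset.sum_nonneg fun i _ => sq_nonneg _
  have h8 := mul_pos h5 h6
  have h9 : 0 ≤ (∑ i, y i * v i) ^ 2 := sq_nonneg _
  linarith

/-- Dynamical Mordell-Lang for the family. -/
theorem dml_cub (g : Fin (N + 1) → MvPolynomial (Fin (N + 1)) ℤ) (hg : ∀ i, (g i).totalDegree ≤ 2)
    (V : Set (MvPolynomial (Fin (N + 1)) ℂ))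
    (hV : ∀ i j, ∃ P : MvPolynomial (Fin 2) ℂ, P ≠ 0 ∧
      ∀ z : Fin (N + 1) → ℂ, (∀ h ∈ V, eval z h = 0) → eval ![z i, z j] P = 0)
    (x : ℕ → Fin (N + 1) → ℤ) (hx : ∀ n i, x (n + 1) i = aeval (x n) (cub i + g i)) :
    ∃ T : Finset (ℕ × ℕ), {n : ℕ | ∀ h ∈ V, eval (fun i => (x n i : ℂ)) h = 0} =
      {n : ℕ | ∃ q ∈ T, ∃ m : ℕ, n = q.1 * m + q.2} := by
  apply dml_integral 3 (by norm_num) (fun i => cub i + g i) (fun i => cub_deg i (g i) (hg i))
    (fun z hz => cub_reg z fun i => by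
      have h1 := hz i
      rwa [cub_top i (g i) (hg i)] at h1) V hV
    (fun y hy _ _ => by
      have h1 : {k | (Dm 3 (fun i => cub i + g i) (y k)).det = 0} = ∅ := by
        ext k
        simp only [Set.mem_ofPred_eq, Set.mem_empty_iff_false, iff_false]
        exact cub_det _ (fun i => cub_top i (g i) (hg i)) (y k) (hy k)
      rw [h1]
      exact Set.finite_empty) x hx

end Pool.Agent.R847.SG
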